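import Pool.Agent.H6.TW.Weil

set_option autoImplicit false

open Polynomial TensorProduct

namespace Pool.Agent.H6.TW

variable {Ω : Type} [Field Ω] [CharZero Ω]
variable {V : Type} [AddCommGroup V] [Module Ω V]

omit [CharZero Ω] in
lemma Rel.apply {N φ : Module.End Ω V} {q : ℕ} (h : Rel N φ q) (x : V) :
    N (φ x) = (q : Ω) • φ (N x) := h x

omit [CharZero Ω] in
lemma Rel.pow_apply {N φ : Module.End Ω V} {q : ℕ} (h : Rel N φ q) (k : ℕ) (x : V) :
    (N ^ k) (φ x) = ((q : Ω) ^ k) • φ ((N ^ k) x) := by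
  induction k generalizing x with
  | zero => simp
  | succ k ih =>
    rw [pow_succ, Module.End.mul_apply, h.apply, map_smul, ih, Module.End.mul_apply, smul_smul,
      pow_succ, mul_comm]

/-- `N ^ k` maps the eigenspace for `α` to the one for `α / q ^ k`. -/
lemma Rel.eigen {N φ : Module.End Ω V} {q : ℕ} (hq : q ≠ 0) (h : Rel N φ q) {α : Ω} {x : V}
    (hx : φ x = α • x) (k : ℕ) : φ ((N ^ k) x) = (α / (q : Ω) ^ k) • (N ^ k) x := by
  have h1 := h.pow_apply k x
  rw [hx, map_smul] at h1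
  have hq' : ((q : Ω) ^ k) ≠ 0 := pow_ne_zero _ (by exact_mod_cast hq)
  have h2 : φ ((N ^ k) x) = ((q : Ω) ^ k)⁻¹ • (α • (N ^ k) x) := by
    rw [h1, smul_smul, inv_mul_cancel₀ hq', one_smul]
  rw [h2, smul_smul]
  congr 1
  field_simp

lemma Rel.pow_gen {N φ : Module.End Ω V} {q : ℕ} (hq : q ≠ 0) (h : Rel N φ q) (j : ℕ) (α : Ω)
    (k : ℕ) (x : V) :
    ((φ - algebraMap Ω _ (α / (q : Ω) ^ j)) ^ k) ((N ^ j) x) =
      (((q : Ω) ^ j)⁻¹) ^ k • (N ^ j) (((φ - algebraMap Ω _ α) ^ k) x) := by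
  have hq' : ((q : Ω) ^ j) ≠ 0 := pow_ne_zero _ (by exact_mod_cast hq)
  have h0 : ∀ y : V, (φ - algebraMap Ω (Module.End Ω V) (α / (q : Ω) ^ j)) ((N ^ j) y) =
      ((q : Ω) ^ j)⁻¹ • (N ^ j) ((φ - algebraMap Ω (Module.End Ω V) α) y) := by
    intro y
    have h1 := h.pow_apply j y
    rw [LinearMap.sub_apply, LinearMap.sub_apply, Module.algebraMap_end_apply,
      Module.algebraMap_end_apply, map_sub, h1, map_smul, smul_sub, smul_smul,
      inv_mul_cancel₀ hq', one_smul, smul_smul]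
    congr 2
    field_simp
  induction k generalizing x with
  | zero => simp
  | succ k ih =>
    rw [pow_succ, Module.End.mul_apply, h0, map_smul, ih, smul_smul, pow_succ,
      pow_succ (φ - algebraMap Ω (Module.End Ω V) α), Module.End.mul_apply]
    congr 1
    ring

lemma Rel.maps_gen {N φ : Module.End Ω V} {q : ℕ} (hq : q ≠ 0) (h : Rel N φ q) (j : ℕ) {α : Ω}
    {x : V} (hx : x ∈ φ.maxGenEigenspace α) :
    (N ^ j) x ∈ φ.maxGenEigenspace (α / (q : Ω) ^ j) := by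
  rw [Module.End.mem_maxGenEigenspace] at hx ⊢
  obtain ⟨k, hk⟩ := hx
  refine ⟨k, ?_⟩
  have h1 := h.pow_gen hq j α k x
  have e1 : (φ - (α / (q : Ω) ^ j) • (1 : Module.End Ω V)) =
      φ - algebraMap Ω _ (α / (q : Ω) ^ j) := by rw [Algebra.algebraMap_eq_smul_one]
  have e2 : (φ - α • (1 : Module.End Ω V)) = φ - algebraMap Ω _ α := by
    rw [Algebra.algebraMap_eq_smul_one]
  rw [e1, h1, ← e2, hk, map_zero, smul_zero]

lemma Rel.maps_weight {N φ : Module.End Ω V} {q : ℕ} (hq : q ≠ 0) (h : Rel N φ q) (j : ℕ) (w : ℤ)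
    {x : V} (hx : x ∈ weightSpace φ q w) : (N ^ j) x ∈ weightSpace φ q (w - 2 * j) := by
  have h1 : weightSpace φ q w ≤ (weightSpace φ q (w - 2 * j)).comap (N ^ j) := by
    refine iSup₂_le fun α hα y hy => ?_
    rw [Submodule.mem_comap]
    have h2 := h.maps_gen hq j hy
    refine Submodule.mem_iSup_of_mem (α / (q : Ω) ^ j) (Submodule.mem_iSup_of_mem ?_ h2)
    have h3 : IsWeil q (w - 2 * j) (α / (q : Ω) ^ j) := by
      rw [div_eq_mul_inv]
      have h4 := ((isWeil_q (Ω := Ω) (q := q)).pow hq j).inv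
      have h5 := IsWeil.mul hq hα h4
      convert h5 using 1
      ring
    exact h3
  exact h1 hx

/-- the weight spaces are stable under `φ` -/
lemma weight_stable (φ : Module.End Ω V) (q : ℕ) (w : ℤ) {x : V} (hx : x ∈ weightSpace φ q w) :
    φ x ∈ weightSpace φ q w := by
  have h1 : weightSpace φ q w ≤ (weightSpace φ q w).comap φ := by
    refine iSup₂_le fun α hα y hy => ?_
    rw [Submodule.mem_comap]
    refine Submodule.mem_iSup_of_mem α (Submodule.mem_iSup_of_mem hα ?_)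
    exact Module.End.mapsTo_maxGenEigenspace_of_comm (Commute.refl φ) α hy
  exact h1 hx

/-- an eigenvector in the weight space has an eigenvalue of this weight -/
lemma weight_of_eigen (φ : Module.End Ω V) (q : ℕ) (w : ℤ) {x : V} (hx : x ∈ weightSpace φ q w)
    (hx0 : x ≠ 0) {α : Ω} (hα : φ x = α • x) : IsWeil q w α := by
  by_contra hw
  have hind := Module.End.independent_maxGenEigenspace φ
  have h1 : weightSpace φ q w ≤ ⨆ β ≠ α, φ.maxGenEigenspace β := by
    refine iSup₂_le fun β hβ => ?_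
    have hne : β ≠ α := by
      rintro rfl
      exact hw hβ
    exact le_iSup₂_of_le β hne le_rfl
  have h2 : x ∈ φ.maxGenEigenspace α := by
    rw [Module.End.mem_maxGenEigenspace]
    exact ⟨1, by simp [hα]⟩
  have h3 := (hind α).le_bot ⟨h2, h1 hx⟩
  exact hx0 (by simpa using h3)

lemma eigen_mem_weight (φ : Module.End Ω V) (q : ℕ) (w : ℤ) {x : V} {α : Ω}
    (hα : φ x = α • x) (hw : IsWeil q w α) : x ∈ weightSpace φ q w := by
  refine Submodule.mem_iSup_of_mem α (Submodule.mem_iSup_of_mem hw ?_)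
  rw [Module.End.mem_maxGenEigenspace]
  exact ⟨1, by simp [hα]⟩

/-- if `N ^ j` is not injective on a weight space, its kernel there contains an eigenvector -/
lemma exists_bad_eigenvector [IsAlgClosed Ω] [FiniteDimensional Ω V] {N φ : Module.End Ω V} {q : ℕ}
    (hq : q ≠ 0) (h : Rel N φ q) (j : ℕ) (w : ℤ) {x₀ : V} (hx₀ : x₀ ∈ weightSpace φ q w)
    (hne : x₀ ≠ 0) (hN : (N ^ j) x₀ = 0) :
    ∃ (α : Ω) (x : V), IsWeil q w α ∧ x ≠ 0 ∧ φ x = α • x ∧ (N ^ j) x = 0 := by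
  set U : Submodule Ω V := weightSpace φ q w ⊓ LinearMap.ker (N ^ j) with hU
  have hst : ∀ y ∈ U, φ y ∈ U := by
    rintro y ⟨hy1, hy2⟩
    refine ⟨weight_stable φ q w hy1, ?_⟩
    have h1 := h.pow_apply j y
    have hy3 : (N ^ j) y = 0 := hy2
    have hq' : ((q : Ω) ^ j) ≠ 0 := pow_ne_zero _ (by exact_mod_cast hq)
    change (N ^ j) (φ y) = 0
    rw [h1, hy3, map_zero, smul_zero]
  have hx₀U : x₀ ∈ U := ⟨hx₀, hN⟩
  have : Nontrivial U := ⟨⟨⟨x₀, hx₀U⟩, 0, fun h0 => hne (by simpa using congrArg Subtype.val h0)⟩⟩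
  obtain ⟨α, hα⟩ := Module.End.exists_eigenvalue (φ.restrict hst)
  obtain ⟨⟨x, hxU⟩, hx1, hx2⟩ := hα.exists_hasEigenvector
  have hx3 : φ x = α • x := by
    have := Module.End.mem_eigenspace_iff.mp hx1
    simpa using congrArg Subtype.val this
  have hx4 : x ≠ 0 := fun h0 => hx2 (by simpa using h0)
  exact ⟨α, x, weight_of_eigen φ q w hxU.1 hx4 hx3, hx4, hx3, hxU.2⟩

/-- The vector `∑ (-1)^k N^k x ⊗ N^(a-k) x`. -/
noncomputable def zvec (N : Module.End Ω V) (a : ℕ) (x : V) : V ⊗[Ω] V :=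
  ∑ k ∈ Finset.range (a + 1), (-1 : Ω) ^ k • ((N ^ k) x ⊗ₜ[Ω] (N ^ (a - k)) x)

omit [CharZero Ω] in
lemma tmul_ne_zero {W : Type} [AddCommGroup W] [Module Ω W] {x : V} {y : W} (hx : x ≠ 0)
    (hy : y ≠ 0) : x ⊗ₜ[Ω] y ≠ 0 := by
  intro h
  obtain ⟨f, hf⟩ : ∃ f : Module.Dual Ω V, f x ≠ 0 := by
    by_contra hc
    push Not at hc
    exact hx ((Module.forall_dual_apply_eq_zero_iff Ω x).mp hc)
  obtain ⟨g, hg⟩ : ∃ g : Module.Dual Ω W, g y ≠ 0 := by
    by_contra hc
    push Not at hc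
    exact hy ((Module.forall_dual_apply_eq_zero_iff Ω y).mp hc)
  have h1 := congrArg (TensorProduct.lid Ω Ω) (congrArg (TensorProduct.map f g) h)
  simp only [TensorProduct.map_tmul, map_zero, TensorProduct.lid_tmul, smul_eq_mul] at h1
  rcases mul_eq_zero.mp h1 with h2 | h2
  · exact hf h2
  · exact hg h2

omit [CharZero Ω] in
lemma zvec_ker (N : Module.End Ω V) (a : ℕ) (x : V) (hx : (N ^ (a + 1)) x = 0) :
    (N.rTensor V + N.lTensor V) (zvec N a x) = 0 := by
  unfold zvec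
  rw [map_sum]
  set f : ℕ → V ⊗[Ω] V := fun k : ℕ => -((-1 : Ω) ^ (k) • ((N ^ (k)) x ⊗ₜ[Ω] (N ^ (a + 1 - k)) x))
    with hf
  have e1 : ∀ k, N ((N ^ k) x) = (N ^ (k + 1)) x := fun k => by
    rw [pow_succ', Module.End.mul_apply]
  have h1 : ∀ k ∈ Finset.range (a + 1), (N.rTensor V + N.lTensor V)
      ((-1 : Ω) ^ k • ((N ^ k) x ⊗ₜ[Ω] (N ^ (a - k)) x)) = f (k + 1) - f k := by
    intro k hk
    have hk' : k ≤ a := Nat.lt_succ_iff.mp (Finset.mem_range.mp hk)
    rw [map_smul, LinearMap.add_apply, LinearMap.rTensor_tmul, LinearMap.lTensor_tmul, e1, e1,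
      smul_add]
    have e2 : a + 1 - (k + 1) = a - k := by omega
    have e3 : a - k + 1 = a + 1 - k := by omega
    simp only [hf, e2, e3]
    rw [pow_succ (-1 : Ω) k]
    simp only [mul_neg, mul_one, neg_smul, neg_neg, sub_neg_eq_add]
  rw [Finset.sum_congr rfl h1, Finset.sum_range_sub]
  simp only [hf, Nat.sub_self, pow_zero, tsub_zero, one_smul, Module.End.one_apply]
  rw [hx, TensorProduct.zero_tmul, TensorProduct.tmul_zero]
  simp

omit [CharZero Ω] in
lemma zvec_ne_zero (N : Module.End Ω V) (a : ℕ) (x : V) (hx : (N ^ (a + 1)) x = 0)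
    (hx' : (N ^ a) x ≠ 0) : zvec N a x ≠ 0 := by
  intro h0
  have h1 : ((N ^ a).rTensor V) (zvec N a x) = (N ^ a) x ⊗ₜ[Ω] (N ^ a) x := by
    unfold zvec
    rw [map_sum, Finset.sum_eq_single_of_mem 0 (by simp)]
    · simp
    · intro k _ hk0
      rw [map_smul, LinearMap.rTensor_tmul]
      have h2 : (N ^ a) ((N ^ k) x) = 0 := by
        obtain ⟨l, rfl⟩ := Nat.exists_eq_succ_of_ne_zero hk0
        rw [← Module.End.mul_apply, ← pow_add, show a + (l.succ) = l + (a + 1) by omega, pow_add,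
          Module.End.mul_apply, hx, map_zero]
      rw [h2, TensorProduct.zero_tmul, smul_zero]
  rw [h0, map_zero] at h1
  exact tmul_ne_zero hx' hx' h1.symm

lemma zvec_eigen {N φ : Module.End Ω V} {q : ℕ} (hq : q ≠ 0) (h : Rel N φ q) (a : ℕ) {x : V}
    {α : Ω} (hx : φ x = α • x) :
    (TensorProduct.map φ φ) (zvec N a x) = (α ^ 2 / (q : Ω) ^ a) • zvec N a x := by
  unfold zvec
  rw [map_sum, Finset.smul_sum]
  refine Finset.sum_congr rfl fun k hk => ?_
  have hk' : k ≤ a := Nat.lt_succ_iff.mp (Finset.mem_range.mp hk)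
  rw [map_smul, TensorProduct.map_tmul, h.eigen hq hx, h.eigen hq hx, TensorProduct.smul_tmul',
    TensorProduct.tmul_smul, TensorProduct.smul_tmul', smul_smul, smul_smul, smul_smul]
  have hq' : (q : Ω) ≠ 0 := by exact_mod_cast hq
  congr 1
  have e : (q : Ω) ^ a = (q : Ω) ^ k * (q : Ω) ^ (a - k) := by
    rw [← pow_add]; congr 1; omega
  rw [e]
  field_simp

end Pool.Agent.H6.TW
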