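import Pool.Agent.H6.TW.Alg

set_option autoImplicit false

open Polynomial TensorProduct

namespace Pool.Agent.H6.TW

variable {Ω : Type} [Field Ω] [CharZero Ω]
variable {V : Type} [AddCommGroup V] [Module Ω V]

section Exp

variable [Module ℚ V]

omit [CharZero Ω] in
/-- the kernel of `N` is fixed by `exp N` -/
lemma exp_apply_of_ker {N : Module.End Ω V} (hN : IsNilpotent N) {x : V} (hx : N x = 0) :
    IsNilpotent.exp N x = x := by
  have h := IsNilpotent.exp_smul_eq_sum (a := N) (m := x) (k := 1) (by simpa using hx) hN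
  simpa using h

omit [CharZero Ω] in
/-- the vectors fixed by `exp (c N)` are in the kernel of `N` -/
lemma ker_of_exp_apply {N : Module.End Ω V} (hN : IsNilpotent N) {c : Ω} (hc : c ≠ 0) {x : V}
    (hx : IsNilpotent.exp (c • N) x = x) : N x = 0 := by
  classical
  have hex : ∃ a, (N ^ a) x = 0 := by
    obtain ⟨k, hk⟩ := hN
    exact ⟨k, by rw [hk]; simp⟩
  set a := Nat.find hex with ha
  have h1 : (N ^ a) x = 0 := Nat.find_spec hex
  have h2 : ∀ b < a, (N ^ b) x ≠ 0 := fun b hb => Nat.find_min hex hb
  have hcN : IsNilpotent (c • N) := IsNilpotent.smul hN c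
  rcases Nat.lt_or_ge 1 a with h | h
  · exfalso
    obtain ⟨b, hb⟩ : ∃ b, a = b + 2 := ⟨a - 2, by omega⟩
    have h3 : ((c • N) ^ a) x = 0 := by rw [_root_.smul_pow, LinearMap.smul_apply, h1, smul_zero]
    have h4 := IsNilpotent.exp_smul_eq_sum (a := c • N) (m := x) (k := a)
      (by simpa using h3) hcN
    have h5 : IsNilpotent.exp (c • N) x = ∑ i ∈ Finset.range a, ((i.factorial : ℚ)⁻¹) •
      ((c • N) ^ i) x := by simpa using h4
    rw [hx, hb, Finset.sum_range_succ', Finset.sum_range_succ'] at h5
    have h6 := congrArg (N ^ b) h5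
    rw [map_add, map_add, map_sum] at h6
    have h7 : ∀ i ∈ Finset.range b, (N ^ b) ((((i + 1 + 1).factorial : ℚ)⁻¹) •
        ((c • N) ^ (i + 1 + 1)) x) = 0 := by
      intro i _
      have e : (N ^ b) ((N ^ (i + 1 + 1)) x) = 0 := by
        rw [← Module.End.mul_apply, ← pow_add, show b + (i + 1 + 1) = i + a by omega, pow_add,
          Module.End.mul_apply, h1, map_zero]
      rw [_root_.smul_pow, LinearMap.smul_apply, map_rat_smul, map_smul, e, smul_zero, smul_zero]
    rw [Finset.sum_eq_zero h7] at h6
    simp only [zero_add, Nat.factorial_one, Nat.cast_one, inv_one, one_smul, pow_one,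
      Nat.factorial_zero, pow_zero, Module.End.one_apply, LinearMap.smul_apply, map_smul] at h6
    have h8 : c • (N ^ b) (N x) = 0 := by
      have := h6
      rw [eq_comm, add_eq_right] at this
      exact this
    have h9 : (N ^ b) (N x) = (N ^ (b + 1)) x := by rw [pow_succ, Module.End.mul_apply]
    rw [h9] at h8
    rcases smul_eq_zero.mp h8 with h10 | h10
    · exact hc h10
    · exact h2 (b + 1) (by omega) h10
  · interval_cases a
    · have : x = 0 := by simpa using h1
      rw [this, map_zero]
    · simpa using h1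

variable [Module ℚ (V ⊗[Ω] V)]

omit [CharZero Ω] in
lemma map_exp_of_ker {N : Module.End Ω V} (hN : IsNilpotent N) (c : Ω) {z : V ⊗[Ω] V}
    (hz : (N.rTensor V + N.lTensor V) z = 0) :
    TensorProduct.map (IsNilpotent.exp (c • N)) (IsNilpotent.exp (c • N)) z = z := by
  have hcN : IsNilpotent (c • N) := IsNilpotent.smul hN c
  have hr : IsNilpotent (LinearMap.rTensor V (c • N)) := hcN.map (Module.End.rTensorAlgHom Ω V V)
  have hl : IsNilpotent (LinearMap.lTensor V (c • N)) := hcN.map (Module.End.lTensorAlgHom Ω V V)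
  have hcomm : Commute (LinearMap.rTensor V (c • N)) (LinearMap.lTensor V (c • N)) := by
    ext; simp
  have h1 : IsNilpotent.exp (LinearMap.rTensor V (c • N)) =
      (IsNilpotent.exp (c • N)).rTensor V := (hcN.map_exp (Module.End.rTensorAlgHom Ω V V)).symm
  have h2 : IsNilpotent.exp (LinearMap.lTensor V (c • N)) =
      (IsNilpotent.exp (c • N)).lTensor V := (hcN.map_exp (Module.End.lTensorAlgHom Ω V V)).symm
  have h3 : TensorProduct.map (IsNilpotent.exp (c • N)) (IsNilpotent.exp (c • N)) =
      IsNilpotent.exp (LinearMap.rTensor V (c • N) + LinearMap.lTensor V (c • N)) := by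
    rw [IsNilpotent.exp_add_of_commute hcomm hr hl, h1, h2]
    ext
    simp
  rw [h3]
  refine exp_apply_of_ker (hcomm.isNilpotent_add hr hl) ?_
  have h4 : LinearMap.rTensor V (c • N) + LinearMap.lTensor V (c • N) =
      c • (LinearMap.rTensor V N + LinearMap.lTensor V N) := by
    rw [smul_add, LinearMap.rTensor_smul, LinearMap.lTensor_smul]
  rw [h4, LinearMap.smul_apply, hz, smul_zero]

end Exp

section Pairing

omit [CharZero Ω] in
/-- orthogonality of the generalised eigenspaces -/
lemma pairing_ortho {φ : Module.End Ω V} (B : V →ₗ[Ω] V →ₗ[Ω] Ω) (Q : Ω)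
    (hB : ∀ x y, B (φ x) (φ y) = Q * B x y) {α β : Ω} (hne : α * β ≠ Q) (k : ℕ) :
    ∀ x : V, ((φ - α • (1 : Module.End Ω V)) ^ k) x = 0 → ∀ (l : ℕ) (y : V),
      ((φ - β • (1 : Module.End Ω V)) ^ l) y = 0 → B x y = 0 := by
  induction k with
  | zero =>
    intro x hx l y _
    have : x = 0 := by simpa using hx
    rw [this]; simp
  | succ k ihk =>
    intro x hx l
    set x' := (φ - α • (1 : Module.End Ω V)) x with hx'
    have hx'0 : ((φ - α • (1 : Module.End Ω V)) ^ k) x' = 0 := by
      rw [hx', ← Module.End.mul_apply, ← pow_succ]; exact hx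
    have ex : φ x = α • x + x' := by rw [hx']; simp
    induction l with
    | zero =>
      intro y hy
      have : y = 0 := by simpa using hy
      rw [this]; simp
    | succ l ihl =>
      intro y hy
      set y' := (φ - β • (1 : Module.End Ω V)) y with hy'
      have hy'0 : ((φ - β • (1 : Module.End Ω V)) ^ l) y' = 0 := by
        rw [hy', ← Module.End.mul_apply, ← pow_succ]; exact hy
      have ey : φ y = β • y + y' := by rw [hy']; simp
      have h1 : B x y' = 0 := ihl y' hy'0
      have h2 : B x' (φ y) = 0 := by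
        refine ihk x' hx'0 (l + 1) (φ y) ?_
        have hc : Commute ((φ - β • (1 : Module.End Ω V)) ^ (l + 1)) φ := by
          refine Commute.pow_left ?_ _
          exact (Commute.refl φ).sub_left ((Commute.one_left φ).smul_left β)
        have := LinearMap.congr_fun hc.eq y
        rw [Module.End.mul_apply, Module.End.mul_apply, hy, map_zero] at this
        exact this
      have h3 := hB x y
      rw [ex, map_add, LinearMap.add_apply, h2, add_zero, map_smul, LinearMap.smul_apply, ey,
        map_add, h1, add_zero, map_smul, smul_smul, smul_eq_mul] at h3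
      have h4 : (α * β - Q) * B x y = 0 := by rw [sub_mul, h3, sub_self]
      rcases mul_eq_zero.mp h4 with h5 | h5
      · exact absurd (sub_eq_zero.mp h5) hne
      · exact h5

lemma finrank_weight_le [IsAlgClosed Ω] [FiniteDimensional Ω V] {φ : Module.End Ω V} {q : ℕ}
    (hq : 1 < q) (i : ℕ) (B : V →ₗ[Ω] V →ₗ[Ω] Ω) (hnd : ∀ x, (∀ y, B x y = 0) → x = 0)
    (hB : ∀ x y, B (φ x) (φ y) = (q : Ω) ^ i * B x y)
    (hw : ∀ α, φ.HasEigenvalue α → ∃ w : ℤ, IsWeil q w α) (j : ℤ) :
    Module.finrank Ω (weightSpace φ q (i + j)) ≤ Module.finrank Ω (weightSpace φ q (i - j)) := by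
  set f : weightSpace φ q (i + j) →ₗ[Ω] Module.Dual Ω (weightSpace φ q (i - j)) :=
    (LinearMap.lcomp Ω Ω (weightSpace φ q (i - j)).subtype) ∘ₗ B ∘ₗ
      (weightSpace φ q (i + j)).subtype with hf
  have hfa : ∀ x y, f x y = B (x : V) (y : V) := fun x y => rfl
  have hinj : Function.Injective f := by
    rw [← LinearMap.ker_eq_bot, LinearMap.ker_eq_bot']
    rintro ⟨x, hx⟩ h0
    have hxy : ∀ y ∈ weightSpace φ q (i - j), B x y = 0 := by
      intro y hy
      have := LinearMap.congr_fun h0 ⟨y, hy⟩
      simpa [hfa] using this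
    have hall : ∀ y, B x y = 0 := by
      have htop := Module.End.iSup_maxGenEigenspace_eq_top φ
      have h1 : (⊤ : Submodule Ω V) ≤ LinearMap.ker (B x) := by
        rw [← htop]
        refine iSup_le fun β y hy => ?_
        rw [LinearMap.mem_ker]
        by_cases hev : φ.HasEigenvalue β
        · obtain ⟨w', hw'⟩ := hw β hev
          by_cases hc : w' = i - j
          · subst hc
            exact hxy y (Submodule.mem_iSup_of_mem β (Submodule.mem_iSup_of_mem hw' hy))
          · -- orthogonality
            rw [Module.End.mem_maxGenEigenspace] at hy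
            obtain ⟨l, hl⟩ := hy
            have h2 : weightSpace φ q (i + j) ≤ LinearMap.ker (B.flip y) := by
              refine iSup₂_le fun α hα x' hx' => ?_
              rw [LinearMap.mem_ker, LinearMap.flip_apply]
              rw [Module.End.mem_maxGenEigenspace] at hx'
              obtain ⟨k, hk⟩ := hx'
              refine pairing_ortho B _ hB ?_ k x' hk l y hl
              intro heq
              apply hc
              have hα' : IsWeil q (i + j) α := hα
              have h3 := IsWeil.mul (by omega) hα' hw'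
              have h4 : IsWeil q (i * 2) ((q : Ω) ^ i) := (isWeil_q (Ω := Ω)).pow (by omega) i
              rw [heq] at h3
              have h5 := IsWeil.unique hq h3 h4
              omega
            have h6 : (B.flip y) x = 0 := h2 hx
            simpa using h6
        · have h7 : φ.maxGenEigenspace β = ⊥ := by
            by_contra hne
            apply hev
            obtain ⟨y', hy', hy'0⟩ := (Submodule.ne_bot_iff _).mp hne
            rw [Module.End.mem_maxGenEigenspace] at hy'
            obtain ⟨k, hk⟩ := hy'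
            have h8 : φ.HasGenEigenvalue β k := by
              rw [Module.End.hasGenEigenvalue_iff, Submodule.ne_bot_iff]
              refine ⟨y', ?_, hy'0⟩
              rw [Module.End.mem_genEigenspace_nat, LinearMap.mem_ker]
              exact hk
            exact Module.End.hasEigenvalue_of_hasGenEigenvalue h8
          rw [h7] at hy
          have : y = 0 := by simpa using hy
          rw [this, map_zero]
      intro y
      exact h1 (Submodule.mem_top : y ∈ ⊤)
    have := hnd x hall
    simpa using this
  calc Module.finrank Ω (weightSpace φ q (i + j)) ≤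
      Module.finrank Ω (Module.Dual Ω (weightSpace φ q (i - j))) :=
        LinearMap.finrank_le_finrank_of_injective hinj
    _ = _ := Subspace.dual_finrank_eq

/-- injectivity and duality give the weight-monodromy isomorphisms -/
lemma bijOn_of_injective [IsAlgClosed Ω] [FiniteDimensional Ω V] {N φ : Module.End Ω V} {q : ℕ}
    (hq : 1 < q) (hrel : Rel N φ q) (i : ℕ) (B : V →ₗ[Ω] V →ₗ[Ω] Ω)
    (hnd : ∀ x, (∀ y, B x y = 0) → x = 0)
    (hB : ∀ x y, B (φ x) (φ y) = (q : Ω) ^ i * B x y)
    (hw : ∀ α, φ.HasEigenvalue α → ∃ w : ℤ, IsWeil q w α) (j : ℕ)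
    (hinj : ∀ x ∈ weightSpace φ q (i + j), (N ^ j) x = 0 → x = 0) :
    Set.BijOn (N ^ j) (weightSpace φ q (i + j) : Submodule Ω V)
      (weightSpace φ q (i - j) : Submodule Ω V) := by
  have hmaps : ∀ x ∈ weightSpace φ q ((i : ℤ) + j), (N ^ j) x ∈ weightSpace φ q ((i : ℤ) - j) := by
    intro x hx
    have h1 := hrel.maps_weight (by omega) j _ hx
    have e : (i : ℤ) + j - 2 * j = i - j := by ring
    rw [e] at h1
    exact h1
  set g : weightSpace φ q ((i : ℤ) + j) →ₗ[Ω] weightSpace φ q ((i : ℤ) - j) :=
    (N ^ j).restrict hmaps with hg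
  have hginj : Function.Injective g := by
    rw [← LinearMap.ker_eq_bot, LinearMap.ker_eq_bot']
    rintro ⟨x, hx⟩ h0
    have h1 : (N ^ j) x = 0 := by simpa [hg] using congrArg Subtype.val h0
    have := hinj x hx h1
    simpa using this
  have hd : Module.finrank Ω (weightSpace φ q ((i : ℤ) + j)) =
      Module.finrank Ω (weightSpace φ q ((i : ℤ) - j)) := by
    refine le_antisymm (finrank_weight_le hq i B hnd hB hw j) ?_
    have := finrank_weight_le hq i B hnd hB hw (-j)
    rw [← sub_eq_add_neg, sub_neg_eq_add] at this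
    exact this
  have hgsurj : Function.Surjective g :=
    (LinearMap.injective_iff_surjective_of_finrank_eq_finrank hd).mp hginj
  refine ⟨hmaps, ?_, ?_⟩
  · intro x hx y hy hxy
    have h1 : g ⟨x, hx⟩ = g ⟨y, hy⟩ := by
      apply Subtype.ext
      simpa [hg] using hxy
    exact congrArg Subtype.val (hginj h1)
  · intro y hy
    obtain ⟨⟨x, hx⟩, hxy⟩ := hgsurj ⟨y, hy⟩
    refine ⟨x, hx, ?_⟩
    simpa [hg] using congrArg Subtype.val hxy

end Pairing

end Pool.Agent.H6.TW
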