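import Pool.Agent.H6.TW.Defs
import Pool.Graph.R_seed8.H921R2.TatePole.Dedekind

set_option autoImplicit false
set_option linter.style.haveILetI false
set_option linter.unusedSectionVars false

open NumberField IsDedekindDomain Polynomial Filter Topology
open Pool.Agent.H921R2.TatePole (nm nm_summable ZK ZK_tendsto CK prime_sum_le nm_rpow_le_half
  neg_log_one_sub_le tsum_nm_two_mul_le rpow_sq' two_le_nm nm_ne_zero CK_nonneg)

namespace Pool.Agent.H6.TW

/-! ### products of `1 - u` -/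

section Multi

lemma multi_bounds {x : ℝ} (hx0 : 0 ≤ x) (hx1 : x ≤ 1) (s : Multiset ℂ) :
    (∀ u ∈ s, ‖u‖ ≤ x) →
    ‖(s.map fun u => 1 - u).prod‖ ≤ (1 + x) ^ s.card ∧
    (1 - x) ^ s.card ≤ ‖(s.map fun u => 1 - u).prod‖ ∧
    ‖(s.map fun u => 1 - u).prod - 1‖ ≤ (1 + x) ^ s.card - 1 := by
  induction s using Multiset.induction_on with
  | empty => intro _; simp
  | cons u s ih =>
    intro h
    have hu : ‖u‖ ≤ x := h u (Multiset.mem_cons_self u s)
    obtain ⟨h1, h2, h3⟩ := ih fun v hv => h v (Multiset.mem_cons_of_mem hv)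
    rw [Multiset.map_cons, Multiset.prod_cons, Multiset.card_cons]
    set p := (s.map fun u => 1 - u).prod with hp
    have hu1 : ‖1 - u‖ ≤ 1 + x := by
      calc ‖1 - u‖ ≤ ‖(1 : ℂ)‖ + ‖u‖ := norm_sub_le _ _
        _ ≤ 1 + x := by rw [norm_one]; linarith
    have hu2 : 1 - x ≤ ‖1 - u‖ := by
      have := norm_sub_norm_le (1 : ℂ) u
      rw [norm_one] at this
      linarith
    refine ⟨?_, ?_, ?_⟩
    · rw [norm_mul, pow_succ, mul_comm]
      exact mul_le_mul h1 hu1 (norm_nonneg _) (by positivity)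
    · rw [norm_mul, pow_succ, mul_comm]
      exact mul_le_mul hu2 h2 (pow_nonneg (by linarith) _) (norm_nonneg _)
    · have e : (1 - u) * p - 1 = (p - 1) - u * p := by ring
      rw [e]
      calc ‖(p - 1) - u * p‖ ≤ ‖p - 1‖ + ‖u * p‖ := norm_sub_le _ _
        _ ≤ ((1 + x) ^ s.card - 1) + x * (1 + x) ^ s.card := by
            rw [norm_mul]
            exact add_le_add h3 (mul_le_mul hu h1 (norm_nonneg _) hx0)
        _ = (1 + x) ^ (s.card + 1) - 1 := by ring

lemma pow_sub_one_le {x : ℝ} (hx0 : 0 ≤ x) (hx1 : x ≤ 1) (k : ℕ) :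
    (1 + x) ^ k - 1 ≤ 2 ^ k * x := by
  have : (1 + x) ^ k - 1 ≤ (2 ^ k - 1) * x := by
    induction k with
    | zero => simp
    | succ k ih =>
      have h1 : (1 + x) ^ k ≤ 2 ^ k := pow_le_pow_left₀ (by linarith) (by linarith) k
      have h2 : x * (1 + x) ^ k ≤ x * 2 ^ k := mul_le_mul_of_nonneg_left h1 hx0
      calc (1 + x) ^ (k + 1) - 1 = ((1 + x) ^ k - 1) + x * (1 + x) ^ k := by ring
        _ ≤ (2 ^ k - 1) * x + x * 2 ^ k := add_le_add ih h2
        _ = (2 ^ (k + 1) - 1) * x := by ring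
  nlinarith

/-- a rational polynomial with constant term `1` and complex roots of absolute value `1 / R` -/
lemma poly_bounds (P : ℚ[X]) (b : ℕ) (hb : P.natDegree ≤ b) (h0 : P.coeff 0 = 1) {R : ℝ}
    (hR : 0 < R) (hroots : ∀ z : ℂ, aeval z P = 0 → ‖z‖ * R = 1) (T : ℂ) {x : ℝ}
    (hT : ‖T‖ * R = x) (hx1 : x ≤ 1) :
    ‖aeval T P‖ ≤ (1 + x) ^ b ∧ (1 - x) ^ b ≤ ‖aeval T P‖ ∧ ‖aeval T P - 1‖ ≤ 2 ^ b * x := by
  have hx0 : 0 ≤ x := by rw [← hT]; positivity
  set p : ℂ[X] := P.map (algebraMap ℚ ℂ) with hp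
  have hP0 : P ≠ 0 := by rintro rfl; simp at h0
  have hp0 : p ≠ 0 := by
    rw [hp, Ne, Polynomial.map_eq_zero]
    exact hP0
  have hspl : p = C p.leadingCoeff * (p.roots.map (X - C ·)).prod :=
    (IsAlgClosed.splits p).eq_prod_roots
  have heval : ∀ t : ℂ, aeval t P = p.leadingCoeff * (p.roots.map fun z => t - z).prod := by
    intro t
    have h1 : aeval t P = eval t p := by rw [hp, eval_map_algebraMap]
    rw [h1]
    conv_lhs => rw [hspl]
    rw [eval_mul, eval_C, eval_multiset_prod, Multiset.map_map]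
    congr 2
    refine Multiset.map_congr rfl fun z _ => ?_
    simp
  have hz : ∀ z ∈ p.roots, z ≠ 0 ∧ ‖z‖ * R = 1 := by
    intro z hz
    have h1 : aeval z P = 0 := by
      have := (mem_roots hp0).mp hz
      rw [IsRoot.def, hp, eval_map_algebraMap] at this
      exact this
    have h2 := hroots z h1
    refine ⟨?_, h2⟩
    rintro rfl
    simp at h2
  have h1 : p.leadingCoeff * (p.roots.map fun z => -z).prod = 1 := by
    have h2 := heval 0
    have h3 : aeval (0 : ℂ) P = 1 := by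
      rw [← coeff_zero_eq_aeval_zero', h0]; simp
    rw [h3] at h2
    rw [h2]
    congr 2
    refine Multiset.map_congr rfl fun z _ => ?_
    ring
  have hmain : aeval T P = ((p.roots.map fun z => T / z).map fun u => 1 - u).prod := by
    rw [heval T, Multiset.map_map]
    have h2 : (p.roots.map fun z => T - z) = p.roots.map fun z => (-z) * (1 - T / z) := by
      refine Multiset.map_congr rfl fun z hzr => ?_
      have := (hz z hzr).1
      field_simp
      ring
    rw [h2, Multiset.prod_map_mul, ← mul_assoc, h1, one_mul]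
    rfl
  have hcard : (p.roots.map fun z => T / z).card ≤ b := by
    rw [Multiset.card_map]
    calc p.roots.card ≤ p.natDegree := card_roots' p
      _ ≤ P.natDegree := natDegree_map_le
      _ ≤ b := hb
  have hu : ∀ u ∈ (p.roots.map fun z => T / z), ‖u‖ ≤ x := by
    intro u hu
    obtain ⟨z, hzr, rfl⟩ := Multiset.mem_map.mp hu
    have h2 := (hz z hzr).2
    have h3 : ‖z‖ ≠ 0 := by
      intro h; rw [h, zero_mul] at h2; exact zero_ne_one h2
    rw [norm_div, ← hT]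
    have h4 : ‖T‖ / ‖z‖ = ‖T‖ * R := by
      rw [div_eq_iff h3, mul_assoc, mul_comm R, h2, mul_one]
    rw [h4]
  obtain ⟨g1, g2, g3⟩ := multi_bounds hx0 hx1 _ hu
  rw [← hmain] at g1 g2 g3
  refine ⟨g1.trans (pow_le_pow_right₀ (by linarith) hcard), ?_, ?_⟩
  · exact (pow_le_pow_of_le_one (by linarith) (by linarith) hcard).trans g2
  · refine g3.trans ?_
    have h5 : (1 + x) ^ (p.roots.map fun z => T / z).card ≤ (1 + x) ^ b :=
      pow_le_pow_right₀ (by linarith) hcard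
    exact (sub_le_sub_right h5 1).trans (pow_sub_one_le hx0 hx1 b)

end Multi

/-! ### the Euler product outside a finite set -/

section Away

variable {F : IntermediateField ℚ Qb} [NumberField F]

lemma two_le_nrm (w : HeightOneSpectrum (𝓞 F)) : (2 : ℝ) ≤ (nrm w : ℝ) := by
  have := two_le_nm w
  unfold nm at this
  exact_mod_cast this

lemma good_bounds {b m : ℕ} {w : HeightOneSpectrum (𝓞 F)} {P : ℚ[X]}
    (h : PurePoly b (2 * m) w P) {ε : ℝ} (hε : 0 < ε) :
    let v : ℂ := locVal w P (((m : ℝ) + 1 + ε : ℝ) : ℂ)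
    let x : ℝ := (nm w : ℝ) ^ (-(1 + ε))
    ‖v‖ ≤ (1 + x) ^ b ∧ (1 - x) ^ b ≤ ‖v‖ ∧ ‖v - 1‖ ≤ 2 ^ b * x := by
  intro v x
  set T : ℂ := (nrm w : ℂ) ^ (-(((m : ℝ) + 1 + ε : ℝ) : ℂ)) with hT
  have hN : (2 : ℝ) ≤ (nrm w : ℝ) := two_le_nrm w
  have hNpos : (0 : ℝ) < (nrm w : ℝ) := by linarith
  refine poly_bounds P b h.1 h.2.1 (R := (nrm w : ℝ) ^ m) (by positivity) ?_ T
    ?_ ?_
  · intro z hz
    have h1 := h.2.2 z hz
    have h2 : (‖z‖ * (nrm w : ℝ) ^ m) ^ 2 = 1 := by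
      rw [mul_pow, ← pow_mul, mul_comm m 2]
      exact h1
    have h3 : 0 ≤ ‖z‖ * (nrm w : ℝ) ^ m := by positivity
    nlinarith [sq_nonneg (‖z‖ * (nrm w : ℝ) ^ m - 1)]
  · have h1 : ‖T‖ = (nrm w : ℝ) ^ (-((m : ℝ) + 1 + ε)) := by
      have hpos : 0 < nrm w := by exact_mod_cast hNpos
      change ‖(nrm w : ℂ) ^ (-(((m : ℝ) + 1 + ε : ℝ) : ℂ))‖ = _
      rw [Complex.norm_natCast_cpow_of_pos hpos]
      simp
    rw [h1, ← Real.rpow_natCast, ← Real.rpow_add hNpos]
    change _ = (nrm w : ℝ) ^ (-(1 + ε))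
    congr 1
    ring
  · have := nm_rpow_le_half w (x := 1 + ε) (by linarith)
    change (nm w : ℝ) ^ (-(1 + ε)) ≤ 1
    linarith

/-- The Euler product outside `S`. -/
lemma away_bounds (S : Finset (HeightOneSpectrum (𝓞 F))) (b m : ℕ)
    (P : HeightOneSpectrum (𝓞 F) → ℚ[X]) (hP : ∀ w, w ∉ S → PurePoly b (2 * m) w (P w))
    {ε : ℝ} (hε : 0 < ε) :
    (HasProd (fun w : {w : HeightOneSpectrum (𝓞 F) // w ∉ S} =>
      (locVal w.1 (P w.1) (((m : ℝ) + 1 + ε : ℝ) : ℂ))⁻¹)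
      (LFunAway S P (((m : ℝ) + 1 + ε : ℝ) : ℂ))) ∧
    Real.exp (-(b * ∑' w : HeightOneSpectrum (𝓞 F), (nm w : ℝ) ^ (-(1 + ε)))) ≤
      ‖LFunAway S P (((m : ℝ) + 1 + ε : ℝ) : ℂ)‖ ∧
    ‖LFunAway S P (((m : ℝ) + 1 + ε : ℝ) : ℂ)‖ ≤
      Real.exp (b * (∑' w : HeightOneSpectrum (𝓞 F), (nm w : ℝ) ^ (-(1 + ε)) + CK F)) := by
  set x : HeightOneSpectrum (𝓞 F) → ℝ := fun w => (nm w : ℝ) ^ (-(1 + ε)) with hx
  have hxs : Summable x := nm_summable (by linarith)
  have hxs2 : Summable fun w => x w ^ 2 := by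
    have := nm_summable (K := F) (x := 2 * (1 + ε)) (by linarith)
    refine this.congr fun w => ?_
    rw [hx, ← rpow_sq']
  have hx0 : ∀ w, 0 ≤ x w := fun w => by rw [hx]; positivity
  have hx1 : ∀ w, x w ≤ 1 / 2 := fun w => nm_rpow_le_half w (by linarith)
  set f : {w : HeightOneSpectrum (𝓞 F) // w ∉ S} → ℂ := fun w =>
    locVal w.1 (P w.1) (((m : ℝ) + 1 + ε : ℝ) : ℂ) with hf
  have hfb : ∀ w, ‖f w‖ ≤ (1 + x w.1) ^ b ∧ (1 - x w.1) ^ b ≤ ‖f w‖ ∧
      ‖f w - 1‖ ≤ 2 ^ b * x w.1 := fun w => good_bounds (hP w.1 w.2) hε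
  have hsumm : Summable fun w => ‖f w - 1‖ :=
    Summable.of_nonneg_of_le (fun _ => norm_nonneg _) (fun w => (hfb w).2.2)
      ((hxs.comp_injective Subtype.val_injective).mul_left _)
  have hmul : Multipliable f := by
    have h1 := multipliable_one_add_of_summable (f := fun w => f w - 1) hsumm
    refine h1.congr fun w => ?_
    ring
  set a := ∏' w, f w with ha
  have hprod : HasProd f a := hmul.hasProd
  have hnorm : HasProd (fun w => ‖f w‖) ‖a‖ := hprod.norm
  have hupper : ‖a‖ ≤ Real.exp (b * ∑' w, x w) := by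
    refine le_of_tendsto hnorm (Eventually.of_forall fun s => ?_)
    calc ∏ w ∈ s, ‖f w‖ ≤ ∏ w ∈ s, Real.exp (b * x w.1) := by
          refine Finset.prod_le_prod (fun _ _ => norm_nonneg _) fun w _ => ?_
          refine (hfb w).1.trans ?_
          rw [Real.exp_nat_mul]
          refine pow_le_pow_left₀ (by have := hx0 w.1; linarith) ?_ b
          rw [add_comm]
          exact Real.add_one_le_exp _
      _ = Real.exp (∑ w ∈ s, b * x w.1) := by rw [Real.exp_sum]
      _ ≤ Real.exp (b * ∑' w, x w) := by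
          rw [Real.exp_le_exp, ← Finset.mul_sum]
          refine mul_le_mul_of_nonneg_left ?_ (Nat.cast_nonneg b)
          calc ∑ w ∈ s, x w.1 ≤ ∑' w : {w : HeightOneSpectrum (𝓞 F) // w ∉ S}, x w.1 :=
                (hxs.comp_injective Subtype.val_injective).sum_le_tsum s fun w _ => hx0 w.1
            _ ≤ ∑' w, x w := hxs.tsum_subtype_le x {w | w ∉ S} hx0
  have hlower : Real.exp (-(b * (∑' w, x w + CK F))) ≤ ‖a‖ := by
    refine ge_of_tendsto hnorm (Eventually.of_forall fun s => ?_)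
    have hone : ∀ w : {w : HeightOneSpectrum (𝓞 F) // w ∉ S},
        Real.exp (-(b * (x w.1 + x w.1 ^ 2))) ≤ ‖f w‖ := by
      intro w
      refine le_trans ?_ (hfb w).2.1
      have h1 := neg_log_one_sub_le (hx0 w.1) (hx1 w.1)
      have h2 : 0 < 1 - x w.1 := by have := hx1 w.1; linarith
      have h3 : Real.exp (-(x w.1 + x w.1 ^ 2)) ≤ 1 - x w.1 := by
        rw [← Real.le_log_iff_exp_le h2]
        linarith
      have h4 : Real.exp (-(b * (x w.1 + x w.1 ^ 2))) = Real.exp (-(x w.1 + x w.1 ^ 2)) ^ b := by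
        rw [← Real.exp_nat_mul]; congr 1; ring
      rw [h4]
      exact pow_le_pow_left₀ (Real.exp_pos _).le h3 b
    calc Real.exp (-(b * (∑' w, x w + CK F))) ≤
          Real.exp (∑ w ∈ s, -(b * (x w.1 + x w.1 ^ 2))) := by
          rw [Real.exp_le_exp, Finset.sum_neg_distrib, neg_le_neg_iff, ← Finset.mul_sum]
          refine mul_le_mul_of_nonneg_left ?_ (Nat.cast_nonneg b)
          rw [Finset.sum_add_distrib]
          have h5 : ∑ w ∈ s, x w.1 ≤ ∑' w, x w :=
            ((hxs.comp_injective Subtype.val_injective).sum_le_tsum s fun w _ => hx0 w.1).trans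
              (hxs.tsum_subtype_le x {w | w ∉ S} hx0)
          have h6 : ∑ w ∈ s, x w.1 ^ 2 ≤ ∑' w, x w ^ 2 :=
            ((hxs2.comp_injective Subtype.val_injective).sum_le_tsum s
              fun w _ => sq_nonneg (x w.1)).trans
              (hxs2.tsum_subtype_le (fun w => x w ^ 2) {w | w ∉ S} fun w => sq_nonneg (x w))
          have h7 : ∑' w, x w ^ 2 ≤ CK F := by
            have h8 := tsum_nm_two_mul_le (K := F) (x := 1 + ε) (by linarith)
            refine le_trans (le_of_eq ?_) h8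
            exact tsum_congr fun w => rpow_sq' w _
          linarith
      _ = ∏ w ∈ s, Real.exp (-(b * (x w.1 + x w.1 ^ 2))) := by rw [Real.exp_sum]
      _ ≤ ∏ w ∈ s, ‖f w‖ := Finset.prod_le_prod (fun _ _ => (Real.exp_pos _).le) fun w _ => hone w
  have ha0 : a ≠ 0 := by
    intro h0
    rw [h0, norm_zero] at hlower
    exact absurd hlower (not_le.mpr (Real.exp_pos _))
  have hinv : HasProd (fun w => (f w)⁻¹) a⁻¹ := hprod.inv₀ ha0
  have hL : LFunAway S P (((m : ℝ) + 1 + ε : ℝ) : ℂ) = a⁻¹ := hinv.tprod_eq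
  have hapos : 0 < ‖a‖ := norm_pos_iff.mpr ha0
  refine ⟨?_, ?_, ?_⟩
  · rw [hL]; exact hinv
  · rw [hL, norm_inv, Real.exp_neg]
    exact inv_anti₀ hapos hupper
  · rw [hL, norm_inv]
    have : Real.exp (b * (∑' w, x w + CK F)) = (Real.exp (-(b * (∑' w, x w + CK F))))⁻¹ := by
      rw [Real.exp_neg, inv_inv]
    rw [this]
    exact inv_anti₀ (Real.exp_pos _) hlower

/-- splitting off the factors in `S` -/
lemma LFun_eq (S : Finset (HeightOneSpectrum (𝓞 F))) (b m : ℕ)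
    (P : HeightOneSpectrum (𝓞 F) → ℚ[X]) (hP : ∀ w, w ∉ S → PurePoly b (2 * m) w (P w))
    {ε : ℝ} (hε : 0 < ε) :
    LFun P (((m : ℝ) + 1 + ε : ℝ) : ℂ) =
      (∏ w ∈ S, (locVal w (P w) (((m : ℝ) + 1 + ε : ℝ) : ℂ))⁻¹) *
        LFunAway S P (((m : ℝ) + 1 + ε : ℝ) : ℂ) := by
  have h1 := (away_bounds S b m P hP hε).1
  set f : HeightOneSpectrum (𝓞 F) → ℂ := fun w =>
    (locVal w (P w) (((m : ℝ) + 1 + ε : ℝ) : ℂ))⁻¹ with hf
  have h2 : HasProd (f ∘ (↑) : (↑S : Set (HeightOneSpectrum (𝓞 F))) → ℂ) (∏ w ∈ S, f w) :=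
    S.hasProd f
  have h3 : HasProd (f ∘ (↑) : ((↑S : Set (HeightOneSpectrum (𝓞 F)))ᶜ : Set _) → ℂ)
      (LFunAway S P (((m : ℝ) + 1 + ε : ℝ) : ℂ)) := h1
  exact (h2.mul_compl h3).tprod_eq

/-- the sum over the places near `1` -/
lemma exp_sum_le (F : IntermediateField ℚ Qb) [NumberField F] : ∃ C : ℝ, 0 < C ∧
    ∀ᶠ ε : ℝ in 𝓝[>] 0,
      Real.exp (∑' w : HeightOneSpectrum (𝓞 F), (nm w : ℝ) ^ (-(1 + ε))) ≤ C / ε := by
  have h1 := ZK_tendsto (K := F)
  have hres := dedekindZeta_residue_pos F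
  set r := dedekindZeta_residue F with hr
  have h2 : ∀ᶠ x : ℝ in 𝓝[>] 1, (x - 1) * ZK F x < 2 * r :=
    h1.eventually (gt_mem_nhds (by linarith))
  have h3 : ∀ᶠ x : ℝ in 𝓝[>] 1, 0 < (x - 1) * ZK F x := h1.eventually (lt_mem_nhds hres)
  have h4 : Tendsto (fun ε : ℝ => 1 + ε) (𝓝[>] 0) (𝓝[>] 1) := by
    rw [tendsto_nhdsWithin_iff]
    constructor
    · have : Tendsto (fun ε : ℝ => 1 + ε) (𝓝 0) (𝓝 (1 + 0)) := tendsto_const_nhds.add tendsto_id
      rw [add_zero] at this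
      exact this.mono_left nhdsWithin_le_nhds
    · filter_upwards [self_mem_nhdsWithin] with ε hε
      have : (0 : ℝ) < ε := hε
      simpa using this
  refine ⟨2 * r * Real.exp (CK F), by positivity, ?_⟩
  filter_upwards [h4.eventually h2, h4.eventually h3, self_mem_nhdsWithin] with ε h5 h6 hε
  have hε' : (0 : ℝ) < ε := hε
  have e : 1 + ε - 1 = ε := by ring
  rw [e] at h5 h6
  have hZ : 0 < ZK F (1 + ε) := (mul_pos_iff_of_pos_left hε').mp h6
  have h7 := prime_sum_le (K := F) (x := 1 + ε) (by linarith)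
  calc Real.exp (∑' w : HeightOneSpectrum (𝓞 F), (nm w : ℝ) ^ (-(1 + ε))) ≤
        Real.exp (Real.log (ZK F (1 + ε)) + CK F) := Real.exp_le_exp.mpr h7
    _ = ZK F (1 + ε) * Real.exp (CK F) := by rw [Real.exp_add, Real.exp_log hZ]
    _ ≤ (2 * r / ε) * Real.exp (CK F) := by
        refine mul_le_mul_of_nonneg_right ?_ (Real.exp_pos _).le
        rw [le_div_iff₀ hε']
        linarith
    _ = 2 * r * Real.exp (CK F) / ε := by ring

end Away

end Pool.Agent.H6.TW
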