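import Pool.Agent.H6.TW.Anal

set_option autoImplicit false
set_option linter.style.haveILetI false
set_option linter.unusedSectionVars false

open NumberField IsDedekindDomain Polynomial Filter Topology
open Pool.Agent.H921R2.TatePole (nm nm_summable ZK ZK_tendsto CK prime_sum_le nm_rpow_le_half
  neg_log_one_sub_le tsum_nm_two_mul_le rpow_sq' two_le_nm nm_ne_zero CK_nonneg)

namespace Pool.Agent.H6.TW

/-! ### one factor -/

section One

variable (N : ℕ) (P : ℚ[X])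

/-- the value of `P` at `N ^ (-s)` -/
noncomputable def val (s : ℝ) : ℂ := aeval ((N : ℂ) ^ (-(s : ℂ))) P

lemma val_differentiable (hN : 2 ≤ N) (s : ℝ) : DifferentiableAt ℝ (val N P) s := by
  have hN0 : (N : ℂ) ≠ 0 := by
    have : N ≠ 0 := by omega
    exact_mod_cast this
  have h1 : DifferentiableAt ℝ (fun s : ℝ => (N : ℂ) ^ (-(s : ℂ))) s := by
    have h2 : DifferentiableAt ℂ (fun z : ℂ => (N : ℂ) ^ (-z)) (s : ℂ) :=
      (differentiableAt_id.neg).const_cpow (Or.inl hN0)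
    exact h2.hasDerivAt.comp_ofReal.differentiableAt
  have h3 : DifferentiableAt ℂ (fun z : ℂ => aeval z P) ((N : ℂ) ^ (-(s : ℂ))) :=
    (Polynomial.differentiable_aeval P).differentiableAt
  exact (h3.restrictScalars ℝ).comp s h1

lemma val_finite (hN : 2 ≤ N) (hP : P ≠ 0) : {s : ℝ | val N P s = 0}.Finite := by
  have h1 : (P.rootSet ℂ).Finite := rootSet_finite P ℂ
  refine Set.Finite.preimage (f := fun s : ℝ => (N : ℂ) ^ (-(s : ℂ))) ?_ h1 |>.subset ?_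
  · intro s _ t _ hst
    have h2 := congrArg norm hst
    have hpos : 0 < N := by omega
    simp only at h2
    rw [Complex.norm_natCast_cpow_of_pos hpos, Complex.norm_natCast_cpow_of_pos hpos] at h2
    simp only [Complex.neg_re, Complex.ofReal_re] at h2
    have h3 : (1 : ℝ) < N := by exact_mod_cast (by omega : 1 < N)
    have h4 := (Real.rpow_right_inj (by linarith) (by linarith)).mp h2
    linarith
  · intro s hs
    rw [Set.mem_preimage, mem_rootSet]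
    exact ⟨hP, hs⟩

lemma val_eventually_ne (hN : 2 ≤ N) (hP : P ≠ 0) (a : ℝ) :
    ∀ᶠ ε : ℝ in 𝓝[>] 0, val N P (a + ε) ≠ 0 := by
  have h1 : ({s : ℝ | val N P s = 0} \ {a}).Finite :=
    (val_finite N P hN hP).subset Set.sdiff_subset
  have h2 : ({s : ℝ | val N P s = 0} \ {a})ᶜ ∈ 𝓝 a :=
    h1.isClosed.isOpen_compl.mem_nhds (by simp)
  have h3 : Tendsto (fun ε : ℝ => a + ε) (𝓝[>] 0) (𝓝 a) := by
    have : Tendsto (fun ε : ℝ => a + ε) (𝓝 0) (𝓝 (a + 0)) := tendsto_const_nhds.add tendsto_id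
    rw [add_zero] at this
    exact this.mono_left nhdsWithin_le_nhds
  filter_upwards [h3 h2, self_mem_nhdsWithin] with ε h4 h5
  have h5' : (0 : ℝ) < ε := h5
  intro h0
  apply h4
  refine ⟨h0, ?_⟩
  simp only [Set.mem_singleton_iff, add_eq_left]
  exact h5'.ne'

/-- lower bound for the factor -/
lemma factor_lower (hN : 2 ≤ N) (hP : P ≠ 0) (a : ℝ) :
    ∃ c : ℝ, 0 < c ∧ ∀ᶠ ε : ℝ in 𝓝[>] 0,
      c * (if val N P a = 0 then ε⁻¹ else 1) ≤ ‖(val N P (a + ε))⁻¹‖ := by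
  have h3 : Tendsto (fun ε : ℝ => a + ε) (𝓝[>] 0) (𝓝 a) := by
    have : Tendsto (fun ε : ℝ => a + ε) (𝓝 0) (𝓝 (a + 0)) := tendsto_const_nhds.add tendsto_id
    rw [add_zero] at this
    exact this.mono_left nhdsWithin_le_nhds
  split_ifs with h0
  · have h1 := (val_differentiable N P hN a).hasDerivAt.isBigO_sub
    rw [h0] at h1
    obtain ⟨C, hC, h2⟩ := h1.exists_pos
    have h4 := h3.eventually h2.bound
    refine ⟨C⁻¹, inv_pos.mpr hC, ?_⟩
    filter_upwards [h4, val_eventually_ne N P hN hP a, self_mem_nhdsWithin] with ε h5 h6 h7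
    have h7' : (0 : ℝ) < ε := h7
    rw [sub_zero, add_sub_cancel_left, Real.norm_eq_abs, abs_of_pos h7'] at h5
    rw [norm_inv, ← mul_inv]
    exact inv_anti₀ (norm_pos_iff.mpr h6) h5
  · have h1 : Tendsto (fun ε : ℝ => val N P (a + ε)) (𝓝[>] 0) (𝓝 (val N P a)) :=
      (val_differentiable N P hN a).continuousAt.tendsto.comp h3
    have h2 := (h1.inv₀ h0).norm
    have hpos : 0 < ‖(val N P a)⁻¹‖ := norm_pos_iff.mpr (inv_ne_zero h0)
    refine ⟨‖(val N P a)⁻¹‖ / 2, by positivity, ?_⟩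
    filter_upwards [h2.eventually (lt_mem_nhds (half_lt_self hpos))] with ε h4
    rw [mul_one]
    exact h4.le

end One

section Main

variable {F : IntermediateField ℚ Qb} [NumberField F]

lemma nrm_two_le (w : HeightOneSpectrum (𝓞 F)) : 2 ≤ nrm w := by
  have := two_le_nrm w
  exact_mod_cast this

/-- product of the lower bounds -/
lemma prod_lower (S : Finset (HeightOneSpectrum (𝓞 F))) (P : HeightOneSpectrum (𝓞 F) → ℚ[X])
    (hP : ∀ w ∈ S, P w ≠ 0) (a : ℝ) (T : Finset (HeightOneSpectrum (𝓞 F))) (hTS : T ⊆ S)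
    (hT : ∀ w ∈ T, val (nrm w) (P w) a = 0) :
    ∃ c : ℝ, 0 < c ∧ ∀ᶠ ε : ℝ in 𝓝[>] 0,
      c * (ε⁻¹) ^ T.card ≤ ‖∏ w ∈ S, (val (nrm w) (P w) (a + ε))⁻¹‖ := by
  classical
  have h1 : ∀ w : S, ∃ c : ℝ, 0 < c ∧ ∀ᶠ ε : ℝ in 𝓝[>] 0,
      c * (if val (nrm w.1) (P w.1) a = 0 then ε⁻¹ else 1) ≤
        ‖(val (nrm w.1) (P w.1) (a + ε))⁻¹‖ := fun w =>
    factor_lower _ _ (nrm_two_le w.1) (hP w.1 w.2) a
  choose c hc hc2 using h1
  refine ⟨∏ w : S, c w, Finset.prod_pos fun w _ => hc w, ?_⟩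
  have h2 := eventually_all.mpr hc2
  filter_upwards [h2, self_mem_nhdsWithin,
    (gt_mem_nhds (show (0 : ℝ) < 1 by norm_num)).filter_mono nhdsWithin_le_nhds] with ε h3 h4 h5
  have h4' : (0 : ℝ) < ε := h4
  have h6 : (1 : ℝ) ≤ ε⁻¹ := (one_le_inv₀ h4').mpr h5.le
  rw [norm_prod, ← Finset.prod_coe_sort S]
  calc (∏ w : S, c w) * (ε⁻¹) ^ T.card ≤
        (∏ w : S, c w) * ∏ w : S, (if val (nrm w.1) (P w.1) a = 0 then ε⁻¹
          else 1) := by
        refine mul_le_mul_of_nonneg_left ?_ (Finset.prod_nonneg fun w _ => (hc w).le)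
        rw [Finset.prod_coe_sort S (fun w => if val (nrm w) (P w) a = 0 then ε⁻¹
          else (1 : ℝ)), Finset.prod_ite, Finset.prod_const, Finset.prod_const_one, mul_one]
        refine pow_le_pow_right₀ h6 (Finset.card_le_card fun w hw => ?_)
        rw [Finset.mem_filter]
        exact ⟨hTS hw, hT w hw⟩
    _ = ∏ w : S, (c w * if val (nrm w.1) (P w.1) a = 0 then ε⁻¹ else 1) := by
        rw [Finset.prod_mul_distrib]
    _ ≤ ∏ w : S, ‖(val (nrm w.1) (P w.1) (a + ε))⁻¹‖ :=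
        Finset.prod_le_prod (fun w _ => mul_nonneg (hc w).le (by split_ifs <;> positivity))
          fun w _ => h3 w

lemma tendsto_shift (a : ℝ) : Tendsto (fun ε : ℝ => a + ε) (𝓝[>] 0) (𝓝[>] a) := by
  rw [tendsto_nhdsWithin_iff]
  constructor
  · have : Tendsto (fun ε : ℝ => a + ε) (𝓝 0) (𝓝 (a + 0)) := tendsto_const_nhds.add tendsto_id
    rw [add_zero] at this
    exact this.mono_left nhdsWithin_le_nhds
  · filter_upwards [self_mem_nhdsWithin] with ε hε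
    have : (0 : ℝ) < ε := hε
    simpa using this

lemma tendsto_unshift (a : ℝ) : Tendsto (fun s : ℝ => s - a) (𝓝[>] a) (𝓝[>] 0) := by
  rw [tendsto_nhdsWithin_iff]
  constructor
  · have : Tendsto (fun s : ℝ => s - a) (𝓝 a) (𝓝 (a - a)) := tendsto_id.sub tendsto_const_nhds
    rw [sub_self] at this
    exact this.mono_left nhdsWithin_le_nhds
  · filter_upwards [self_mem_nhdsWithin] with s hs
    have : a < s := hs
    simpa using this

/-- **Counting the factors with a pole at the edge.** -/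
lemma card_zero_le (S : Finset (HeightOneSpectrum (𝓞 F))) (b m : ℕ)
    (P : HeightOneSpectrum (𝓞 F) → ℚ[X]) (hP : ∀ w, w ∉ S → PurePoly b (2 * m) w (P w))
    (hP0 : ∀ w ∈ S, P w ≠ 0) (T : Finset (HeightOneSpectrum (𝓞 F))) (hTS : T ⊆ S)
    (hT : ∀ w ∈ T, val (nrm w) (P w) ((m : ℝ) + 1) = 0) (A : ℝ)
    (hA : PoleAtMost (LFun P) (m + 1) A) : (T.card : ℝ) ≤ b + A := by
  by_contra hcon
  push Not at hcon
  obtain ⟨K, hK⟩ := hA
  set r : ℝ := T.card - (b + A) with hr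
  have hrpos : 0 < r := by rw [hr]; linarith
  obtain ⟨c, hc, h1⟩ := prod_lower S P hP0 ((m : ℝ) + 1) T hTS hT
  obtain ⟨C, hC, h2⟩ := exp_sum_le F
  have h3 := (tendsto_shift ((m : ℝ) + 1)).eventually hK
  have h4 : ∀ᶠ ε : ℝ in 𝓝[>] 0, c * (C⁻¹) ^ b ≤ K * ε ^ r := by
    filter_upwards [h1, h2, h3, self_mem_nhdsWithin] with ε h5 h6 h7 h8
    have hε : (0 : ℝ) < ε := h8
    have e1 := LFun_eq S b m P hP hε
    have h10 := (away_bounds S b m P hP hε).2.1
    have h11 : (C⁻¹ * ε) ^ b ≤ ‖LFunAway S P (((m : ℝ) + 1 + ε : ℝ) : ℂ)‖ := by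
      refine le_trans ?_ h10
      rw [show -((b : ℝ) * ∑' w : HeightOneSpectrum (𝓞 F), (nm w : ℝ) ^ (-(1 + ε))) =
        b * (-∑' w : HeightOneSpectrum (𝓞 F), (nm w : ℝ) ^ (-(1 + ε))) by ring, Real.exp_nat_mul,
        Real.exp_neg]
      refine pow_le_pow_left₀ (by positivity) ?_ b
      have h12 : (C⁻¹ * ε) = (C / ε)⁻¹ := by field_simp
      rw [h12]
      exact inv_anti₀ (Real.exp_pos _) h6
    have e2 : ‖LFun P (((m : ℝ) + 1 + ε : ℝ) : ℂ)‖ =
        ‖∏ w ∈ S, (val (nrm w) (P w) ((m : ℝ) + 1 + ε))⁻¹‖ *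
          ‖LFunAway S P (((m : ℝ) + 1 + ε : ℝ) : ℂ)‖ := by
      rw [e1, norm_mul]
      rfl
    rw [e2, add_sub_cancel_left] at h7
    have h13 : c * (ε⁻¹) ^ T.card * (C⁻¹ * ε) ^ b * ε ^ A ≤ K := by
      refine le_trans ?_ h7
      refine mul_le_mul_of_nonneg_right ?_ (by positivity)
      exact mul_le_mul h5 h11 (by positivity) (norm_nonneg _)
    have h14 : (ε⁻¹) ^ T.card * ε ^ b * ε ^ A * ε ^ r = 1 := by
      rw [← Real.rpow_natCast, ← Real.rpow_natCast, Real.inv_rpow hε.le, ← Real.rpow_neg hε.le,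
        ← Real.rpow_add hε, ← Real.rpow_add hε, ← Real.rpow_add hε, hr]
      have : -(T.card : ℝ) + b + A + (T.card - (b + A)) = 0 := by ring
      rw [this, Real.rpow_zero]
    have h15 : 0 < ε ^ r := Real.rpow_pos_of_pos hε r
    calc c * (C⁻¹) ^ b = c * (C⁻¹) ^ b * ((ε⁻¹) ^ T.card * ε ^ b * ε ^ A * ε ^ r) := by
          rw [h14, mul_one]
      _ = c * (ε⁻¹) ^ T.card * (C⁻¹ * ε) ^ b * ε ^ A * ε ^ r := by rw [mul_pow]; ring
      _ ≤ K * ε ^ r := mul_le_mul_of_nonneg_right h13 h15.le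
  have h5 : Tendsto (fun ε : ℝ => K * ε ^ r) (𝓝[>] 0) (𝓝 0) := by
    have h6 : Tendsto (fun ε : ℝ => ε ^ r) (𝓝 0) (𝓝 (0 ^ r)) :=
      (Real.continuousAt_rpow_const 0 r (Or.inr hrpos.le)).tendsto
    rw [Real.zero_rpow hrpos.ne'] at h6
    have := (tendsto_const_nhds (x := K)).mul (h6.mono_left (nhdsWithin_le_nhds (s := Set.Ioi 0)))
    rw [mul_zero] at this
    exact this
  have h6 := ge_of_tendsto h5 h4
  have h7 : 0 < c * (C⁻¹) ^ b := by positivity
  linarith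

/-- the product of the factors in `S` near the edge -/
lemma prod_tendsto (S : Finset (HeightOneSpectrum (𝓞 F))) (P : HeightOneSpectrum (𝓞 F) → ℚ[X])
    (a : ℝ) (h0 : ∀ w ∈ S, val (nrm w) (P w) a ≠ 0) :
    ∃ l : ℂ, l ≠ 0 ∧ Tendsto
      (fun s : ℝ => ∏ w ∈ S, (val (nrm w) (P w) s)⁻¹) (𝓝[>] a) (𝓝 l) := by
  refine ⟨∏ w ∈ S, (val (nrm w) (P w) a)⁻¹,
    Finset.prod_ne_zero_iff.mpr fun w hw => inv_ne_zero (h0 w hw), ?_⟩
  refine tendsto_finsetProd _ fun w hw => ?_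
  exact (((val_differentiable _ (P w) (nrm_two_le w) a).continuousAt.tendsto).mono_left
    nhdsWithin_le_nhds).inv₀ (h0 w hw)

/-- if no factor in `S` has a pole at the edge, the orders agree -/
lemma hasOrder_iff (S : Finset (HeightOneSpectrum (𝓞 F))) (b m : ℕ)
    (P : HeightOneSpectrum (𝓞 F) → ℚ[X]) (hP : ∀ w, w ∉ S → PurePoly b (2 * m) w (P w))
    (h0 : ∀ w ∈ S, val (nrm w) (P w) ((m : ℝ) + 1) ≠ 0) (k : ℤ) :
    HasOrder (LFun P) (m + 1) k ↔ HasOrder (LFunAway S P) (m + 1) k := by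
  obtain ⟨l, hl, h1⟩ := prod_tendsto S P ((m : ℝ) + 1) h0
  have hne : ∀ᶠ s : ℝ in 𝓝[>] ((m : ℝ) + 1),
      ∏ w ∈ S, (val (nrm w) (P w) s)⁻¹ ≠ 0 := h1.eventually_ne hl
  have heq : ∀ s : ℝ, (m : ℝ) + 1 < s → LFun P s =
      (∏ w ∈ S, (val (nrm w) (P w) s)⁻¹) * LFunAway S P s := by
    intro s hs
    have h2 := LFun_eq S b m P hP (ε := s - ((m : ℝ) + 1)) (by linarith)
    rw [add_sub_cancel] at h2
    exact h2
  constructor
  · rintro ⟨l', hl', h2⟩
    refine ⟨l' / l, div_ne_zero hl' hl, ?_⟩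
    refine (h2.div h1 hl).congr' ?_
    filter_upwards [hne, self_mem_nhdsWithin] with s h3 h4
    simp only [Pi.div_apply]
    rw [heq s h4, ← mul_assoc, mul_right_comm, mul_div_cancel_right₀ _ h3]
  · rintro ⟨l', hl', h2⟩
    refine ⟨l' * l, mul_ne_zero hl' hl, ?_⟩
    refine (h2.mul h1).congr' ?_
    filter_upwards [self_mem_nhdsWithin] with s h4
    rw [heq s h4]
    ring

/-- an order `-r` bounds the growth -/
lemma bounded_of_order {f : ℂ → ℂ} {a : ℝ} {r : ℕ} {A : ℝ} (hr : (r : ℝ) ≤ A)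
    (h : HasOrder f a (-(r : ℤ))) : PoleAtMost f a A := by
  obtain ⟨l, _, h1⟩ := h
  have h2 := h1.norm
  refine ⟨‖l‖ + 1, ?_⟩
  have h3 := (tendsto_unshift a).eventually
    ((gt_mem_nhds (show (0 : ℝ) < 1 by norm_num)).filter_mono nhdsWithin_le_nhds)
  filter_upwards [h2.eventually (gt_mem_nhds (lt_add_one ‖l‖)), self_mem_nhdsWithin, h3]
    with s h4 h5 h6
  have h5' : 0 < s - a := by
    have : a < s := h5
    linarith
  rw [neg_neg, zpow_natCast, norm_mul, norm_pow, Complex.norm_real, Real.norm_eq_abs,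
    abs_of_pos h5'] at h4
  have h7 : (s - a) ^ A ≤ (s - a) ^ r := by
    rw [← Real.rpow_natCast]
    exact Real.rpow_le_rpow_of_exponent_ge h5' (le_of_lt h6) hr
  calc ‖f s‖ * (s - a) ^ A ≤ ‖f s‖ * (s - a) ^ r := mul_le_mul_of_nonneg_left h7 (norm_nonneg _)
    _ = (s - a) ^ r * ‖f s‖ := mul_comm _ _
    _ ≤ ‖l‖ + 1 := h4.le

/-- the bound is monotone -/
lemma PoleAtMost.mono {f : ℂ → ℂ} {a r r' : ℝ} (h : PoleAtMost f a r) (hr : r ≤ r') :
    PoleAtMost f a r' := by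
  obtain ⟨K, hK⟩ := h
  refine ⟨K, ?_⟩
  have h3 := (tendsto_unshift a).eventually
    ((gt_mem_nhds (show (0 : ℝ) < 1 by norm_num)).filter_mono nhdsWithin_le_nhds)
  filter_upwards [hK, self_mem_nhdsWithin, h3] with s h4 h5 h6
  have h5' : 0 < s - a := by
    have : a < s := h5
    linarith
  refine le_trans (mul_le_mul_of_nonneg_left ?_ (norm_nonneg _)) h4
  exact Real.rpow_le_rpow_of_exponent_ge h5' (le_of_lt h6) hr

/-- without poles of the factors in `S`, the growth is bounded by the number `b` -/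
lemma bounded_of_good (S : Finset (HeightOneSpectrum (𝓞 F))) (b m : ℕ)
    (P : HeightOneSpectrum (𝓞 F) → ℚ[X]) (hP : ∀ w, w ∉ S → PurePoly b (2 * m) w (P w))
    (h0 : ∀ w ∈ S, val (nrm w) (P w) ((m : ℝ) + 1) ≠ 0) :
    PoleAtMost (LFun P) (m + 1) b := by
  obtain ⟨l, hl, h1⟩ := prod_tendsto S P ((m : ℝ) + 1) h0
  obtain ⟨C, hC, h2⟩ := exp_sum_le F
  refine ⟨(‖l‖ + 1) * (C * Real.exp (CK F)) ^ b, ?_⟩
  filter_upwards [h1.norm.eventually (gt_mem_nhds (lt_add_one ‖l‖)), self_mem_nhdsWithin,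
    (tendsto_unshift ((m : ℝ) + 1)).eventually h2] with s h3 h4 h5
  have h4' : 0 < s - ((m : ℝ) + 1) := by
    have : (m : ℝ) + 1 < s := h4
    linarith
  have h6 := LFun_eq S b m P hP h4'
  have h7 := (away_bounds S b m P hP h4').2.2
  rw [add_sub_cancel] at h6 h7
  have h8 : ‖LFun P s‖ = ‖∏ w ∈ S, (val (nrm w) (P w) s)⁻¹‖ *
      ‖LFunAway S P s‖ := by
    rw [h6, norm_mul]
    rfl
  have h9 : ‖LFunAway S P s‖ ≤ (C * Real.exp (CK F) / (s - ((m : ℝ) + 1))) ^ b := by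
    refine h7.trans ?_
    rw [Real.exp_nat_mul, Real.exp_add]
    refine pow_le_pow_left₀ (by positivity) ?_ b
    calc _ ≤ C / (s - ((m : ℝ) + 1)) * Real.exp (CK F) :=
          mul_le_mul_of_nonneg_right h5 (Real.exp_pos _).le
      _ = _ := by ring
  rw [h8, Real.rpow_natCast]
  have h10 : ‖LFunAway S P s‖ * (s - ((m : ℝ) + 1)) ^ b ≤ (C * Real.exp (CK F)) ^ b := by
    calc ‖LFunAway S P s‖ * (s - ((m : ℝ) + 1)) ^ b ≤
          (C * Real.exp (CK F) / (s - ((m : ℝ) + 1))) ^ b * (s - ((m : ℝ) + 1)) ^ b :=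
          mul_le_mul_of_nonneg_right h9 (by positivity)
      _ = (C * Real.exp (CK F)) ^ b := by
          rw [← mul_pow, div_mul_cancel₀ _ h4'.ne']
  rw [mul_assoc]
  exact mul_le_mul h3.le h10 (by positivity) (by positivity)

end Main

end Pool.Agent.H6.TW
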