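import Pool.Agent.H6.TW.Main

set_option autoImplicit false
set_option linter.style.haveILetI false
set_option linter.unusedSectionVars false

open NumberField IsDedekindDomain Polynomial Filter Topology TensorProduct
open scoped Pointwise
open Pool.Agent.H921R2.TatePole (nm nm_summable nm_rpow_le_half)

namespace Pool.Agent.H6.TW

variable {C : VarClass} {c : Nat.Primes → Nat.Primes}

/-- every nonzero complex number is of the form `N ^ (-s)` -/
lemma exists_cpow {N : ℕ} (hN : 2 ≤ N) {T : ℂ} (hT : T ≠ 0) :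
    ∃ s : ℂ, (N : ℂ) ^ (-s) = T := by
  have hN0 : (N : ℂ) ≠ 0 := by
    have : N ≠ 0 := by omega
    exact_mod_cast this
  have hlog : Complex.log (N : ℂ) ≠ 0 := by
    rw [← Complex.natCast_log]
    have h1 : Real.log (N : ℝ) ≠ 0 := by
      have : (1 : ℝ) < N := by exact_mod_cast (by omega : 1 < N)
      exact (Real.log_pos this).ne'
    exact_mod_cast h1
  refine ⟨-(Complex.log T / Complex.log (N : ℂ)), ?_⟩
  rw [neg_neg, Complex.cpow_def_of_ne_zero hN0, mul_div_cancel₀ _ hlog, Complex.exp_log hT]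

/-- absolute convergence gives the weight-monodromy conjecture -/
lemma wm_of_conv (hC : C.Known) (hc : ∀ p, c p ≠ p) (hrat : C.Rational c)
    (hconv : C.ConvergesAbs c) : C.WeightMonodromy c := by
  intro X i p 𝔔 h𝔔 hp F _ N hN σ hσ j
  have hne := ne_bot_of_mem hp
  have hℓ := isPrimeTo_of h𝔔 (hc p) hp
  have hq := one_lt_resCard F h𝔔 hne
  obtain ⟨B, ⟨hB1, hB2, hnd⟩, hB⟩ := hC.selfDual (c p) X i
  have hrel : Rel N (C.H (c p) X i σ⁻¹) (resCard F 𝔔) := hN.2.2 σ hσ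
  set B' : Vec (c p) (C.b X i) →ₗ[Ql (c p)] Vec (c p) (C.b X i) →ₗ[Ql (c p)] Ql (c p) :=
    LinearMap.mk₂ (Ql (c p)) B (fun x x' y => (hB1 y).map_add x x')
      (fun a x y => (hB1 y).map_smul a x) (fun x y y' => (hB2 x).map_add y y')
      (fun a x y => (hB2 x).map_smul a y) with hB'
  refine bijOn_of_injective hq hrel i B' hnd (hB 𝔔 hℓ F σ hσ)
    (hC.weights (c p) X i 𝔔 hℓ F σ hσ) j ?_
  intro x₀ hx₀ hNx₀
  by_contra hx0
  obtain ⟨α, x, hα, hx, hx1, hx2⟩ := exists_bad_eigenvector (by omega) hrel j _ hx₀ hx0 hNx₀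
  obtain ⟨e, β, he, hβ, hZ⟩ := exists_square_vec hC h𝔔 hne hN hσ hα hx hx1 hx2
  have hZ2 := HasVec.prod hC (k := 2 * (2 * i)) (by ring) hZ hZ
  choose P hP using fun w => hrat (C.prod (C.prod X X) (C.prod X X)) (2 * i) F w
  set w := placeBelow F 𝔔 h𝔔 hne with hw
  have hββ : IsWeil (resCard F 𝔔) (2 * i + 2 * e + (2 * i + 2 * e)) (β * β) :=
    hβ.mul (by omega) hβ
  obtain ⟨v, hv, hv0, hv1⟩ := hZ2
  have hroot := factor_root_of_eigen (hP w p 𝔔 ⟨h𝔔, hp, rfl⟩) hσ hv hv0 (hββ.ne_zero (by omega)) hv1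
  have hinv := hββ.inv
  obtain ⟨y, hy⟩ := hinv.lift
  rw [← hy] at hroot hinv
  rw [isWeil_iff] at hinv
  obtain ⟨τ⟩ := emb_nonempty (Ql (c p))
  have hτ := hinv τ
  have hroot' : aeval (τ y) (P w) = 0 := by
    have h1 : aeval y (P w) = 0 := by
      have h2 : (KK (Ql (c p))).val (aeval y (P w)) = 0 := by
        rw [← aeval_algHom_apply]
        exact hroot
      exact (map_eq_zero _).mp h2
    rw [aeval_algHom_apply, h1, map_zero]
  have hN2 : 2 ≤ nrm w := nrm_two_le w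
  have hres : resCard F 𝔔 = nrm w := resCard_of_comap rfl
  have hτ0 : τ y ≠ 0 := by
    intro h0
    rw [h0, norm_zero] at hτ
    have h3 : (resCard F 𝔔 : ℝ) ^ (-((2 : ℤ) * i + 2 * e + (2 * i + 2 * e))) ≠ 0 :=
      zpow_ne_zero _ (by exact_mod_cast (by omega : resCard F 𝔔 ≠ 0))
    apply h3
    rw [← hτ]
    norm_num
  obtain ⟨s, hs⟩ := exists_cpow hN2 hτ0
  have hsre : s.re = 2 * i + 2 * e := by
    have h1 : ‖τ y‖ = (nrm w : ℝ) ^ (-s.re) := by
      rw [← hs, Complex.norm_natCast_cpow_of_pos (by omega), Complex.neg_re]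
    rw [h1, hres, ← Real.rpow_natCast, ← Real.rpow_mul (by positivity), ← Real.rpow_intCast] at hτ
    have h2 : (1 : ℝ) < (nrm w : ℝ) := by exact_mod_cast (by omega)
    have h3 := (Real.rpow_right_inj (by linarith) (by linarith)).mp hτ
    push_cast at h3
    linarith
  have h4 := (hconv _ (2 * i) F P hP s (by
    rw [hsre]
    have : (1 : ℝ) ≤ e := by exact_mod_cast he
    push_cast
    linarith)).1 w
  unfold locVal at h4
  rw [hs] at h4
  exact h4 hroot'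

/-- under the weight-monodromy conjecture the eigenvalues of the Frobenius elements on the
invariants of inertia have weight at most `i` -/
lemma weight_le_of_wm (hC : C.Known) (hc : ∀ p, c p ≠ p) (hwm : C.WeightMonodromy c)
    {F : IntermediateField ℚ Qb} [NumberField F] {X : C.Var} {i : ℕ} {p : Nat.Primes}
    {𝔔 : Ideal (𝓞 Qb)} (h𝔔 : 𝔔.IsPrime) (hp : ((p : ℕ) : 𝓞 Qb) ∈ 𝔔) {σ : G}
    (hσ : IsFrob F 𝔔 σ) {μ : Ql (c p)} (hv : HasVec C (c p) F 𝔔 σ X i μ) :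
    ∃ w : ℤ, w ≤ i ∧ IsWeil (resCard F 𝔔) w μ := by
  have hne := ne_bot_of_mem hp
  have hℓ := isPrimeTo_of h𝔔 (hc p) hp
  obtain ⟨v, hv, hv0, hv1⟩ := hv
  have hev : Module.End.HasEigenvalue (C.H (c p) X i σ⁻¹) μ := by
    refine Module.End.hasEigenvalue_of_hasEigenvector (x := v) ⟨?_, hv0⟩
    rw [Module.End.mem_eigenspace_iff]
    exact hv1
  obtain ⟨w, hw⟩ := hC.weights (c p) X i 𝔔 hℓ F σ hσ μ hev
  refine ⟨w, ?_, hw⟩
  by_contra hcon
  push Not at hcon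
  obtain ⟨F₀, N, hF₀, hmono⟩ := hC.monodromy (c p) X i 𝔔 hℓ
  haveI : FiniteDimensional ℚ F := NumberField.to_finiteDimensional
  haveI : FiniteDimensional ℚ F₀ := NumberField.to_finiteDimensional
  haveI hfd : FiniteDimensional ℚ (F ⊔ F₀ : IntermediateField ℚ Qb) :=
    IntermediateField.finiteDimensional_sup _ _
  haveI hnf : NumberField (F ⊔ F₀ : IntermediateField ℚ Qb) :=
    { to_charZero := inferInstance, to_finiteDimensional := hfd }
  have hN := hmono (F ⊔ F₀) le_sup_right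
  obtain ⟨σ', hσ'⟩ := exists_isFrob (F ⊔ F₀) h𝔔 hne
  have hσ'1 : IsFrob (F ⊔ F₀) ((1 : G) • 𝔔) σ' := by rw [one_smul]; exact hσ'
  obtain ⟨h1, f, hf, h2⟩ := transfer (C.H (c p) X i) (F' := F ⊔ F₀) le_sup_left h𝔔 hne hσ
    hv hv1 (g := 1) (fun x _ => rfl) hσ'1
  rw [one_smul] at h1 hf
  rw [map_one] at h1 h2
  change v ∈ _ at h1
  change C.H (c p) X i σ'⁻¹ v = _ • v at h2
  obtain ⟨hnil, ⟨t, ⟨g, hg, htg⟩, ht⟩, hrel⟩ := hN
  have hNv : N v = 0 := by
    refine ker_of_exp_apply hnil htg ?_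
    rw [← ht g hg]
    exact h1 g hg
  have hq : resCard F 𝔔 ≠ 0 := resCard_ne_zero _ h𝔔 hne
  -- the weight relative to the larger field
  have h3 : IsWeil (resCard ↥(F ⊔ F₀) 𝔔) w (μ ^ f) := by
    obtain ⟨y, rfl⟩ := hw.lift
    rw [isWeil_iff] at hw
    have e1 : ((y ^ f : KK (Ql (c p))) : Ql (c p)) = (y : Ql (c p)) ^ f := rfl
    rw [← e1, isWeil_iff]
    intro τ
    rw [map_pow, norm_pow, ← pow_mul, mul_comm f 2, pow_mul, hw τ, hf]
    push_cast
    rw [← zpow_natCast, ← zpow_mul, ← zpow_natCast, ← zpow_mul, mul_comm]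
  obtain ⟨k, hk⟩ : ∃ k : ℕ, w = i + (k + 1 : ℕ) := by
    refine ⟨(w - i - 1).toNat, ?_⟩
    have : 0 ≤ w - i - 1 := by omega
    push_cast
    rw [Int.toNat_of_nonneg this]
    ring
  rw [hk] at h3
  have h5 := eigen_mem_weight (C.H (c p) X i σ'⁻¹) (resCard ↥(F ⊔ F₀) 𝔔) _ h2 h3
  have h6 := hwm X i p 𝔔 h𝔔 hp (F ⊔ F₀) N ⟨hnil, ⟨t, ⟨g, hg, htg⟩, ht⟩, hrel⟩ σ' hσ' (k + 1)
  have h7 : (N ^ (k + 1)) v = (N ^ (k + 1)) 0 := by
    rw [map_zero, pow_succ, Module.End.mul_apply, hNv, map_zero]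
  exact hv0 (h6.injOn h5 (Submodule.zero_mem _) h7)

/-- a complex root of a local polynomial comes from an eigenvalue -/
lemma root_norm {F : IntermediateField ℚ Qb} [NumberField F] {X : C.Var} {i : ℕ} {p : Nat.Primes}
    {𝔔 : Ideal (𝓞 Qb)} {σ : G}
    (hσ : IsFrob F 𝔔 σ) {P : ℚ[X]} (hP : IsLocalFactor (C.H (c p) X i) F 𝔔 P) {T : ℂ} (hT0 : T ≠ 0)
    (hT : aeval T P = 0) :
    ∃ μ : Ql (c p), HasVec C (c p) F 𝔔 σ X i μ ∧
      ∀ w : ℤ, IsWeil (resCard F 𝔔) w μ → ‖T‖ ^ 2 = (resCard F 𝔔 : ℝ) ^ (-w) := by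
  have hP0 : P ≠ 0 := factor_ne_zero hP hσ
  have hTint : IsIntegral ℚ T := by
    rw [← isAlgebraic_iff_isIntegral]
    exact ⟨P, hP0, hT⟩
  have hdvd : minpoly ℚ T ∣ P := minpoly.dvd ℚ T hT
  have hdeg : (minpoly ℚ T).degree ≠ 0 := (minpoly.degree_pos hTint).ne'
  obtain ⟨ν, hν⟩ := IsAlgClosed.exists_aeval_eq_zero (Ql (c p)) (minpoly ℚ T) hdeg
  have hνP : aeval ν P = 0 := by
    obtain ⟨R, hR⟩ := hdvd
    rw [hR, map_mul, hν, zero_mul]
  have hmin : minpoly ℚ ν = minpoly ℚ T :=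
    (minpoly.eq_of_irreducible_of_monic (minpoly.irreducible hTint) hν (minpoly.monic hTint)).symm
  have hν0 : ν ≠ 0 := by
    rintro rfl
    apply hT0
    have h1 : minpoly ℚ T = Polynomial.X := by rw [← hmin, minpoly.zero]
    have h2 := minpoly.aeval ℚ T
    rw [h1, aeval_X] at h2
    exact h2
  obtain ⟨v, hv, hv0, hv1⟩ := eigen_of_factor_root hP hσ (inv_ne_zero hν0)
    (by rw [inv_inv]; exact hνP)
  refine ⟨ν⁻¹, ⟨v, hv, hv0, hv1⟩, fun w hw => ?_⟩
  have h1 := hw.inv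
  rw [inv_inv] at h1
  refine h1.2 T ?_
  rw [hmin]
  exact minpoly.aeval ℚ T

lemma good_summand {F : IntermediateField ℚ Qb} [NumberField F] {b m : ℕ}
    {w : HeightOneSpectrum (𝓞 F)} {P : ℚ[X]} (h : PurePoly b (2 * m) w P) {s : ℂ}
    (hs : (m : ℝ) + 1 < s.re) :
    ‖(locVal w P s)⁻¹ - 1‖ ≤ 4 ^ b * (nm w : ℝ) ^ (-(1 + (s.re - m - 1))) := by
  set ε := s.re - m - 1 with hε
  have hεpos : 0 < ε := by rw [hε]; linarith
  set T : ℂ := (nrm w : ℂ) ^ (-s) with hT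
  change ‖(aeval T P)⁻¹ - 1‖ ≤ _
  set x : ℝ := (nm w : ℝ) ^ (-(1 + ε)) with hx
  have hN : (2 : ℝ) ≤ (nrm w : ℝ) := two_le_nrm w
  have hNpos : (0 : ℝ) < (nrm w : ℝ) := by linarith
  have hx0 : 0 ≤ x := by rw [hx]; positivity
  have hx1 : x ≤ 1 / 2 := nm_rpow_le_half w (by linarith)
  have hb := poly_bounds P b h.1 h.2.1 (R := (nrm w : ℝ) ^ m) (by positivity) (by
    intro z hz
    have h1 := h.2.2 z hz
    have h2 : (‖z‖ * (nrm w : ℝ) ^ m) ^ 2 = 1 := by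
      rw [mul_pow, ← pow_mul, mul_comm m 2]
      exact h1
    have h3 : 0 ≤ ‖z‖ * (nrm w : ℝ) ^ m := by positivity
    nlinarith [sq_nonneg (‖z‖ * (nrm w : ℝ) ^ m - 1)]) T (x := x) (by
    have h1 : ‖T‖ = (nrm w : ℝ) ^ (-s.re) := by
      rw [hT, Complex.norm_natCast_cpow_of_pos (by exact_mod_cast hNpos), Complex.neg_re]
    rw [h1, ← Real.rpow_natCast, ← Real.rpow_add hNpos]
    change _ = (nrm w : ℝ) ^ (-(1 + ε))
    congr 1
    rw [hε]; ring) (by linarith)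
  obtain ⟨_, h2, h3⟩ := hb
  have h4 : (1 / 2 : ℝ) ^ b ≤ ‖aeval T P‖ :=
    (pow_le_pow_left₀ (by norm_num) (by linarith) b).trans h2
  have h5 : 0 < ‖aeval T P‖ := lt_of_lt_of_le (by positivity) h4
  have h6 : aeval T P ≠ 0 := norm_pos_iff.mp h5
  have e1 : (aeval T P)⁻¹ - 1 = -(aeval T P - 1) * (aeval T P)⁻¹ := by
    field_simp
    ring
  rw [e1, norm_mul, norm_neg, norm_inv]
  calc ‖aeval T P - 1‖ * ‖aeval T P‖⁻¹ ≤ (2 ^ b * x) * ((1 / 2 : ℝ) ^ b)⁻¹ :=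
        mul_le_mul h3 (inv_anti₀ (by positivity) h4) (by positivity) (by positivity)
    _ = 4 ^ b * x := by
        rw [one_div, inv_pow, inv_inv, show (4 : ℝ) = 2 * 2 by norm_num, mul_pow]
        ring

/-- the weight-monodromy conjecture gives absolute convergence -/
lemma conv_of_wm (hC : C.Known) (hc : ∀ p, c p ≠ p) (hwm : C.WeightMonodromy c) :
    C.ConvergesAbs c := by
  intro X m F _ P hP s hs
  constructor
  · intro w h0
    obtain ⟨p, 𝔔, h𝔔, hp, hw⟩ := exists_above w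
    obtain ⟨σ, hσ⟩ := exists_isFrob F h𝔔 (ne_bot_of_mem hp)
    have hN2 := nrm_two_le w
    have hT0 : ((nrm w : ℂ) ^ (-s)) ≠ 0 := by
      intro h
      have h1 := Complex.norm_natCast_cpow_of_pos (n := nrm w) (by omega) (-s)
      rw [h, norm_zero] at h1
      have h2 : (0 : ℝ) < (nrm w : ℝ) ^ (-s).re :=
        Real.rpow_pos_of_pos (by exact_mod_cast (by omega : 0 < nrm w)) _
      linarith
    obtain ⟨μ, hμ, hnorm⟩ := root_norm (c := c) (p := p) hσ (hP w p 𝔔 ⟨h𝔔, hp, hw⟩) hT0 h0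
    obtain ⟨k, hk, hkw⟩ := weight_le_of_wm hC hc hwm h𝔔 hp hσ hμ
    have h1 := hnorm k hkw
    rw [Complex.norm_natCast_cpow_of_pos (by omega), resCard_of_comap hw, ← Real.rpow_natCast,
      ← Real.rpow_mul (by positivity), ← Real.rpow_intCast] at h1
    have h2 : (1 : ℝ) < (nrm w : ℝ) := by exact_mod_cast (by omega)
    have h3 := (Real.rpow_right_inj (by linarith) (by linarith)).mp h1
    rw [Complex.neg_re] at h3
    push_cast at h3
    have h4 : (k : ℝ) ≤ 2 * m := by exact_mod_cast hk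
    linarith
  · obtain ⟨S, hS⟩ := exists_badset hC X (2 * m) F
    have hsum : Summable fun w : HeightOneSpectrum (𝓞 F) =>
        4 ^ (C.b X (2 * m)) * (nm w : ℝ) ^ (-(1 + (s.re - m - 1))) :=
      (nm_summable (by linarith)).mul_left _
    refine Summable.of_norm_bounded_eventually (g := fun w => 4 ^ (C.b X (2 * m)) *
      (nm w : ℝ) ^ (-(1 + (s.re - m - 1)))) hsum ?_
    rw [Filter.eventually_cofinite]
    refine S.finite_toSet.subset fun w hw => ?_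
    by_contra hwS
    apply hw
    rw [norm_norm]
    exact good_summand (purePoly_of_isGood hc (hS w hwS) (hP w)) hs

theorem main₃ (hC : C.Known) (hc : ∀ p, c p ≠ p) (hrat : C.Rational c) :
    List.TFAE [C.WeightMonodromy c, C.ConvergesAbs c, C.PolesLeBetti c, C.PolesSublinear c] := by
  tfae_have 1 → 2 := conv_of_wm hC hc
  tfae_have 2 → 1 := wm_of_conv hC hc hrat
  tfae_have 1 → 3 := betti_of_wm hC hc
  tfae_have 3 → 4 := sublinear_of_betti
  tfae_have 4 → 1 := wm_of_sublinear hC hc hrat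
  tfae_finish

end Pool.Agent.H6.TW
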