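import Mathlib

/-!
# Definitions: Galois representations over `ℚ`, local factors at all places, weight-monodromy

`ℚ` has the algebraic closure `Qb` and the absolute Galois group `G`.  Number fields `F` are the
subfields of `Qb` of finite degree.  The decomposition groups are taken at the primes `𝔔` of the
ring `𝓞 Qb` of all algebraic integers.
-/

set_option autoImplicit false

open NumberField IsDedekindDomain Polynomial Filter Topology TensorProduct
open scoped Pointwise

namespace Pool.Agent.H6.TW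

/-- An algebraic closure of `ℚ`; the number fields are its subfields of finite degree. -/
abbrev Qb : Type := AlgebraicClosure ℚ

/-- The absolute Galois group of `ℚ`. -/
abbrev G : Type := Qb ≃ₐ[ℚ] Qb

instance instFactPrimes (ℓ : Nat.Primes) : Fact (ℓ : ℕ).Prime := ⟨ℓ.2⟩

/-- An algebraic closure of `ℚ_ℓ`. -/
def Ql (ℓ : Nat.Primes) : Type := AlgebraicClosure ℚ_[ℓ]

noncomputable instance instFieldQl (ℓ : Nat.Primes) : Field (Ql ℓ) :=
  AlgebraicClosure.instField ℚ_[ℓ]

instance instCharZeroQl (ℓ : Nat.Primes) : CharZero (Ql ℓ) :=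
  (inferInstance : CharZero (AlgebraicClosure ℚ_[ℓ]))

/-- The space of the vectors of length `n` over `Ql ℓ`. -/
def Vec (ℓ : Nat.Primes) (n : ℕ) : Type := Fin n → Ql ℓ

noncomputable instance instGroupVec (ℓ : Nat.Primes) (n : ℕ) : AddCommGroup (Vec ℓ n) :=
  (Pi.addCommGroup : AddCommGroup (Fin n → Ql ℓ))

noncomputable instance instModuleVec (ℓ : Nat.Primes) (n : ℕ) : Module (Ql ℓ) (Vec ℓ n) :=
  (Pi.Function.module (Fin n) (Ql ℓ) (Ql ℓ) : Module (Ql ℓ) (Fin n → Ql ℓ))

noncomputable instance instModuleRatVec (ℓ : Nat.Primes) (n : ℕ) : Module ℚ (Vec ℓ n) :=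
  Module.compHom (Vec ℓ n) (algebraMap ℚ (Ql ℓ))

instance instFiniteVec (ℓ : Nat.Primes) (n : ℕ) : FiniteDimensional (Ql ℓ) (Vec ℓ n) :=
  (inferInstance : FiniteDimensional (Ql ℓ) (Fin n → Ql ℓ))

section Local

/-- The prime of the field `K` below `𝔔`. -/
noncomputable def below (K : Type) [Field K] [Algebra K Qb] (𝔔 : Ideal (𝓞 Qb)) : Ideal (𝓞 K) :=
  𝔔.comap (algebraMap (𝓞 K) (𝓞 Qb))

/-- The number of elements of the residue field of `K` at the prime below `𝔔`. -/
noncomputable def resCard (K : Type) [Field K] [Algebra K Qb] (𝔔 : Ideal (𝓞 Qb)) : ℕ :=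
  Nat.card (𝓞 K ⧸ below K 𝔔)

/-- The inertia group at the prime `𝔔` in the absolute Galois group of `F`. -/
def inertia (F : IntermediateField ℚ Qb) (𝔔 : Ideal (𝓞 Qb)) : Set G :=
  {g | (∀ x ∈ F, g x = x) ∧ ∀ x : 𝓞 Qb, g • x - x ∈ 𝔔}

/-- `σ` is an arithmetic Frobenius element at `𝔔` in the absolute Galois group of `F`; the
geometric Frobenius elements are the inverses `σ⁻¹`. -/
def IsFrob (F : IntermediateField ℚ Qb) (𝔔 : Ideal (𝓞 Qb)) (σ : G) : Prop :=
  (∀ x ∈ F, σ x = x) ∧ ∀ x : 𝓞 Qb, σ • x - x ^ resCard F 𝔔 ∈ 𝔔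

variable {Ω V : Type} [Field Ω] [AddCommGroup V] [Module Ω V]

/-- The invariants of the inertia group of `F` at `𝔔`. -/
def inv (ρ : Representation Ω G V) (F : IntermediateField ℚ Qb) (𝔔 : Ideal (𝓞 Qb)) :
    Submodule Ω V where
  carrier := {v | ∀ g ∈ inertia F 𝔔, ρ g v = v}
  add_mem' {a b} ha hb g hg := by rw [map_add, ha g hg, hb g hg]
  zero_mem' g _ := map_zero _
  smul_mem' c v hv g hg := by rw [map_smul, hv g hg]

/-- `W` is stable under `φ`, and `P (T) = det (1 - φ T)` for the restriction of `φ` to `W`. -/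
def IsPolyOn [CharZero Ω] [FiniteDimensional Ω V] (φ : Module.End Ω V) (W : Submodule Ω V)
    (P : ℚ[X]) : Prop :=
  ∃ h : ∀ v ∈ W, φ v ∈ W, P.map (algebraMap ℚ Ω) = (φ.restrict h).charpoly.reverse

/-- `P (T) = det (1 - φ T)` for the action of the geometric Frobenius elements `φ = σ⁻¹` on the
invariants of the inertia group of `F` at `𝔔`. -/
def IsLocalFactor [CharZero Ω] [FiniteDimensional Ω V] (ρ : Representation Ω G V)
    (F : IntermediateField ℚ Qb) (𝔔 : Ideal (𝓞 Qb)) (P : ℚ[X]) : Prop :=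
  ∀ σ : G, IsFrob F 𝔔 σ → IsPolyOn (ρ σ⁻¹) (inv ρ F 𝔔) P

/-- The inertia group of `F` at `𝔔` acts trivially. -/
def IsTriv (ρ : Representation Ω G V) (F : IntermediateField ℚ Qb) (𝔔 : Ideal (𝓞 Qb)) : Prop :=
  ∀ g ∈ inertia F 𝔔, ρ g = 1

/-- `α` is a Weil number of weight `w` relative to `q`: it is algebraic and all its complex
conjugates have the absolute value `q ^ (w / 2)`. -/
def IsWeil [CharZero Ω] (q : ℕ) (w : ℤ) (α : Ω) : Prop :=
  IsIntegral ℚ α ∧ ∀ z : ℂ, aeval z (minpoly ℚ α) = 0 → ‖z‖ ^ 2 = (q : ℝ) ^ w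

/-- The sum of the generalised eigenspaces of `φ` for the eigenvalues of weight `w`. -/
def weightSpace [CharZero Ω] (φ : Module.End Ω V) (q : ℕ) (w : ℤ) : Submodule Ω V :=
  ⨆ α ∈ {α : Ω | IsWeil q w α}, φ.maxGenEigenspace α

/-- The commutation relation of the monodromy operator and a geometric Frobenius element. -/
def Rel (N φ : Module.End Ω V) (q : ℕ) : Prop := ∀ v, N (φ v) = (q : Ω) • φ (N v)

/-- The inertia group of `F` at `𝔔` acts by `exp (t N)`, where `t` is a function on it which is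
not zero. (`t` is the `ℓ`-adic tame character.) -/
def ActsByExp [Module ℚ V] (ρ : Representation Ω G V) (F : IntermediateField ℚ Qb)
    (𝔔 : Ideal (𝓞 Qb)) (N : Module.End Ω V) : Prop :=
  ∃ t : G → Ω, (∃ g ∈ inertia F 𝔔, t g ≠ 0) ∧
    ∀ g ∈ inertia F 𝔔, ρ g = IsNilpotent.exp (t g • N)

/-- `N` is the monodromy operator of `ρ` at `𝔔`, and the inertia group of `F` at `𝔔` acts
unipotently. -/
def IsMonodromy [Module ℚ V] (ρ : Representation Ω G V) (F : IntermediateField ℚ Qb)
    (𝔔 : Ideal (𝓞 Qb)) (N : Module.End Ω V) : Prop :=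
  IsNilpotent N ∧ ActsByExp ρ F 𝔔 N ∧ ∀ σ : G, IsFrob F 𝔔 σ → Rel N (ρ σ⁻¹) (resCard F 𝔔)

/-- For all `j`, `N ^ j` is a bijection of the part of weight `i + j` onto the part of weight
`i - j`. -/
def IsPureFor [CharZero Ω] (N φ : Module.End Ω V) (q i : ℕ) : Prop :=
  ∀ j : ℕ, Set.BijOn (N ^ j) (weightSpace φ q (i + j)) (weightSpace φ q (i - j))

/-- The weight-monodromy property in degree `i` at `𝔔` (over every number field over which the
inertia group at `𝔔` acts unipotently). -/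
def IsPureAt [Module ℚ V] [CharZero Ω] (ρ : Representation Ω G V) (i : ℕ)
    (𝔔 : Ideal (𝓞 Qb)) : Prop :=
  ∀ (F : IntermediateField ℚ Qb) [NumberField F] (N : Module.End Ω V),
    IsMonodromy ρ F 𝔔 N → ∀ σ : G, IsFrob F 𝔔 σ → IsPureFor N (ρ σ⁻¹) (resCard F 𝔔) i

/-! ### The known properties -/

/-- `𝔔` is a nonzero prime and its residue characteristic is not `ℓ`. -/
def IsPrimeTo (ℓ : Nat.Primes) (𝔔 : Ideal (𝓞 Qb)) : Prop :=
  𝔔.IsPrime ∧ 𝔔 ≠ ⊥ ∧ ((ℓ : ℕ) : 𝓞 Qb) ∉ 𝔔

/-- `ρ₁` is isomorphic to a subrepresentation of `ρ`. -/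
def IsSub {V₁ : Type} [AddCommGroup V₁] [Module Ω V₁] (ρ₁ : Representation Ω G V₁)
    (ρ : Representation Ω G V) : Prop :=
  ∃ κ : V₁ →ₗ[Ω] V, Function.Injective κ ∧ ∀ g x, κ (ρ₁ g x) = ρ g (κ x)

/-- `B` is a bilinear form, and it is nondegenerate. -/
def IsForm (B : V → V → Ω) : Prop :=
  (∀ y, IsLinearMap Ω fun x => B x y) ∧ (∀ x, IsLinearMap Ω (B x)) ∧ ∀ x, (∀ y, B x y = 0) → x = 0

/-- `φ` multiplies the form `B` by `a`. -/
def Scales (B : V → V → Ω) (φ : Module.End Ω V) (a : Ω) : Prop :=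
  ∀ x y, B (φ x) (φ y) = a * B x y

/-- Poincaré duality and the hard Lefschetz theorem: there is a nondegenerate bilinear form on `V`
which the geometric Frobenius elements, over all number fields, multiply by `q ^ i`. -/
def IsSelfDual (ρ : Representation Ω G V) (ℓ : Nat.Primes) (i : ℕ) : Prop :=
  ∃ B : V → V → Ω, IsForm B ∧ ∀ (𝔔 : Ideal (𝓞 Qb)), IsPrimeTo ℓ 𝔔 →
    ∀ (F : IntermediateField ℚ Qb) [NumberField F] (σ : G), IsFrob F 𝔔 σ →
      Scales B (ρ σ⁻¹) ((resCard F 𝔔 : Ω) ^ i)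

/-- Grothendieck's monodromy theorem: over sufficiently large number fields the inertia group at
`𝔔` acts by `exp (t N)`. -/
def HasMonodromy [Module ℚ V] (ρ : Representation Ω G V) (ℓ : Nat.Primes) : Prop :=
  ∀ (𝔔 : Ideal (𝓞 Qb)), IsPrimeTo ℓ 𝔔 →
    ∃ (F₀ : IntermediateField ℚ Qb) (N : Module.End Ω V), NumberField F₀ ∧
      ∀ (F : IntermediateField ℚ Qb) [NumberField F], F₀ ≤ F → IsMonodromy ρ F 𝔔 N

/-- The eigenvalues of the geometric Frobenius elements are Weil numbers (Deligne, de Jong). -/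
def HasWeights [CharZero Ω] (ρ : Representation Ω G V) (ℓ : Nat.Primes) : Prop :=
  ∀ (𝔔 : Ideal (𝓞 Qb)), IsPrimeTo ℓ 𝔔 → ∀ (F : IntermediateField ℚ Qb) [NumberField F] (σ : G),
    IsFrob F 𝔔 σ → ∀ α : Ω, Module.End.HasEigenvalue (ρ σ⁻¹) α → ∃ w : ℤ, IsWeil (resCard F 𝔔) w α

/-- A nonzero vector fixed by the decomposition group at `𝔔`. -/
def HasFixedVector (ρ : Representation Ω G V) (𝔔 : Ideal (𝓞 Qb)) : Prop :=
  ∃ e : V, e ≠ 0 ∧ ∀ g : G, g • 𝔔 = 𝔔 → ρ g e = e

end Local

/-! ### Places and `L`-functions -/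

section Places

variable {K : Type} [Field K] [NumberField K]

/-- The number of elements of the residue field. -/
noncomputable def nrm (w : HeightOneSpectrum (𝓞 K)) : ℕ := Ideal.absNorm w.asIdeal

/-- `𝔔` lies above the place `w` of `K` and above the prime number `p`. -/
def LiesAbove [Algebra K Qb] (w : HeightOneSpectrum (𝓞 K)) (p : Nat.Primes)
    (𝔔 : Ideal (𝓞 Qb)) : Prop :=
  𝔔.IsPrime ∧ ((p : ℕ) : 𝓞 Qb) ∈ 𝔔 ∧ below K 𝔔 = w.asIdeal

/-- The value `P (N(w) ^ (-s))`. -/
noncomputable def locVal (w : HeightOneSpectrum (𝓞 K)) (P : ℚ[X]) (s : ℂ) : ℂ :=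
  aeval ((nrm w : ℂ) ^ (-s)) P

/-- The Euler product with the local polynomials `P w`, over all places. -/
noncomputable def LFun (P : HeightOneSpectrum (𝓞 K) → ℚ[X]) (s : ℂ) : ℂ :=
  ∏' w : HeightOneSpectrum (𝓞 K), (locVal w (P w) s)⁻¹

/-- The Euler product with the local polynomials `P w`, over the places outside `S`. -/
noncomputable def LFunAway (S : Finset (HeightOneSpectrum (𝓞 K)))
    (P : HeightOneSpectrum (𝓞 K) → ℚ[X]) (s : ℂ) : ℂ :=
  ∏' w : {w : HeightOneSpectrum (𝓞 K) // w ∉ S}, (locVal w.1 (P w.1) s)⁻¹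

/-- The Euler product converges absolutely at `s` (in particular all factors are finite). -/
def AbsConv (P : HeightOneSpectrum (𝓞 K) → ℚ[X]) (s : ℂ) : Prop :=
  (∀ w, locVal w (P w) s ≠ 0) ∧ Summable fun w => ‖(locVal w (P w) s)⁻¹ - 1‖

/-- `P` has degree at most `b`, constant term `1`, and complex roots of absolute value
`N(w) ^ (- i / 2)`. -/
def PurePoly (b i : ℕ) (w : HeightOneSpectrum (𝓞 K)) (P : ℚ[X]) : Prop :=
  P.natDegree ≤ b ∧ P.coeff 0 = 1 ∧ ∀ z : ℂ, aeval z P = 0 → ‖z‖ ^ 2 * (nrm w : ℝ) ^ i = 1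

/-- `f` has the order `k` at `a`: `(s - a) ^ (-k) f (s)` has a finite nonzero limit as real `s`
tends to `a` from the right. -/
def HasOrder (f : ℂ → ℂ) (a : ℝ) (k : ℤ) : Prop :=
  ∃ l : ℂ, l ≠ 0 ∧ Tendsto (fun s : ℝ => ((s - a : ℝ) : ℂ) ^ (-k) * f s) (𝓝[>] a) (𝓝 l)

/-- `f` has at `a` at most a pole of order `r` (`r` is real; no continuation is assumed):
`(s - a) ^ r f (s)` is bounded as real `s` tends to `a` from the right. -/
def PoleAtMost (f : ℂ → ℂ) (a r : ℝ) : Prop :=
  ∃ K : ℝ, ∀ᶠ s : ℝ in 𝓝[>] a, ‖f s‖ * (s - a) ^ r ≤ K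

end Places

/-! ### Varieties -/

/-- Smooth projective varieties over `ℚ` (not necessarily connected) with their `ℓ`-adic
cohomology and the ranks of their groups of algebraic cycles. -/
structure VarClass where
  /-- the varieties -/
  Var : Type
  /-- the Betti numbers -/
  b : Var → ℕ → ℕ
  /-- the action of the Galois group on `H^i(X)`, coefficients `Ql ℓ`, in a basis -/
  H : (ℓ : Nat.Primes) → (X : Var) → (i : ℕ) → Representation (Ql ℓ) G (Vec ℓ (b X i))
  /-- the rank of the group `B^m(X_F)` of the cycles of codimension `m` over `F` up to homological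
  equivalence -/
  rank : Var → ℕ → IntermediateField ℚ Qb → ℕ
  /-- the product of two varieties -/
  prod : Var → Var → Var

namespace VarClass

variable (C : VarClass)

/-- `H^i(X)` is unramified at the place `w` of `F` with `det (1 - φ T) = P (T)`, for all `ℓ`. -/
def IsUnramified (X : C.Var) (i : ℕ) (F : IntermediateField ℚ Qb) [NumberField F]
    (w : HeightOneSpectrum (𝓞 F)) (P : ℚ[X]) : Prop :=
  ∀ (p ℓ : Nat.Primes) (𝔔 : Ideal (𝓞 Qb)), LiesAbove w p 𝔔 → ℓ ≠ p →
    IsTriv (C.H ℓ X i) F 𝔔 ∧ IsLocalFactor (C.H ℓ X i) F 𝔔 P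

/-- `X` has good reduction at the place `w` of `F`, as far as `H^i` is concerned: inertia acts
trivially and `det (1 - φ T)` is rational, independent of `ℓ` and pure of weight `i`. -/
def IsGood (X : C.Var) (i : ℕ) (F : IntermediateField ℚ Qb) [NumberField F]
    (w : HeightOneSpectrum (𝓞 F)) : Prop :=
  ∃ P : ℚ[X], PurePoly (C.b X i) i w P ∧ C.IsUnramified X i F w P

/-- The known properties of the cohomology of the smooth projective varieties over `ℚ`. -/
structure Known : Prop where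
  /-- the cycles up to homological equivalence -/
  rank_le : ∀ X m F, C.rank X m F ≤ C.b X (2 * m)
  /-- the Künneth formula -/
  kuenneth : ∀ ℓ X Y i j, IsSub ((C.H ℓ X i).tprod (C.H ℓ Y j)) (C.H ℓ (C.prod X Y) (i + j))
  /-- Poincaré duality and the hard Lefschetz theorem -/
  selfDual : ∀ ℓ X i, IsSelfDual (C.H ℓ X i) ℓ i
  /-- Grothendieck's monodromy theorem -/
  monodromy : ∀ ℓ X i, HasMonodromy (C.H ℓ X i) ℓ
  /-- the eigenvalues of the Frobenius elements are Weil numbers (Deligne, de Jong) -/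
  weights : ∀ ℓ X i, HasWeights (C.H ℓ X i) ℓ
  /-- good reduction at almost all places (Deligne) -/
  good : ∀ X i (F : IntermediateField ℚ Qb) [NumberField F], {w | ¬ C.IsGood X i F w}.Finite
  /-- for every `p` there is an elliptic curve over `ℚ` with split multiplicative reduction at
  `p`; its `H^1` contains a nonzero vector fixed by the decomposition group -/
  tate : ∀ p : Nat.Primes, ∃ E, ∀ (ℓ : Nat.Primes) (𝔔 : Ideal (𝓞 Qb)), 𝔔.IsPrime →
    ((p : ℕ) : 𝓞 Qb) ∈ 𝔔 → ℓ ≠ p → HasFixedVector (C.H ℓ E 1) 𝔔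

variable (c : Nat.Primes → Nat.Primes)

/-- `P` is the local polynomial `det (1 - φ T | H^i(X)^I)` of `X_F` at the place `w` of `F`. At the
places above `p` the `ℓ`-adic cohomology for `ℓ = c p` is used. -/
def IsFactor (X : C.Var) (i : ℕ) (F : IntermediateField ℚ Qb) [NumberField F]
    (w : HeightOneSpectrum (𝓞 F)) (P : ℚ[X]) : Prop :=
  ∀ (p : Nat.Primes) (𝔔 : Ideal (𝓞 Qb)), LiesAbove w p 𝔔 →
    IsLocalFactor (C.H (c p) X i) F 𝔔 P

/-- The local polynomials of the `H^{2m}` at all places, good and bad, are rational. -/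
def Rational : Prop :=
  ∀ X m (F : IntermediateField ℚ Qb) [NumberField F] (w : HeightOneSpectrum (𝓞 F)),
    ∃ P : ℚ[X], C.IsFactor c X (2 * m) F w P

/-- The weight-monodromy conjecture: all `X`, all degrees, all places. -/
def WeightMonodromy : Prop :=
  ∀ X i (p : Nat.Primes) (𝔔 : Ideal (𝓞 Qb)), 𝔔.IsPrime → ((p : ℕ) : 𝓞 Qb) ∈ 𝔔 →
    IsPureAt (C.H (c p) X i) i 𝔔

/-- `P` gives the local polynomials of `H^{2m}(X_F)` at all places of `F`. -/
def IsSystem (X : C.Var) (m : ℕ) (F : IntermediateField ℚ Qb) [NumberField F]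
    (P : HeightOneSpectrum (𝓞 F) → ℚ[X]) : Prop :=
  ∀ w, C.IsFactor c X (2 * m) F w (P w)

/-- Tate's conjecture on the pole, with the Euler factors at all places. -/
def Tate : Prop :=
  ∀ X m (F : IntermediateField ℚ Qb) [NumberField F], ∃ P : HeightOneSpectrum (𝓞 F) → ℚ[X],
    C.IsSystem c X m F P ∧ HasOrder (LFun P) (m + 1) (-(C.rank X m F : ℤ))

/-- `X` has good reduction at `w`, as far as `H^{2m}` is concerned, and `P` is the local polynomial
of `H^{2m}(X_F)` there. -/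
def IsGoodFactor (X : C.Var) (m : ℕ) (F : IntermediateField ℚ Qb) [NumberField F]
    (w : HeightOneSpectrum (𝓞 F)) (P : ℚ[X]) : Prop :=
  C.IsGood X (2 * m) F w ∧ C.IsFactor c X (2 * m) F w P

/-- Outside `S` the variety has good reduction, as far as `H^{2m}` is concerned, and `P` gives the
local polynomials of `H^{2m}(X_F)`. -/
def IsGoodSystem (X : C.Var) (m : ℕ) (F : IntermediateField ℚ Qb) [NumberField F]
    (S : Finset (HeightOneSpectrum (𝓞 F))) (P : HeightOneSpectrum (𝓞 F) → ℚ[X]) : Prop :=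
  ∀ w ∉ S, C.IsGoodFactor c X m F w (P w)

/-- Tate's conjecture on the pole, without the Euler factors at a finite set of places which
contains those of bad reduction. -/
def TateGood : Prop :=
  ∀ X m (F : IntermediateField ℚ Qb) [NumberField F] (S : Finset (HeightOneSpectrum (𝓞 F)))
    (P : HeightOneSpectrum (𝓞 F) → ℚ[X]), C.IsGoodSystem c X m F S P →
      HasOrder (LFunAway S P) (m + 1) (-(C.rank X m F : ℤ))

/-- The Euler product of `H^{2m}(X_F)` over all places converges absolutely for `Re s > m + 1`, for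
all number fields `F` (in particular all factors are finite there). -/
def ConvergesAbs : Prop :=
  ∀ X m (F : IntermediateField ℚ Qb) [NumberField F] (P : HeightOneSpectrum (𝓞 F) → ℚ[X]),
    C.IsSystem c X m F P → ∀ s : ℂ, (m : ℝ) + 1 < s.re → AbsConv P s

/-- The `L`-function of `H^{2m}(X_F)` has at `m + 1` at most a pole of order `b_{2m}(X)`, for all
number fields `F`. -/
def PolesLeBetti : Prop :=
  ∀ X m (F : IntermediateField ℚ Qb) [NumberField F] (P : HeightOneSpectrum (𝓞 F) → ℚ[X]),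
    C.IsSystem c X m F P → PoleAtMost (LFun P) (m + 1) (C.b X (2 * m))

/-- The order of the pole of the `L`-function of `H^{2m}(X_F)` at `m + 1` is `o([F : ℚ])`. -/
def PolesSublinear : Prop :=
  ∀ X m (δ : ℝ), 0 < δ → ∃ A : ℝ, ∀ (F : IntermediateField ℚ Qb) [NumberField F]
    (P : HeightOneSpectrum (𝓞 F) → ℚ[X]), C.IsSystem c X m F P →
      PoleAtMost (LFun P) (m + 1) (A + δ * Module.finrank ℚ F)

end VarClass

end Pool.Agent.H6.TW
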