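import Pool.Agent.H6.TW.Gal

set_option autoImplicit false
set_option linter.style.haveILetI false
set_option linter.unusedSectionVars false

open NumberField IsDedekindDomain Polynomial
open scoped Pointwise

namespace Pool.Agent.H6.TW

variable {Ω V : Type} [Field Ω] [CharZero Ω] [AddCommGroup V] [Module Ω V]
variable [FiniteDimensional Ω V] {ρ : Representation Ω G V}
variable {F : IntermediateField ℚ Qb} {𝔔 : Ideal (𝓞 Qb)} {P : ℚ[X]}

lemma eval_reverse_iff {χ : Polynomial Ω} {μ : Ω} (hμ : μ ≠ 0) :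
    eval μ⁻¹ χ.reverse = 0 ↔ eval μ χ = 0 := by
  letI : Invertible μ := invertibleOfNonzero hμ
  have h := eval₂_reverse_eq_zero_iff (RingHom.id Ω) μ χ
  rw [invOf_eq_inv] at h
  simpa only [eval₂_id] using h

lemma factor_root_of_eigen (hP : IsLocalFactor ρ F 𝔔 P) {σ : G} (hσ : IsFrob F 𝔔 σ)
    {v : V} (hv : v ∈ inv ρ F 𝔔) (hv0 : v ≠ 0) {μ : Ω} (hμ0 : μ ≠ 0)
    (hμ : ρ σ⁻¹ v = μ • v) : aeval μ⁻¹ P = 0 := by
  obtain ⟨h, hPe⟩ := hP σ hσ
  have h1 : Module.End.HasEigenvalue ((ρ σ⁻¹).restrict h) μ := by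
    refine Module.End.hasEigenvalue_of_hasEigenvector (x := ⟨v, hv⟩) ⟨?_, ?_⟩
    · rw [Module.End.mem_eigenspace_iff]
      apply Subtype.ext
      exact hμ
    · intro h0
      exact hv0 (congrArg Subtype.val h0)
  rw [Module.End.hasEigenvalue_iff_isRoot_charpoly, IsRoot.def, ← eval_reverse_iff hμ0, ← hPe,
    eval_map_algebraMap] at h1
  exact h1

lemma eigen_of_factor_root (hP : IsLocalFactor ρ F 𝔔 P) {σ : G} (hσ : IsFrob F 𝔔 σ) {μ : Ω}
    (hμ0 : μ ≠ 0) (hμ : aeval μ⁻¹ P = 0) :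
    ∃ v ∈ inv ρ F 𝔔, v ≠ 0 ∧ ρ σ⁻¹ v = μ • v := by
  obtain ⟨h, hPe⟩ := hP σ hσ
  have h1 : Module.End.HasEigenvalue ((ρ σ⁻¹).restrict h) μ := by
    rw [Module.End.hasEigenvalue_iff_isRoot_charpoly, IsRoot.def, ← eval_reverse_iff hμ0, ← hPe,
      eval_map_algebraMap]
    exact hμ
  obtain ⟨⟨v, hv⟩, hv1, hv2⟩ := h1.exists_hasEigenvector
  refine ⟨v, hv, fun h0 => hv2 (Subtype.ext h0), ?_⟩
  have := Module.End.mem_eigenspace_iff.mp hv1
  exact congrArg Subtype.val this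

lemma factor_ne_zero (hP : IsLocalFactor ρ F 𝔔 P) {σ : G} (hσ : IsFrob F 𝔔 σ) : P ≠ 0 := by
  obtain ⟨h, hPe⟩ := hP σ hσ
  rintro rfl
  rw [Polynomial.map_zero] at hPe
  have h1 := (LinearMap.charpoly_monic ((ρ σ⁻¹).restrict h)).ne_zero
  exact h1 (by rwa [eq_comm, reverse_eq_zero] at hPe)

lemma factor_unique (hP : IsLocalFactor ρ F 𝔔 P) {P' : ℚ[X]} (hP' : IsLocalFactor ρ F 𝔔 P')
    {σ : G} (hσ : IsFrob F 𝔔 σ) : P = P' := by
  obtain ⟨h, hPe⟩ := hP σ hσ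
  obtain ⟨h', hPe'⟩ := hP' σ hσ
  apply map_injective (algebraMap ℚ Ω) (algebraMap ℚ Ω).injective
  rw [hPe, hPe']

/-- evaluation at rational points may be done in `Ω` or in `ℂ` -/
lemma aeval_rat_iff (P : ℚ[X]) (r : ℚ) : aeval ((r : ℚ) : Ω) P = 0 ↔ aeval ((r : ℚ) : ℂ) P = 0 := by
  have h1 : aeval ((r : ℚ) : Ω) P = ((eval r P : ℚ) : Ω) := by
    have := aeval_algebraMap_apply Ω r P
    simpa [aeval_def] using this
  have h2 : aeval ((r : ℚ) : ℂ) P = ((eval r P : ℚ) : ℂ) := by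
    have := aeval_algebraMap_apply ℂ r P
    simpa [aeval_def] using this
  rw [h1, h2, Rat.cast_eq_zero, Rat.cast_eq_zero]

end Pool.Agent.H6.TW
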