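import Pool.Agent.H6.TW.Defs

set_option autoImplicit false
set_option linter.style.haveILetI false
set_option linter.unusedSectionVars false

open NumberField IsDedekindDomain Polynomial
open scoped Pointwise

namespace Pool.Agent.H6.TW

/-! ### Elements acting as a power on the residue field -/

/-- `τ` acts on the residue field at `𝔔` as `x ↦ x ^ n` -/
def FrobN (𝔔 : Ideal (𝓞 Qb)) (n : ℕ) (τ : G) : Prop := ∀ x : 𝓞 Qb, τ • x - x ^ n ∈ 𝔔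

lemma IsFrob.frobN {F : IntermediateField ℚ Qb} {𝔔 : Ideal (𝓞 Qb)} {σ : G} (h : IsFrob F 𝔔 σ) :
    FrobN 𝔔 (resCard F 𝔔) σ := h.2

lemma FrobN.mem_iff {𝔔 : Ideal (𝓞 Qb)} [h𝔔 : 𝔔.IsPrime] {n : ℕ} (hn : n ≠ 0) {τ : G}
    (h : FrobN 𝔔 n τ) (y : 𝓞 Qb) : τ • y ∈ 𝔔 ↔ y ∈ 𝔔 := by
  constructor
  · intro hy
    have h1 : y ^ n ∈ 𝔔 := by
      have h2 := 𝔔.sub_mem hy (h y)
      simpa using h2
    exact h𝔔.mem_of_pow_mem n h1
  · intro hy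
    have h1 := 𝔔.add_mem (h y) (𝔔.pow_mem_of_mem hy n (Nat.pos_of_ne_zero hn))
    simpa using h1

lemma FrobN.inv_mul {𝔔 : Ideal (𝓞 Qb)} [𝔔.IsPrime] {n : ℕ} (hn : n ≠ 0) {τ τ' : G}
    (h : FrobN 𝔔 n τ) (h' : FrobN 𝔔 n τ') (x : 𝓞 Qb) : (τ⁻¹ * τ') • x - x ∈ 𝔔 := by
  rw [← h.mem_iff hn]
  have e : τ • ((τ⁻¹ * τ') • x - x) = τ' • x - τ • x := by
    rw [smul_sub, smul_smul, mul_inv_cancel_left]
  rw [e]
  have h1 := 𝔔.sub_mem (h' x) (h x)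
  simpa using h1

lemma pow_sub_pow_mem {𝔔 : Ideal (𝓞 Qb)} {a b : 𝓞 Qb} (h : a - b ∈ 𝔔) (m : ℕ) :
    a ^ m - b ^ m ∈ 𝔔 :=
  𝔔.mem_of_dvd (sub_dvd_pow_sub_pow a b m) h

lemma FrobN.pow {𝔔 : Ideal (𝓞 Qb)} {n : ℕ} {τ : G} (h : FrobN 𝔔 n τ) (k : ℕ) :
    FrobN 𝔔 (n ^ k) (τ ^ k) := by
  induction k with
  | zero => intro x; simp
  | succ k ih =>
    intro x
    rw [pow_succ, mul_smul]
    have h1 := ih (τ • x)
    have h2 := pow_sub_pow_mem (h x) (n ^ k)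
    have h3 := 𝔔.add_mem h1 h2
    have e : (τ ^ k • τ • x - (τ • x) ^ n ^ k) + ((τ • x) ^ n ^ k - (x ^ n) ^ n ^ k) =
        τ ^ k • τ • x - x ^ n ^ (k + 1) := by
      rw [sub_add_sub_cancel, ← pow_mul, pow_succ' n k]
    rw [e] at h3
    exact h3

lemma FrobN.conj {𝔔 : Ideal (𝓞 Qb)} {n : ℕ} {τ g : G} (h : FrobN (g • 𝔔) n τ) :
    FrobN 𝔔 n (g⁻¹ * τ * g) := by
  intro x
  rw [← Ideal.smul_mem_pointwise_smul_iff (a := g)]
  have h1 := h (g • x)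
  have e : g • ((g⁻¹ * τ * g) • x - x ^ n) = τ • g • x - (g • x) ^ n := by
    rw [smul_sub, smul_smul, smul_pow', smul_smul]
    congr 2
    group
  rw [e]
  exact h1

/-! ### Residue fields -/

section Res

variable (F : IntermediateField ℚ Qb) [NumberField F]

instance instPrimeComap (𝔔 : Ideal (𝓞 Qb)) [𝔔.IsPrime] :
    (𝔔.comap (algebraMap (𝓞 F) (𝓞 Qb))).IsPrime := Ideal.comap_isPrime _ _

lemma comap_ne_bot {𝔔 : Ideal (𝓞 Qb)} (h : 𝔔 ≠ ⊥) :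
    𝔔.comap (algebraMap (𝓞 F) (𝓞 Qb)) ≠ ⊥ := by
  intro h0
  apply h
  exact Ideal.eq_bot_of_comap_eq_bot h0

/-- the place of `F` below `𝔔` -/
noncomputable def placeBelow (𝔔 : Ideal (𝓞 Qb)) (hp : 𝔔.IsPrime) (h : 𝔔 ≠ ⊥) :
    HeightOneSpectrum (𝓞 F) :=
  ⟨𝔔.comap (algebraMap (𝓞 F) (𝓞 Qb)), Ideal.comap_isPrime _ _, comap_ne_bot F h⟩

lemma below_def (𝔔 : Ideal (𝓞 Qb)) : below F 𝔔 = 𝔔.comap (algebraMap (𝓞 F) (𝓞 Qb)) := rfl

lemma resCard_eq_absNorm (𝔔 : Ideal (𝓞 Qb)) :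
    resCard F 𝔔 = Ideal.absNorm (𝔔.comap (algebraMap (𝓞 F) (𝓞 Qb))) := by
  rw [Ideal.absNorm_apply]
  rfl

lemma one_lt_resCard {𝔔 : Ideal (𝓞 Qb)} (hp : 𝔔.IsPrime) (h : 𝔔 ≠ ⊥) : 1 < resCard F 𝔔 := by
  rw [resCard_eq_absNorm]
  have h1 : Ideal.absNorm (𝔔.comap (algebraMap (𝓞 F) (𝓞 Qb))) ≠ 0 := by
    rw [Ne, Ideal.absNorm_eq_zero_iff]
    exact comap_ne_bot F h
  have h2 : Ideal.absNorm (𝔔.comap (algebraMap (𝓞 F) (𝓞 Qb))) ≠ 1 := by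
    rw [Ne, Ideal.absNorm_eq_one_iff]
    exact (Ideal.comap_isPrime (algebraMap (𝓞 F) (𝓞 Qb)) 𝔔).ne_top
  omega

lemma resCard_ne_zero {𝔔 : Ideal (𝓞 Qb)} (hp : 𝔔.IsPrime) (h : 𝔔 ≠ ⊥) : resCard F 𝔔 ≠ 0 := by
  have := one_lt_resCard F hp h
  omega

/-- the residue field of a larger field -/
lemma resCard_pow {F' : IntermediateField ℚ Qb} [NumberField F'] (hF : F ≤ F')
    {𝔔 : Ideal (𝓞 Qb)} (hp : 𝔔.IsPrime) (h : 𝔔 ≠ ⊥) :
    ∃ f : ℕ, resCard F' 𝔔 = resCard F 𝔔 ^ f := by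
  letI : Algebra F F' := (IntermediateField.inclusion hF).toRingHom.toAlgebra
  haveI : IsScalarTower F F' Qb := IsScalarTower.of_algebraMap_eq fun _ => rfl
  set P' := 𝔔.comap (algebraMap (𝓞 F') (𝓞 Qb)) with hP'
  set P := 𝔔.comap (algebraMap (𝓞 F) (𝓞 Qb)) with hP
  haveI : P'.IsPrime := Ideal.comap_isPrime _ _
  haveI : P.IsPrime := Ideal.comap_isPrime _ _
  haveI : P.IsMaximal := Ideal.IsPrime.isMaximal inferInstance (comap_ne_bot F h)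
  haveI hlo : P'.LiesOver P := by
    constructor
    ext x
    simp only [hP', hP, Ideal.under_def, Ideal.mem_comap]
    rfl
  letI : Field (𝓞 F ⧸ P) := Ideal.Quotient.field P
  have hne : Nat.card (𝓞 F' ⧸ P') ≠ 0 := resCard_ne_zero F' hp h
  haveI : Finite (𝓞 F' ⧸ P') := Nat.finite_of_card_ne_zero hne
  haveI : Finite (𝓞 F ⧸ P) := Nat.finite_of_card_ne_zero (resCard_ne_zero F hp h)
  refine ⟨Module.finrank (𝓞 F ⧸ P) (𝓞 F' ⧸ P'), ?_⟩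
  change Nat.card (𝓞 F' ⧸ P') = Nat.card (𝓞 F ⧸ P) ^ _
  exact Module.natCard_eq_pow_finrank

end Res

/-! ### Transitivity and existence of Frobenius elements -/

section Exist

variable (F : IntermediateField ℚ Qb) [NumberField F]

instance instAlgClosureQb : IsAlgClosure ℚ Qb := by
  have e : (DivisionRing.toRatAlgebra : Algebra ℚ (AlgebraicClosure ℚ)) =
    AlgebraicClosure.instAlgebra ℚ := Subsingleton.elim _ _
  rw [e]
  infer_instance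

instance instAlgQb : Algebra.IsAlgebraic ℚ Qb := IsAlgClosure.isAlgebraic

instance instGalQb : IsGalois ℚ Qb := IsAlgClosure.isGalois ℚ Qb

instance instGal : IsGalois F Qb := IsGalois.tower_top_intermediateField F

instance instIntQb : Algebra.IsIntegral F Qb := inferInstance

/-- restriction of scalars -/
noncomputable def toG (g : Qb ≃ₐ[F] Qb) : G := g.restrictScalars ℚ

lemma toG_smul (g : Qb ≃ₐ[F] Qb) (x : 𝓞 Qb) : toG F g • x = g • x := rfl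

lemma toG_fix (g : Qb ≃ₐ[F] Qb) (x : Qb) (hx : x ∈ F) : toG F g x = x :=
  g.commutes ⟨x, hx⟩

instance instSMulComm : SMulCommClass (Qb ≃ₐ[F] Qb) (𝓞 F) (𝓞 Qb) := by
  refine ⟨fun g a x => ?_⟩
  apply Subtype.ext
  change g (((a : F) : Qb) * (x : Qb)) = ((a : F) : Qb) * g (x : Qb)
  rw [map_mul]
  congr 1
  exact g.commutes (a : F)

instance instIsInvariant : Algebra.IsInvariant (𝓞 F) (𝓞 Qb) (Qb ≃ₐ[F] Qb) := by
  refine ⟨fun b hb => ?_⟩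
  have h1 : (b : Qb) ∈ (⊥ : IntermediateField F Qb) := by
    rw [InfiniteGalois.mem_bot_iff_fixed]
    intro g
    exact congrArg (fun y : 𝓞 Qb => (y : Qb)) (hb g)
  rw [IntermediateField.mem_bot] at h1
  obtain ⟨y, hy⟩ := h1
  have hint : IsIntegral ℤ y := by
    rw [← isIntegral_algebraMap_iff (algebraMap F Qb).injective, hy]
    exact b.2
  refine ⟨⟨y, hint⟩, ?_⟩
  apply Subtype.ext
  exact hy

local instance : TopologicalSpace (𝓞 Qb) := ⊥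
local instance : DiscreteTopology (𝓞 Qb) := ⟨rfl⟩

instance instContSMul : ContinuousSMul (Qb ≃ₐ[F] Qb) (𝓞 Qb) := by
  rw [continuousSMul_iff_stabilizer_isOpen]
  intro x
  have h := stabilizer_isOpen_of_isIntegral (K := F) (L := Qb) (x : Qb)
  convert h using 1
  ext g
  simp only [SetLike.mem_coe, MulAction.mem_stabilizer_iff]
  constructor
  · intro hg
    exact congrArg (fun y : 𝓞 Qb => (y : Qb)) hg
  · intro hg
    exact Subtype.ext hg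

/-- transitivity -/
lemma exists_conj {𝔔 𝔔' : Ideal (𝓞 Qb)} (h : 𝔔.IsPrime) (h' : 𝔔'.IsPrime)
    (he : 𝔔.comap (algebraMap (𝓞 F) (𝓞 Qb)) = 𝔔'.comap (algebraMap (𝓞 F) (𝓞 Qb))) :
    ∃ g : G, (∀ x ∈ F, g x = x) ∧ 𝔔' = g • 𝔔 := by
  obtain ⟨g, hg⟩ := Algebra.IsInvariant.exists_smul_of_under_eq_of_profinite
    (A := 𝓞 F) (B := 𝓞 Qb) (G := Qb ≃ₐ[F] Qb) 𝔔 𝔔' he
  refine ⟨toG F g, toG_fix F g, ?_⟩
  rw [hg]
  ext x
  rw [Ideal.mem_pointwise_smul_iff_inv_smul_mem, Ideal.mem_pointwise_smul_iff_inv_smul_mem]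
  rfl

lemma exists_isFrob {𝔔 : Ideal (𝓞 Qb)} (h : 𝔔.IsPrime) (hne : 𝔔 ≠ ⊥) :
    ∃ σ : G, IsFrob F 𝔔 σ := by
  set P := 𝔔.comap (algebraMap (𝓞 F) (𝓞 Qb)) with hP
  haveI : P.IsPrime := Ideal.comap_isPrime _ _
  haveI : P.IsMaximal := Ideal.IsPrime.isMaximal inferInstance (comap_ne_bot F hne)
  haveI hlo : 𝔔.LiesOver P := ⟨rfl⟩
  haveI : Algebra.IsIntegral (𝓞 F) (𝓞 Qb) := inferInstance
  haveI : 𝔔.IsMaximal := Ideal.IsMaximal.of_liesOver_isMaximal 𝔔 P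
  letI : Field (𝓞 F ⧸ P) := Ideal.Quotient.field P
  letI : Field (𝓞 Qb ⧸ 𝔔) := Ideal.Quotient.field 𝔔
  have hcard : Nat.card (𝓞 F ⧸ P) ≠ 0 := resCard_ne_zero F h hne
  haveI : Finite (𝓞 F ⧸ P) := Nat.finite_of_card_ne_zero hcard
  cases nonempty_fintype (𝓞 F ⧸ P)
  obtain ⟨p, hc⟩ := CharP.exists (𝓞 F ⧸ P)
  obtain ⟨k, hp, hk⟩ := FiniteField.card (𝓞 F ⧸ P) p
  haveI := CharP.of_ringHom_of_ne_zero (algebraMap (𝓞 F ⧸ P) (𝓞 Qb ⧸ 𝔔)) p hp.ne_zero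
  haveI : ExpChar (𝓞 Qb ⧸ 𝔔) p := .prime hp
  haveI : Algebra.IsAlgebraic (𝓞 F ⧸ P) (𝓞 Qb ⧸ 𝔔) := by
    haveI : Algebra.IsIntegral (𝓞 F ⧸ P) (𝓞 Qb ⧸ 𝔔) := inferInstance
    infer_instance
  haveI : PerfectField (𝓞 Qb ⧸ 𝔔) := Algebra.IsAlgebraic.perfectField (K := 𝓞 F ⧸ P)
  haveI : PerfectRing (𝓞 Qb ⧸ 𝔔) p := PerfectField.toPerfectRing p
  let l : (𝓞 Qb ⧸ 𝔔) ≃ₐ[𝓞 F ⧸ P] 𝓞 Qb ⧸ 𝔔 :=
    { __ := iterateFrobeniusEquiv (𝓞 Qb ⧸ 𝔔) p k,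
      commutes' r := by
        dsimp [iterateFrobenius_def]
        rw [← map_pow, ← hk, FiniteField.pow_card] }
  obtain ⟨σ, hσ⟩ := Ideal.Quotient.stabilizerHom_surjective_of_profinite
    (A := 𝓞 F) (B := 𝓞 Qb) (G := Qb ≃ₐ[F] Qb) P 𝔔 l
  refine ⟨toG F σ, toG_fix F _, fun x => ?_⟩
  have hq : resCard F 𝔔 = p ^ (k : ℕ) := by
    change Nat.card (𝓞 F ⧸ P) = _
    rw [Nat.card_eq_fintype_card, hk]
  rw [hq, ← Ideal.Quotient.eq]
  exact DFunLike.congr_fun hσ (Ideal.Quotient.mk 𝔔 x)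

end Exist

/-! ### Invariants under a change of the field and conjugation -/

section Inv

variable {Ω V : Type} [Field Ω] [AddCommGroup V] [Module Ω V] (ρ : Representation Ω G V)

lemma inertia_mono {F F' : IntermediateField ℚ Qb} (h : F ≤ F') {𝔔 : Ideal (𝓞 Qb)} {g : G}
    (hg : g ∈ inertia F' 𝔔) : g ∈ inertia F 𝔔 :=
  ⟨fun x hx => hg.1 x (h hx), hg.2⟩

lemma fix_inv {F : IntermediateField ℚ Qb} {g : G} (hg : ∀ x ∈ F, g x = x) :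
    ∀ x ∈ F, g⁻¹ x = x := by
  intro x hx
  have h1 := hg x hx
  have h2 : g⁻¹ (g x) = x := by
    change (g⁻¹ * g) x = x
    rw [inv_mul_cancel]; rfl
  rw [h1] at h2
  exact h2

lemma fix_mul {F : IntermediateField ℚ Qb} {g h : G} (hg : ∀ x ∈ F, g x = x)
    (hh : ∀ x ∈ F, h x = x) : ∀ x ∈ F, (g * h) x = x := by
  intro x hx
  change g (h x) = x
  rw [hh x hx, hg x hx]

lemma fix_pow {F : IntermediateField ℚ Qb} {g : G} (hg : ∀ x ∈ F, g x = x) (k : ℕ) :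
    ∀ x ∈ F, (g ^ k) x = x := by
  induction k with
  | zero => intro x _; rfl
  | succ k ih => rw [pow_succ]; exact fix_mul ih hg

lemma inertia_conj {F : IntermediateField ℚ Qb} {𝔔 : Ideal (𝓞 Qb)} {g h : G}
    (hg : ∀ x ∈ F, g x = x) (hh : h ∈ inertia F (g • 𝔔)) : g⁻¹ * h * g ∈ inertia F 𝔔 := by
  refine ⟨fix_mul (fix_mul (fix_inv hg) hh.1) hg, fun x => ?_⟩
  rw [← Ideal.smul_mem_pointwise_smul_iff (a := g)]
  have h1 := hh.2 (g • x)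
  have e : g • ((g⁻¹ * h * g) • x - x) = h • g • x - g • x := by
    rw [smul_sub, smul_smul, smul_smul]
    congr 2
    group
  rw [e]
  exact h1

lemma comap_smul {F : IntermediateField ℚ Qb} {𝔔 : Ideal (𝓞 Qb)} {g : G}
    (hg : ∀ x ∈ F, g x = x) :
    (g • 𝔔).comap (algebraMap (𝓞 F) (𝓞 Qb)) = 𝔔.comap (algebraMap (𝓞 F) (𝓞 Qb)) := by
  ext x
  rw [Ideal.mem_comap, Ideal.mem_comap, Ideal.mem_pointwise_smul_iff_inv_smul_mem]
  have h1 : g⁻¹ • (algebraMap (𝓞 F) (𝓞 Qb) x) = algebraMap (𝓞 F) (𝓞 Qb) x := by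
    apply Subtype.ext
    exact fix_inv hg _ (x : F).2
  rw [h1]

lemma resCard_smul {F : IntermediateField ℚ Qb} {𝔔 : Ideal (𝓞 Qb)} {g : G}
    (hg : ∀ x ∈ F, g x = x) : resCard F (g • 𝔔) = resCard F 𝔔 := by
  unfold resCard below
  rw [comap_smul hg]

lemma rho_mul_apply (g h : G) (v : V) : ρ (g * h) v = ρ g (ρ h v) := by
  rw [map_mul]; rfl

/-- Frobenius invariance of the inertia group -/
lemma inv_stable {F : IntermediateField ℚ Qb} [NumberField F] {𝔔 : Ideal (𝓞 Qb)}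
    (hp : 𝔔.IsPrime) (hne : 𝔔 ≠ ⊥) {σ : G} (hσ : IsFrob F 𝔔 σ) :
    ∀ v ∈ inv ρ F 𝔔, ρ σ⁻¹ v ∈ inv ρ F 𝔔 := by
  intro v hv g hg
  have h1 : σ * g * σ⁻¹ ∈ inertia F 𝔔 := by
    refine ⟨fix_mul (fix_mul hσ.1 hg.1) (fix_inv hσ.1), fun x => ?_⟩
    have h2 := hg.2 (σ⁻¹ • x)
    rw [← hσ.frobN.mem_iff (resCard_ne_zero F hp hne)] at h2
    have e : σ • (g • σ⁻¹ • x - σ⁻¹ • x) = (σ * g * σ⁻¹) • x - x := by
      rw [smul_sub, smul_smul, smul_smul, smul_smul, mul_inv_cancel, one_smul]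
    rw [← e]
    exact h2
  have h3 := hv _ h1
  rw [← rho_mul_apply]
  have e2 : g * σ⁻¹ = σ⁻¹ * (σ * g * σ⁻¹) := by group
  rw [e2, rho_mul_apply, h3]

/-- an eigenvector of the geometric Frobenius of `F` at `𝔔` in the invariants gives one for
every larger field and every prime over the same place -/
lemma transfer {F F' : IntermediateField ℚ Qb} [NumberField F] [NumberField F'] (hF : F ≤ F')
    {𝔔 : Ideal (𝓞 Qb)} (hp : 𝔔.IsPrime) (hne : 𝔔 ≠ ⊥) {σ : G} (hσ : IsFrob F 𝔔 σ) {v : V}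
    (hv : v ∈ inv ρ F 𝔔) {μ : Ω} (hμ : ρ σ⁻¹ v = μ • v) {g : G} (hg : ∀ x ∈ F, g x = x) {σ' : G}
    (hσ' : IsFrob F' (g • 𝔔) σ') :
    ρ g v ∈ inv ρ F' (g • 𝔔) ∧
      ∃ f : ℕ, resCard F' (g • 𝔔) = resCard F 𝔔 ^ f ∧ ρ σ'⁻¹ (ρ g v) = μ ^ f • ρ g v := by
  constructor
  · intro h hh
    have h1 := inertia_conj hg (inertia_mono hF hh)
    have h2 := hv _ h1
    rw [← rho_mul_apply]
    have e : h * g = g * (g⁻¹ * h * g) := by group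
    rw [e, rho_mul_apply, h2]
  · have hp' : (g • 𝔔).IsPrime := inferInstance
    have hne' : g • 𝔔 ≠ ⊥ := by
      intro h0
      apply hne
      have h1 : g⁻¹ • g • 𝔔 = g⁻¹ • (⊥ : Ideal (𝓞 Qb)) := by rw [h0]
      rw [inv_smul_smul] at h1
      rw [h1, eq_bot_iff]
      intro x hx
      rw [Ideal.mem_pointwise_smul_iff_inv_smul_mem, Ideal.mem_bot] at hx
      rw [Ideal.mem_bot]
      have : g⁻¹⁻¹ • x = 0 := hx
      rw [smul_eq_zero_iff_eq] at this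
      exact this
    obtain ⟨f, hf⟩ := resCard_pow F hF hp' hne'
    rw [resCard_smul hg] at hf
    refine ⟨f, hf, ?_⟩
    have hq : resCard F' (g • 𝔔) ≠ 0 := resCard_ne_zero F' hp' hne'
    have h1 : FrobN 𝔔 (resCard F 𝔔 ^ f) (g⁻¹ * σ' * g) := by
      have := hσ'.frobN
      rw [hf] at this
      exact this.conj
    have h2 : FrobN 𝔔 (resCard F 𝔔 ^ f) (σ ^ f) := hσ.frobN.pow f
    rw [hf] at hq
    have h3 := h1.inv_mul hq h2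
    have h4 : (g⁻¹ * σ' * g)⁻¹ * σ ^ f ∈ inertia F 𝔔 := by
      refine ⟨?_, h3⟩
      exact fix_mul (fix_inv (fix_mul (fix_mul (fix_inv hg) fun x hx => hσ'.1 x (hF hx)) hg))
        (fix_pow hσ.1 f)
    have h5 : ∀ k : ℕ, ρ ((σ ^ k)⁻¹) v = μ ^ k • v := by
      intro k
      induction k with
      | zero => simp
      | succ k ih =>
        rw [pow_succ', mul_inv_rev, rho_mul_apply, hμ, map_smul, ih, smul_smul, pow_succ,
          mul_comm]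
    rw [← rho_mul_apply]
    have e : σ'⁻¹ * g = g * (((g⁻¹ * σ' * g)⁻¹ * σ ^ f) * (σ ^ f)⁻¹) := by group
    rw [e, rho_mul_apply, rho_mul_apply, h5, map_smul, hv _ h4, map_smul]

end Inv

end Pool.Agent.H6.TW
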