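import Pool.Agent.H6.TW.Gal

set_option autoImplicit false
set_option linter.style.haveILetI false
set_option linter.unusedSectionVars false

open NumberField IsDedekindDomain Polynomial
open scoped Pointwise

namespace Pool.Agent.H6.TW

/-- an element `c` of a given nonzero ideal such that `X² - X - c` has no root -/
lemma exists_no_root (K : Type) [Field K] [NumberField K] (J : Ideal (𝓞 K))
    (hne : J ≠ ⊥) : ∃ c ∈ J, ∀ y : K, y ^ 2 - y ≠ (c : K) := by
  -- an auxiliary prime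
  have hM0 : Ideal.absNorm J ≠ 0 := by rwa [Ne, Ideal.absNorm_eq_zero_iff]
  obtain ⟨ℓ, hℓ1, hℓ⟩ := Nat.exists_infinite_primes (2 + Ideal.absNorm J + 1)
  have hM : ((Ideal.absNorm J : ℕ) : 𝓞 K) ∈ J := Ideal.absNorm_mem J
  have hspan : Ideal.span {((ℓ : ℕ) : 𝓞 K)} ≠ ⊤ := by
    intro h
    rw [Ideal.span_singleton_eq_top] at h
    have h1 : IsUnit (Algebra.norm ℤ ((ℓ : ℕ) : 𝓞 K)) := h.map _
    have h2 : ((ℓ : ℕ) : 𝓞 K) = algebraMap ℤ (𝓞 K) (ℓ : ℤ) := by simp
    rw [h2, Algebra.norm_algebraMap, isUnit_pow_iff (Module.finrank_pos).ne', Int.isUnit_iff] at h1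
    have := hℓ.two_le
    omega
  obtain ⟨q, hq, hqle⟩ := Ideal.exists_le_maximal _ hspan
  have hℓq : ((ℓ : ℕ) : 𝓞 K) ∈ q := hqle (Ideal.mem_span_singleton_self _)
  have hcop : ∀ a : ℕ, a ≠ 0 → a < ℓ → ((a : ℕ) : 𝓞 K) ∉ q := by
    intro a ha0 ha h
    have h1 : Nat.Coprime a ℓ := (Nat.coprime_of_lt_prime ha0 ha hℓ).symm
    have h2 : IsCoprime (a : ℤ) (ℓ : ℤ) := Nat.isCoprime_iff_coprime.mpr h1
    obtain ⟨u, v, huv⟩ := h2
    apply hq.ne_top
    rw [Ideal.eq_top_iff_one]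
    have h3 : (1 : 𝓞 K) = (u : 𝓞 K) * (a : 𝓞 K) + (v : 𝓞 K) * (ℓ : 𝓞 K) := by
      have := congrArg (fun t : ℤ => (t : 𝓞 K)) huv
      push_cast at this
      exact this.symm
    rw [h3]
    exact q.add_mem (q.mul_mem_left _ h) (q.mul_mem_left _ hℓq)
  have h4 : (4 : 𝓞 K) ∉ q := by
    intro h
    have h2 : ((2 : ℕ) : 𝓞 K) * ((2 : ℕ) : 𝓞 K) ∈ q := by
      have : ((2 : ℕ) : 𝓞 K) * ((2 : ℕ) : 𝓞 K) = 4 := by norm_num
      rw [this]; exact h
    rcases hq.isPrime.mem_or_mem h2 with h3 | h3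
    · exact hcop 2 (by norm_num) (by omega) h3
    · exact hcop 2 (by norm_num) (by omega) h3
  have hqne : q ≠ ⊥ := by
    rintro rfl
    rw [Ideal.mem_bot] at hℓq
    exact hℓ.ne_zero (by exact_mod_cast hℓq)
  obtain ⟨π, hπ1, hπ2⟩ := Ideal.exists_mem_pow_notMem_pow_succ q hqne hq.ne_top 1
  rw [pow_one] at hπ1
  have hsup : J ⊔ q ^ 2 = ⊤ := by
    apply Ideal.sup_pow_eq_top
    by_contra hc
    obtain ⟨m, hm, hmle⟩ := Ideal.exists_le_maximal _ hc
    have h1 : q = m := hq.eq_of_le hm.ne_top (le_sup_right.trans hmle)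
    apply hcop _ hM0 (by omega)
    rw [h1]
    exact hmle (Ideal.mem_sup_left hM)
  have hsup2 : Ideal.span {(4 : 𝓞 K)} ⊔ q ^ 2 = ⊤ := by
    apply Ideal.sup_pow_eq_top
    by_contra hc
    obtain ⟨m, hm, hmle⟩ := Ideal.exists_le_maximal _ hc
    have h1 : q = m := hq.eq_of_le hm.ne_top (le_sup_right.trans hmle)
    apply h4
    rw [h1]
    exact hmle (Ideal.mem_sup_left (Ideal.mem_span_singleton_self _))
  obtain ⟨a, ha, b, hb, hab⟩ := Submodule.mem_sup.mp
    ((Ideal.eq_top_iff_one _).mp hsup)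
  obtain ⟨t, ht, v, hv, htv⟩ := Submodule.mem_sup.mp
    ((Ideal.eq_top_iff_one _).mp hsup2)
  obtain ⟨u, rfl⟩ := Ideal.mem_span_singleton'.mp ht
  refine ⟨a * (u * (π - 1)), J.mul_mem_right _ ha, ?_⟩
  intro y hy
  have hyint : IsIntegral ℤ y := by
    have h1 : IsIntegral (𝓞 K) y := by
      refine ⟨X ^ 2 - X - C (a * (u * (π - 1))), ?_, ?_⟩
      · monicity!
      · simp only [eval₂_sub, eval₂_pow, eval₂_X, eval₂_C]
        rw [hy]; simp
    exact isIntegral_trans (R := ℤ) (A := 𝓞 K) y h1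
  set Y : 𝓞 K := ⟨y, hyint⟩ with hY
  have hYeq : Y ^ 2 - Y = a * (u * (π - 1)) := by
    apply RingOfIntegers.ext
    exact hy
  have h5 : (2 * Y - 1) ^ 2 - π ∈ q ^ 2 := by
    have h6 : (2 * Y - 1) ^ 2 = 4 * (a * (u * (π - 1))) + 1 := by
      rw [← hYeq]; ring
    have h7 : (2 * Y - 1) ^ 2 - π = -((b + v - b * v) * (π - 1)) := by
      rw [h6]
      have e1 : a = 1 - b := by rw [← hab]; ring
      have e2 : u * 4 = 1 - v := by rw [← htv]; ring
      have : 4 * (a * (u * (π - 1))) = a * (u * 4) * (π - 1) := by ring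
      rw [this, e1, e2]
      ring
    rw [h7]
    refine (q ^ 2).neg_mem ((q ^ 2).mul_mem_right _ ?_)
    exact (q ^ 2).sub_mem ((q ^ 2).add_mem hb hv) ((q ^ 2).mul_mem_right _ hb)
  have h8 : 2 * Y - 1 ∈ q := by
    have h9 : (2 * Y - 1) ^ 2 ∈ q := by
      have h10 : (2 * Y - 1) ^ 2 - π ∈ q := Ideal.pow_le_self (by norm_num) h5
      have := q.add_mem h10 hπ1
      simpa using this
    exact hq.isPrime.mem_of_pow_mem 2 h9
  apply hπ2
  have h11 : (2 * Y - 1) ^ 2 ∈ q ^ 2 := Ideal.pow_mem_pow h8 2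
  have := (q ^ 2).sub_mem h11 h5
  simpa using this

lemma smul_ne_bot {𝔔 : Ideal (𝓞 Qb)} (hne : 𝔔 ≠ ⊥) (g : G) : g • 𝔔 ≠ ⊥ := by
  intro h0
  apply hne
  have h1 : g⁻¹ • g • 𝔔 = g⁻¹ • (⊥ : Ideal (𝓞 Qb)) := by rw [h0]
  rw [inv_smul_smul] at h1
  rw [h1, eq_bot_iff]
  intro x hx
  rw [Ideal.mem_pointwise_smul_iff_inv_smul_mem, Ideal.mem_bot] at hx
  rw [Ideal.mem_bot]
  have : g⁻¹⁻¹ • x = 0 := hx
  rw [smul_eq_zero_iff_eq] at this
  exact this

/-- a quadratic extension in which finitely many primes split -/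
lemma exists_split (F : IntermediateField ℚ Qb) [NumberField F] (s : Finset (Ideal (𝓞 Qb)))
    (hs : ∀ 𝔔 ∈ s, 𝔔.IsPrime ∧ 𝔔 ≠ ⊥) :
    ∃ (F' : IntermediateField ℚ Qb) (_ : NumberField F') (_ : F ≤ F') (g : G),
      Module.finrank ℚ F' ≤ 2 * Module.finrank ℚ F ∧ (∀ x ∈ F, g x = x) ∧
      ∀ 𝔔 ∈ s, 𝔔.comap (algebraMap (𝓞 F') (𝓞 Qb)) ≠
        (g • 𝔔).comap (algebraMap (𝓞 F') (𝓞 Qb)) := by
  classical
  set J : Ideal (𝓞 F) := ∏ 𝔔 ∈ s, 𝔔.comap (algebraMap (𝓞 F) (𝓞 Qb)) with hJ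
  have hJne : J ≠ ⊥ := by
    rw [hJ, ← Ideal.zero_eq_bot, Finset.prod_ne_zero_iff]
    intro 𝔔 h𝔔
    rw [Ideal.zero_eq_bot]
    exact comap_ne_bot F (hs 𝔔 h𝔔).2
  obtain ⟨c, hc, hroot⟩ := exists_no_root F J hJne
  have hc' : ∀ 𝔔 ∈ s, c ∈ 𝔔.comap (algebraMap (𝓞 F) (𝓞 Qb)) := by
    intro 𝔔 h𝔔
    have h1 : J ≤ 𝔔.comap (algebraMap (𝓞 F) (𝓞 Qb)) :=
      Ideal.le_of_dvd (Finset.dvd_prod_of_mem _ h𝔔)
    exact h1 hc
  haveI : IsAlgClosed Qb := inferInstance
  obtain ⟨z, hz⟩ := IsAlgClosed.exists_pow_nat_eq (1 + 4 * (((c : F) : Qb))) (n := 2) (by norm_num)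
  set y : Qb := (1 + z) / 2 with hy
  have hyc : y ^ 2 - y = ((c : F) : Qb) := by
    have h1 : y ^ 2 - y = (z ^ 2 - 1) / 4 := by rw [hy]; ring
    rw [h1, hz]; ring
  have hyF : y ∉ (⊥ : IntermediateField F Qb) := by
    intro h
    rw [IntermediateField.mem_bot] at h
    obtain ⟨y', hy'⟩ := h
    apply hroot y'
    apply (algebraMap F Qb).injective
    rw [map_sub, map_pow, hy', hyc]
    rfl
  rw [InfiniteGalois.mem_bot_iff_fixed] at hyF
  push Not at hyF
  obtain ⟨g₀, hg₀⟩ := hyF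
  set g : G := toG F g₀ with hg
  have hgy : g y = 1 - y := by
    have h1 : (g y) ^ 2 - g y = y ^ 2 - y := by
      rw [hyc, ← map_pow, ← map_sub, hyc]
      exact toG_fix F g₀ _ (c : F).2
    have h2 : (g y - y) * (g y + y - 1) = 0 := by linear_combination h1
    rcases mul_eq_zero.mp h2 with h3 | h3
    · exact absurd (sub_eq_zero.mp h3) hg₀
    · linear_combination h3
  have hyint : IsIntegral ℤ y := by
    have h1 : IsIntegral (𝓞 Qb) y := by
      refine ⟨X ^ 2 - X - C (algebraMap (𝓞 F) (𝓞 Qb) c), ?_, ?_⟩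
      · monicity!
      · simp only [eval₂_sub, eval₂_pow, eval₂_X, eval₂_C]
        rw [hyc, sub_eq_zero]
        rfl
    exact isIntegral_trans (R := ℤ) (A := 𝓞 Qb) y h1
  set Y : 𝓞 Qb := ⟨y, hyint⟩ with hY
  -- the quadratic extension
  have hyFint : IsIntegral F y := by
    refine ⟨X ^ 2 - X - C ((c : F)), ?_, ?_⟩
    · monicity!
    · simp only [eval₂_sub, eval₂_pow, eval₂_X, eval₂_C]
      rw [hyc, sub_eq_zero]
      rfl
  have hdeg : Module.finrank F (IntermediateField.adjoin F ({y} : Set Qb)) ≤ 2 := by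
    rw [IntermediateField.adjoin.finrank hyFint]
    have h1 : minpoly F y ∣ (X ^ 2 - X - C ((c : F))) := by
      apply minpoly.dvd
      simp only [map_sub, map_pow, aeval_X, aeval_C]
      rw [hyc, sub_eq_zero]
      rfl
    have h2 : (X ^ 2 - X - C ((c : F)) : F[X]).natDegree = 2 := by compute_degree!
    have h3 : (X ^ 2 - X - C ((c : F)) : F[X]) ≠ 0 := by
      intro h0
      rw [h0, natDegree_zero] at h2
      exact absurd h2 (by norm_num)
    rw [← h2]
    exact natDegree_le_of_dvd h1 h3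
  haveI hfd0 : FiniteDimensional F (IntermediateField.adjoin F ({y} : Set Qb)) :=
    IntermediateField.adjoin.finiteDimensional hyFint
  haveI : FiniteDimensional ℚ F := NumberField.to_finiteDimensional
  set F' : IntermediateField ℚ Qb :=
    (IntermediateField.adjoin F ({y} : Set Qb)).restrictScalars ℚ with hF'
  haveI hfd1 : FiniteDimensional ℚ (IntermediateField.adjoin F ({y} : Set Qb)) :=
    Module.Finite.trans F _
  haveI hfd2 : FiniteDimensional ℚ F' := hfd1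
  have hyF' : y ∈ F' := IntermediateField.mem_adjoin_simple_self F y
  have hFF' : F ≤ F' := by
    intro x hx
    exact (IntermediateField.adjoin F ({y} : Set Qb)).algebraMap_mem ⟨x, hx⟩
  have hnf : NumberField F' := { to_charZero := inferInstance, to_finiteDimensional := hfd2 }
  have hrank : Module.finrank ℚ F' ≤ 2 * Module.finrank ℚ F := by
    have h1 : Module.finrank ℚ F * Module.finrank F (IntermediateField.adjoin F ({y} : Set Qb)) =
        Module.finrank ℚ (IntermediateField.adjoin F ({y} : Set Qb)) := Module.finrank_mul_finrank _ _ _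
    have h2 : Module.finrank ℚ F' =
        Module.finrank ℚ (IntermediateField.adjoin F ({y} : Set Qb)) := rfl
    rw [h2, ← h1, mul_comm]
    exact Nat.mul_le_mul_right _ hdeg
  refine ⟨F', hnf, hFF', g, hrank, toG_fix F g₀, ?_⟩
  intro 𝔔 h𝔔 heq
  have hyint' : IsIntegral ℤ (⟨y, hyF'⟩ : F') := by
    rw [← isIntegral_algebraMap_iff (algebraMap F' Qb).injective]
    exact hyint
  have hmem : Y ∈ 𝔔 ↔ Y ∈ g • 𝔔 := by
    have h1 := congrArg (fun I => (⟨⟨y, hyF'⟩, hyint'⟩ : 𝓞 F') ∈ I) heq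
    exact iff_of_eq h1
  have hprod : Y * (Y - 1) ∈ 𝔔 := by
    have h1 : Y * (Y - 1) = algebraMap (𝓞 F) (𝓞 Qb) c := by
      apply RingOfIntegers.ext
      have : y * (y - 1) = ((c : F) : Qb) := by rw [← hyc]; ring
      exact this
    rw [h1]
    exact hc' 𝔔 h𝔔
  have hgY : g • Y = 1 - Y := by
    apply RingOfIntegers.ext
    exact hgy
  have hp := (hs 𝔔 h𝔔).1
  haveI : (g • 𝔔).IsPrime := inferInstance
  rcases hp.mem_or_mem hprod with h1 | h1
  · have h2 : Y ∈ g • 𝔔 := hmem.mp h1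
    have h3 : g • Y ∈ g • 𝔔 := Ideal.smul_mem_pointwise_smul g Y 𝔔 h1
    rw [hgY] at h3
    have h4 := (g • 𝔔).add_mem h2 h3
    rw [add_sub_cancel] at h4
    exact (inferInstance : (g • 𝔔).IsPrime).ne_top ((Ideal.eq_top_iff_one _).mpr h4)
  · have h1' : 1 - Y ∈ 𝔔 := by
      have := 𝔔.neg_mem h1
      simpa using this
    have h3 : g • (1 - Y) ∈ g • 𝔔 := Ideal.smul_mem_pointwise_smul g _ 𝔔 h1'
    rw [smul_sub, smul_one, hgY, sub_sub_cancel] at h3
    have h4 : Y ∈ 𝔔 := hmem.mpr h3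
    have h5 := 𝔔.add_mem h4 h1'
    rw [add_sub_cancel] at h5
    exact hp.ne_top ((Ideal.eq_top_iff_one _).mpr h5)

/-- extensions of degree at most `2 ^ n` in which there are `2 ^ n` primes above a given one -/
lemma exists_many (F : IntermediateField ℚ Qb) [NumberField F] (𝔔 : Ideal (𝓞 Qb))
    (hp : 𝔔.IsPrime) (hne : 𝔔 ≠ ⊥) (n : ℕ) :
    ∃ (F' : IntermediateField ℚ Qb) (_ : NumberField F') (_ : F ≤ F') (s : Finset G),
      Module.finrank ℚ F' ≤ 2 ^ n * Module.finrank ℚ F ∧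
      s.card = 2 ^ n ∧ (∀ g ∈ s, ∀ x ∈ F, g x = x) ∧
      ∀ g ∈ s, ∀ h ∈ s, (g • 𝔔).comap (algebraMap (𝓞 F') (𝓞 Qb)) =
        (h • 𝔔).comap (algebraMap (𝓞 F') (𝓞 Qb)) → g = h := by
  classical
  induction n with
  | zero =>
    refine ⟨F, inferInstance, le_rfl, {1}, by simp, by simp, ?_, ?_⟩
    · intro g hg x _
      rw [Finset.mem_singleton] at hg
      rw [hg]; rfl
    · intro g hg h hh _
      rw [Finset.mem_singleton] at hg hh
      rw [hg, hh]
  | succ n ih =>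
    obtain ⟨F', hF', hFF', s, hrk, hs, hfix, hinj⟩ := ih
    obtain ⟨F'', hF'', hF'F'', g, hrk2, hg, hgne⟩ := exists_split F' (s.image fun h => h • 𝔔) (by
      intro I hI
      obtain ⟨h, _, rfl⟩ := Finset.mem_image.mp hI
      exact ⟨inferInstance, smul_ne_bot hne h⟩)
    have hFg : ∀ x ∈ F, g x = x := fun x hx => hg x (hFF' hx)
    -- comaps in `F''` determine comaps in `F'`
    have hdown : ∀ I J : Ideal (𝓞 Qb), I.comap (algebraMap (𝓞 F'') (𝓞 Qb)) =
        J.comap (algebraMap (𝓞 F'') (𝓞 Qb)) → I.comap (algebraMap (𝓞 F') (𝓞 Qb)) =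
        J.comap (algebraMap (𝓞 F') (𝓞 Qb)) := by
      intro I J hIJ
      ext x
      have hx : ((x : F') : Qb) ∈ F'' := hF'F'' (x : F').2
      have hxint : IsIntegral ℤ (⟨((x : F') : Qb), hx⟩ : F'') := by
        rw [← isIntegral_algebraMap_iff (algebraMap F'' Qb).injective]
        exact (algebraMap (𝓞 F') (𝓞 Qb) x).2
      have h1 := congrArg (fun I => (⟨⟨((x : F') : Qb), hx⟩, hxint⟩ : 𝓞 F'') ∈ I) hIJ
      exact iff_of_eq h1
    have key : ∀ h ∈ s, ∀ h' ∈ s, ((g * h) • 𝔔).comap (algebraMap (𝓞 F'') (𝓞 Qb)) ≠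
        (h' • 𝔔).comap (algebraMap (𝓞 F'') (𝓞 Qb)) := by
      intro h hh h' hh' heq
      have h1 := hdown _ _ heq
      rw [mul_smul, comap_smul hg] at h1
      have h2 := hinj _ hh _ hh' h1
      rw [← h2, mul_smul] at heq
      exact hgne (h • 𝔔) (Finset.mem_image_of_mem _ hh) heq.symm
    have hdisj : Disjoint s (s.image fun h => g * h) := by
      rw [Finset.disjoint_left]
      intro h' hh' hh
      obtain ⟨h, hh1, rfl⟩ := Finset.mem_image.mp hh
      exact key h hh1 _ hh' rfl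
    refine ⟨F'', hF'', hFF'.trans hF'F'', s ∪ s.image fun h => g * h, ?_, ?_, ?_, ?_⟩
    · calc Module.finrank ℚ F'' ≤ 2 * Module.finrank ℚ F' := hrk2
        _ ≤ 2 * (2 ^ n * Module.finrank ℚ F) := Nat.mul_le_mul_left _ hrk
        _ = 2 ^ (n + 1) * Module.finrank ℚ F := by ring
    · rw [Finset.card_union_of_disjoint hdisj,
        Finset.card_image_of_injective _ (mul_right_injective g), hs]
      ring
    · intro h hh
      rcases Finset.mem_union.mp hh with hh | hh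
      · exact hfix h hh
      · obtain ⟨h', hh', rfl⟩ := Finset.mem_image.mp hh
        exact fix_mul hFg (hfix h' hh')
    · intro h hh h' hh' heq
      rcases Finset.mem_union.mp hh with hh | hh
      · rcases Finset.mem_union.mp hh' with hh' | hh'
        · exact hinj h hh h' hh' (hdown _ _ heq)
        · obtain ⟨h₁, hh₁, rfl⟩ := Finset.mem_image.mp hh'
          exact absurd heq.symm (key h₁ hh₁ h hh)
      · obtain ⟨h₁, hh₁, rfl⟩ := Finset.mem_image.mp hh
        rcases Finset.mem_union.mp hh' with hh' | hh'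
        · exact absurd heq (key h₁ hh₁ h' hh')
        · obtain ⟨h₂, hh₂, rfl⟩ := Finset.mem_image.mp hh'
          have h1 := hdown _ _ heq
          rw [mul_smul, mul_smul, comap_smul hg, comap_smul hg] at h1
          rw [hinj h₁ hh₁ h₂ hh₂ h1]

end Pool.Agent.H6.TW
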