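import Pool.Agent.H6.TW.Alg2
import Pool.Agent.H6.TW.Fac
import Pool.Agent.H6.TW.Primes
import Pool.Agent.H6.TW.Anal2

set_option autoImplicit false
set_option linter.style.haveILetI false
set_option linter.unusedSectionVars false

open NumberField IsDedekindDomain Polynomial Filter Topology TensorProduct
open scoped Pointwise

namespace Pool.Agent.H6.TW

/-! ### primes -/

lemma ne_bot_of_mem {p : Nat.Primes} {𝔔 : Ideal (𝓞 Qb)} (h : ((p : ℕ) : 𝓞 Qb) ∈ 𝔔) : 𝔔 ≠ ⊥ := by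
  rintro rfl
  rw [Ideal.mem_bot] at h
  exact p.2.ne_zero (by exact_mod_cast h)

lemma notMem_of_ne {p ℓ : Nat.Primes} {𝔔 : Ideal (𝓞 Qb)} (h𝔔 : 𝔔.IsPrime) (hne : ℓ ≠ p)
    (h : ((p : ℕ) : 𝓞 Qb) ∈ 𝔔) : ((ℓ : ℕ) : 𝓞 Qb) ∉ 𝔔 := by
  intro h'
  have h1 : Nat.Coprime (ℓ : ℕ) (p : ℕ) := by
    rw [Nat.coprime_primes ℓ.2 p.2]
    exact fun h0 => hne (Subtype.ext h0)
  have h2 : IsCoprime ((ℓ : ℕ) : ℤ) ((p : ℕ) : ℤ) := Nat.isCoprime_iff_coprime.mpr h1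
  obtain ⟨u, v, huv⟩ := h2
  apply h𝔔.ne_top
  rw [Ideal.eq_top_iff_one]
  have h3 : (1 : 𝓞 Qb) = (u : 𝓞 Qb) * ((ℓ : ℕ) : 𝓞 Qb) + (v : 𝓞 Qb) * ((p : ℕ) : 𝓞 Qb) := by
    have := congrArg (fun t : ℤ => (t : 𝓞 Qb)) huv
    push_cast at this
    exact this.symm
  rw [h3]
  exact 𝔔.add_mem (𝔔.mul_mem_left _ h') (𝔔.mul_mem_left _ h)

lemma exists_above {F : IntermediateField ℚ Qb} [NumberField F] (w : HeightOneSpectrum (𝓞 F)) :
    ∃ (p : Nat.Primes) (𝔔 : Ideal (𝓞 Qb)), LiesAbove w p 𝔔 := by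
  haveI := w.isPrime
  obtain ⟨𝔔, h1, h2⟩ := Ideal.exists_ideal_over_prime_of_isIntegral_of_isDomain
    (R := 𝓞 F) (S := 𝓞 Qb) w.asIdeal (by
      rw [(RingHom.injective_iff_ker_eq_bot _).mp (FaithfulSMul.algebraMap_injective (𝓞 F) (𝓞 Qb))]
      exact bot_le)
  -- a prime number in `w`
  haveI : Finite (𝓞 F ⧸ w.asIdeal) := by
    have h3 : Nat.card (𝓞 F ⧸ w.asIdeal) ≠ 0 := by
      have h4 := nrm_two_le w
      unfold nrm at h4
      rw [Ideal.absNorm_apply] at h4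
      have h5 : Submodule.cardQuot w.asIdeal = Nat.card (𝓞 F ⧸ w.asIdeal) := rfl
      omega
    exact Nat.finite_of_card_ne_zero h3
  obtain ⟨p, hc⟩ := CharP.exists (𝓞 F ⧸ w.asIdeal)
  haveI : IsDomain (𝓞 F ⧸ w.asIdeal) := Ideal.Quotient.isDomain _
  have hp : p.Prime := (CharP.char_is_prime_or_zero (𝓞 F ⧸ w.asIdeal) p).resolve_right
    (CharP.char_ne_zero_of_finite (𝓞 F ⧸ w.asIdeal) p)
  have hmem : ((p : ℕ) : 𝓞 F) ∈ w.asIdeal := by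
    rw [← Ideal.Quotient.eq_zero_iff_mem, map_natCast]
    exact CharP.cast_eq_zero _ _
  refine ⟨⟨p, hp⟩, 𝔔, h1, ?_, h2⟩
  rw [← h2, Ideal.mem_comap, map_natCast] at hmem
  exact hmem

lemma smul_eq_of_frobN {𝔔 : Ideal (𝓞 Qb)} (h𝔔 : 𝔔.IsPrime) {n : ℕ} (hn : n ≠ 0) {τ : G}
    (h : FrobN 𝔔 n τ) : τ • 𝔔 = 𝔔 := by
  ext x
  rw [Ideal.mem_pointwise_smul_iff_inv_smul_mem, ← h.mem_iff hn, smul_inv_smul]

instance instAlgClosedQl (ℓ : Nat.Primes) : IsAlgClosed (Ql ℓ) :=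
  (inferInstance : IsAlgClosed (AlgebraicClosure ℚ_[ℓ]))

lemma isPrimeTo_of {p ℓ : Nat.Primes} {𝔔 : Ideal (𝓞 Qb)} (h𝔔 : 𝔔.IsPrime) (hne : ℓ ≠ p)
    (h : ((p : ℕ) : 𝓞 Qb) ∈ 𝔔) : IsPrimeTo ℓ 𝔔 :=
  ⟨h𝔔, ne_bot_of_mem h, notMem_of_ne h𝔔 hne h⟩

/-! ### eigenvectors in the cohomology of products -/

section Products

variable {C : VarClass} (hC : C.Known)

include hC

/-- an eigenvector of the geometric Frobenius in the invariants of inertia -/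
def HasVec (C : VarClass) (ℓ : Nat.Primes) (F : IntermediateField ℚ Qb) (𝔔 : Ideal (𝓞 Qb)) (σ : G)
    (X : C.Var) (i : ℕ) (μ : Ql ℓ) : Prop :=
  ∃ v ∈ inv (C.H ℓ X i) F 𝔔, v ≠ 0 ∧ C.H ℓ X i σ⁻¹ v = μ • v

variable {ℓ : Nat.Primes} {F : IntermediateField ℚ Qb} {𝔔 : Ideal (𝓞 Qb)} {σ : G}

lemma HasVec.prod {X Y : C.Var} {i j k : ℕ} (hk : i + j = k) {μ ν : Ql ℓ}
    (hX : HasVec C ℓ F 𝔔 σ X i μ) (hY : HasVec C ℓ F 𝔔 σ Y j ν) :
    HasVec C ℓ F 𝔔 σ (C.prod X Y) k (μ * ν) := by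
  subst hk
  obtain ⟨κ, hinj, hequiv⟩ := hC.kuenneth ℓ X Y i j
  obtain ⟨u, hu, hu0, hu1⟩ := hX
  obtain ⟨v, hv, hv0, hv1⟩ := hY
  have heq : ∀ g, C.H ℓ (C.prod X Y) (i + j) g (κ (u ⊗ₜ[Ql ℓ] v)) =
      κ ((C.H ℓ X i g u) ⊗ₜ[Ql ℓ] (C.H ℓ Y j g v)) := by
    intro g
    rw [← hequiv, Representation.tprod_apply, TensorProduct.map_tmul]
  refine ⟨κ (u ⊗ₜ[Ql ℓ] v), ?_, ?_, ?_⟩
  · intro g hg
    rw [heq, hu g hg, hv g hg]
  · intro h0
    rw [← map_zero κ] at h0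
    exact tmul_ne_zero hu0 hv0 (hinj h0)
  · rw [heq, hu1, hv1, TensorProduct.tmul_smul, ← TensorProduct.smul_tmul', smul_smul, map_smul,
      mul_comm]

lemma HasVec.tate {p : Nat.Primes} (hℓ : ℓ ≠ p) (h𝔔 : 𝔔.IsPrime)
    (hp : ((p : ℕ) : 𝓞 Qb) ∈ 𝔔) [NumberField F] (hσ : IsFrob F 𝔔 σ) {Y : C.Var} {n : ℕ} {μ : Ql ℓ}
    (hY : HasVec C ℓ F 𝔔 σ Y n μ) (k : ℕ) :
    ∃ Y' : C.Var, HasVec C ℓ F 𝔔 σ Y' (n + k) μ := by
  induction k with
  | zero => exact ⟨Y, hY⟩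
  | succ k ih =>
    obtain ⟨Y', hY'⟩ := ih
    obtain ⟨E, hE⟩ := hC.tate p
    obtain ⟨e, he, hfix⟩ := hE ℓ 𝔔 h𝔔 hp hℓ
    have hvec : HasVec C ℓ F 𝔔 σ E 1 1 := by
      refine ⟨e, ?_, he, ?_⟩
      · intro g hg
        refine hfix g (smul_eq_of_frobN h𝔔 one_ne_zero (n := 1) ?_)
        intro x
        rw [pow_one]
        exact hg.2 x
      · rw [one_smul]
        apply hfix
        have h1 := smul_eq_of_frobN h𝔔 (resCard_ne_zero F h𝔔 (ne_bot_of_mem hp)) hσ.frobN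
        rw [inv_smul_eq_iff, h1]
    have := hY'.prod hC (k := n + (k + 1)) (by ring) hvec
    rw [mul_one] at this
    exact ⟨_, this⟩

/-- the vector in the cohomology of `X × X` -/
lemma exists_square_vec [NumberField F] {X : C.Var} {i j : ℕ}
    (h𝔔 : 𝔔.IsPrime) (hne : 𝔔 ≠ ⊥)
    {N : Module.End (Ql ℓ) (Vec ℓ (C.b X i))} (hN : IsMonodromy (C.H ℓ X i) F 𝔔 N)
    (hσ : IsFrob F 𝔔 σ) {α : Ql ℓ} {x : Vec ℓ (C.b X i)} (hα : IsWeil (resCard F 𝔔) (i + j) α)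
    (hx0 : x ≠ 0) (hx : C.H ℓ X i σ⁻¹ x = α • x) (hNx : (N ^ j) x = 0) :
    ∃ (e : ℕ) (β : Ql ℓ), 1 ≤ e ∧ IsWeil (resCard F 𝔔) (2 * i + 2 * e) β ∧
      HasVec C ℓ F 𝔔 σ (C.prod X X) (2 * i) β := by
  classical
  have hq : resCard F 𝔔 ≠ 0 := resCard_ne_zero F h𝔔 hne
  have hex : ∃ a, (N ^ (a + 1)) x = 0 := by
    obtain rfl | ⟨k, rfl⟩ : j = 0 ∨ ∃ k, j = k + 1 := by
      rcases j with _ | k
      · exact Or.inl rfl
      · exact Or.inr ⟨k, rfl⟩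
    · exact absurd (by simpa using hNx) hx0
    · exact ⟨k, hNx⟩
  set a := Nat.find hex with ha
  have ha1 : (N ^ (a + 1)) x = 0 := Nat.find_spec hex
  have ha2 : (N ^ a) x ≠ 0 := by
    rcases Nat.eq_zero_or_pos a with h0 | h0
    · rw [h0]; simpa using hx0
    · intro h1
      have h2 := Nat.find_min hex (m := a - 1) (by omega)
      apply h2
      rw [Nat.sub_add_cancel h0]
      exact h1
  have haj : a < j := by
    by_contra hc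
    push Not at hc
    apply ha2
    obtain ⟨k, hk⟩ := Nat.exists_eq_add_of_le hc
    rw [hk, add_comm, pow_add, Module.End.mul_apply, hNx, map_zero]
  obtain ⟨hnil, ⟨t, _, ht⟩, hrel⟩ := hN
  have hrel' : Rel N (C.H ℓ X i σ⁻¹) (resCard F 𝔔) := hrel σ hσ
  obtain ⟨κ, hinj, hequiv⟩ := hC.kuenneth ℓ X X i i
  have hK : ∀ (g : G) (z : Vec ℓ (C.b X i) ⊗[Ql ℓ] Vec ℓ (C.b X i)),
      C.H ℓ (C.prod X X) (i + i) g (κ z) =
        κ (TensorProduct.map (C.H ℓ X i g) (C.H ℓ X i g) z) := by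
    intro g z
    rw [← hequiv, Representation.tprod_apply]
  letI : Module ℚ (Vec ℓ (C.b X i) ⊗[Ql ℓ] Vec ℓ (C.b X i)) :=
    Module.compHom _ (algebraMap ℚ (Ql ℓ))
  have hz0 := zvec_ne_zero N a x ha1 ha2
  have hz1 := zvec_ker N a x ha1
  have hz2 := zvec_eigen hq hrel' a hx
  have hvec : HasVec C ℓ F 𝔔 σ (C.prod X X) (i + i) (α ^ 2 / (resCard F 𝔔 : Ql ℓ) ^ a) := by
    refine ⟨κ (zvec N a x), ?_, ?_, ?_⟩
    · intro g hg
      rw [hK, ht g hg, map_exp_of_ker hnil _ hz1]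
    · intro h0
      rw [← map_zero κ] at h0
      exact hz0 (hinj h0)
    · rw [hK, hz2, map_smul]
  refine ⟨j - a, α ^ 2 / (resCard F 𝔔 : Ql ℓ) ^ a, by omega, ?_, ?_⟩
  · have h1 := hα.pow hq 2
    have h2 := ((isWeil_q (Ω := Ql ℓ) (q := resCard F 𝔔)).pow hq a).inv
    have h3 := h1.mul hq h2
    rw [div_eq_mul_inv]
    convert h3 using 1
    push_cast [Nat.cast_sub haj.le]
    ring
  · have e : i + i = 2 * i := by ring
    rw [e] at hvec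
    exact hvec

/-- the vector whose eigenvalue is a power of `q` -/
lemma exists_pole_vec (c : Nat.Primes → Nat.Primes) (hrat : C.Rational c) {p : Nat.Primes}
    (hc : c p ≠ p) [NumberField F] (h𝔔 : 𝔔.IsPrime) (hp : ((p : ℕ) : 𝓞 Qb) ∈ 𝔔)
    (hσ : IsFrob F 𝔔 σ) {Z : C.Var} {i e : ℕ} (he : 1 ≤ e) {β : Ql (c p)}
    (hβ : IsWeil (resCard F 𝔔) (2 * i + 2 * e) β)
    (hZ : HasVec C (c p) F 𝔔 σ Z (2 * i) β) :
    ∃ (Y : C.Var) (m : ℕ), HasVec C (c p) F 𝔔 σ Y (2 * m) ((resCard F 𝔔 : Ql (c p)) ^ (m + 1)) := by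
  have hne := ne_bot_of_mem hp
  have hq : resCard F 𝔔 ≠ 0 := resCard_ne_zero F h𝔔 hne
  have hqΩ : (resCard F 𝔔 : Ql (c p)) ≠ 0 := by exact_mod_cast hq
  have hβ0 : β ≠ 0 := hβ.ne_zero hq
  obtain ⟨P, hP⟩ := hrat Z i F (placeBelow F 𝔔 h𝔔 hne)
  have hP' := hP p 𝔔 ⟨h𝔔, hp, rfl⟩
  obtain ⟨v, hv, hv0, hv1⟩ := hZ
  have hroot := factor_root_of_eigen hP' hσ hv hv0 hβ0 hv1
  have hconj := (hβ.inv).conj_root hq P hroot
  set μ : Ql (c p) := (resCard F 𝔔 : Ql (c p)) ^ (2 * i + 2 * e) / β with hμ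
  have hμ0 : μ ≠ 0 := div_ne_zero (pow_ne_zero _ hqΩ) hβ0
  have e1 : (resCard F 𝔔 : Ql (c p)) ^ (-((2 : ℤ) * i + 2 * e)) / β⁻¹ = μ⁻¹ := by
    rw [hμ, inv_div, zpow_neg, div_inv_eq_mul]
    have : (resCard F 𝔔 : Ql (c p)) ^ ((2 : ℤ) * i + 2 * e) =
        (resCard F 𝔔 : Ql (c p)) ^ (2 * i + 2 * e) := by
      rw [← zpow_natCast]; push_cast; rfl
    rw [this]
    field_simp
  rw [e1] at hconj
  obtain ⟨y, hy, hy0, hy1⟩ := eigen_of_factor_root hP' hσ hμ0 hconj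
  have hprod := HasVec.prod hC (k := 2 * i + 2 * i) rfl
    (⟨v, hv, hv0, hv1⟩ : HasVec C (c p) F 𝔔 σ Z (2 * i) β)
    (⟨y, hy, hy0, hy1⟩ : HasVec C (c p) F 𝔔 σ Z (2 * i) μ)
  obtain ⟨Y, hY⟩ := hprod.tate hC hc h𝔔 hp hσ (4 * e - 2)
  refine ⟨Y, 2 * i + 2 * e - 1, ?_⟩
  have e2 : 2 * i + 2 * i + (4 * e - 2) = 2 * (2 * i + 2 * e - 1) := by omega
  have e3 : β * μ = (resCard F 𝔔 : Ql (c p)) ^ (2 * i + 2 * e - 1 + 1) := by
    have e4 : 2 * i + 2 * e - 1 + 1 = 2 * i + 2 * e := by omega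
    rw [e4, hμ]
    field_simp
  rw [e2, e3] at hY
  exact hY

end Products

/-! ### local factors and places -/

section Places

variable {C : VarClass} {c : Nat.Primes → Nat.Primes} {F : IntermediateField ℚ Qb} [NumberField F]

lemma resCard_of_comap {𝔔 : Ideal (𝓞 Qb)} {w : HeightOneSpectrum (𝓞 F)}
    (h : below F 𝔔 = w.asIdeal) : resCard F 𝔔 = nrm w := by
  rw [resCard_eq_absNorm, ← below_def, h]
  rfl

lemma isFactor_unique {X : C.Var} {i : ℕ} {w : HeightOneSpectrum (𝓞 F)} {P P' : ℚ[X]}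
    (h : C.IsFactor c X i F w P) (h' : C.IsFactor c X i F w P') : P = P' := by
  obtain ⟨p, 𝔔, h𝔔, hp, hw⟩ := exists_above w
  obtain ⟨σ, hσ⟩ := exists_isFrob F h𝔔 (ne_bot_of_mem hp)
  exact factor_unique (h p 𝔔 ⟨h𝔔, hp, hw⟩) (h' p 𝔔 ⟨h𝔔, hp, hw⟩) hσ

lemma isFactor_ne_zero {X : C.Var} {i : ℕ} {w : HeightOneSpectrum (𝓞 F)} {P : ℚ[X]}
    (h : C.IsFactor c X i F w P) : P ≠ 0 := by
  obtain ⟨p, 𝔔, h𝔔, hp, hw⟩ := exists_above w
  obtain ⟨σ, hσ⟩ := exists_isFrob F h𝔔 (ne_bot_of_mem hp)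
  exact factor_ne_zero (h p 𝔔 ⟨h𝔔, hp, hw⟩) hσ

lemma purePoly_of_isGood (hc : ∀ p, c p ≠ p) {X : C.Var} {i : ℕ} {w : HeightOneSpectrum (𝓞 F)}
    {P : ℚ[X]} (h : C.IsGood X i F w) (h' : C.IsFactor c X i F w P) :
    PurePoly (C.b X i) i w P := by
  obtain ⟨P₀, h1, h4⟩ := h
  obtain ⟨p, 𝔔, h𝔔, hp, hw⟩ := exists_above w
  obtain ⟨σ, hσ⟩ := exists_isFrob F h𝔔 (ne_bot_of_mem hp)
  have h5 := factor_unique (h4 p (c p) 𝔔 ⟨h𝔔, hp, hw⟩ (hc p)).2 (h' p 𝔔 ⟨h𝔔, hp, hw⟩) hσ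
  rw [← h5]
  exact h1

/-- the value at the edge -/
lemma val_edge (N m : ℕ) (P : ℚ[X]) :
    val N P ((m : ℝ) + 1) = aeval (((((N : ℚ) ^ (m + 1))⁻¹ : ℚ)) : ℂ) P := by
  unfold val
  congr 2
  push_cast
  have : (-((m : ℂ) + 1)) = ((-(m + 1 : ℤ) : ℤ) : ℂ) := by push_cast; ring
  rw [this, Complex.cpow_intCast, zpow_neg]
  congr 1

/-- a pole of the local factor from an eigenvector -/
lemma val_edge_eq_zero {X : C.Var} {m : ℕ} {w : HeightOneSpectrum (𝓞 F)} {P : ℚ[X]}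
    (h : C.IsFactor c X (2 * m) F w P) {p : Nat.Primes} {𝔔 : Ideal (𝓞 Qb)} (h𝔔 : 𝔔.IsPrime)
    (hp : ((p : ℕ) : 𝓞 Qb) ∈ 𝔔) (hw : below F 𝔔 = w.asIdeal) {σ : G}
    (hσ : IsFrob F 𝔔 σ)
    (hv : HasVec C (c p) F 𝔔 σ X (2 * m) ((resCard F 𝔔 : Ql (c p)) ^ (m + 1))) :
    val (nrm w) P ((m : ℝ) + 1) = 0 := by
  obtain ⟨v, hv, hv0, hv1⟩ := hv
  have hq : resCard F 𝔔 ≠ 0 := resCard_ne_zero F h𝔔 (ne_bot_of_mem hp)
  have hqΩ : (resCard F 𝔔 : Ql (c p)) ≠ 0 := by exact_mod_cast hq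
  have h1 := factor_root_of_eigen (h p 𝔔 ⟨h𝔔, hp, hw⟩) hσ hv hv0 (pow_ne_zero _ hqΩ) hv1
  rw [val_edge, ← aeval_rat_iff (Ω := Ql (c p)),
    ← resCard_of_comap hw]
  push_cast
  exact h1

/-- an eigenvector from a pole of the local factor -/
lemma hasVec_of_val_edge {X : C.Var} {m : ℕ} {w : HeightOneSpectrum (𝓞 F)} {P : ℚ[X]}
    (h : C.IsFactor c X (2 * m) F w P) {p : Nat.Primes} {𝔔 : Ideal (𝓞 Qb)} (h𝔔 : 𝔔.IsPrime)
    (hp : ((p : ℕ) : 𝓞 Qb) ∈ 𝔔) (hw : below F 𝔔 = w.asIdeal) {σ : G}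
    (hσ : IsFrob F 𝔔 σ) (h0 : val (nrm w) P ((m : ℝ) + 1) = 0) :
    HasVec C (c p) F 𝔔 σ X (2 * m) ((resCard F 𝔔 : Ql (c p)) ^ (m + 1)) := by
  have hq : resCard F 𝔔 ≠ 0 := resCard_ne_zero F h𝔔 (ne_bot_of_mem hp)
  have hqΩ : (resCard F 𝔔 : Ql (c p)) ≠ 0 := by exact_mod_cast hq
  rw [val_edge, ← aeval_rat_iff (Ω := Ql (c p)),
    ← resCard_of_comap hw] at h0
  push_cast at h0
  exact eigen_of_factor_root (h p 𝔔 ⟨h𝔔, hp, hw⟩) hσ (pow_ne_zero _ hqΩ) h0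

end Places

/-! ### the main equivalences -/

section Main

variable {C : VarClass} {c : Nat.Primes → Nat.Primes}

/-- sublinear poles exclude the pole vectors -/
lemma no_pole_vec (hC : C.Known) (hc : ∀ p, c p ≠ p) (hrat : C.Rational c)
    (hbd : C.PolesSublinear c) {p : Nat.Primes} {F : IntermediateField ℚ Qb} [NumberField F]
    {𝔔 : Ideal (𝓞 Qb)} (h𝔔 : 𝔔.IsPrime) (hp : ((p : ℕ) : 𝓞 Qb) ∈ 𝔔) {σ : G}
    (hσ : IsFrob F 𝔔 σ) (Y : C.Var) (m : ℕ)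
    (hY : HasVec C (c p) F 𝔔 σ Y (2 * m) ((resCard F 𝔔 : Ql (c p)) ^ (m + 1))) : False := by
  classical
  have hne := ne_bot_of_mem hp
  haveI : FiniteDimensional ℚ F := NumberField.to_finiteDimensional
  have hdpos : (0 : ℝ) < Module.finrank ℚ F := by exact_mod_cast Module.finrank_pos
  obtain ⟨A, hA⟩ := hbd Y m (1 / (2 * Module.finrank ℚ F)) (by positivity)
  obtain ⟨n, hn⟩ : ∃ n : ℕ, 2 * (C.b Y (2 * m) + A) < 2 ^ n := by
    obtain ⟨n, hn⟩ := pow_unbounded_of_one_lt (2 * (C.b Y (2 * m) + A)) (one_lt_two (α := ℝ))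
    exact ⟨n, hn⟩
  obtain ⟨F', hF', hFF', s, hrk, hs, hfix, hinj⟩ := exists_many F 𝔔 h𝔔 hne n
  choose P hP using fun w => hrat Y m F' w
  have hK := hA F' P hP
  have hpg : ∀ g : G, ((p : ℕ) : 𝓞 Qb) ∈ g • 𝔔 := by
    intro g
    rw [Ideal.mem_pointwise_smul_iff_inv_smul_mem]
    have : g⁻¹ • ((p : ℕ) : 𝓞 Qb) = ((p : ℕ) : 𝓞 Qb) := by
      rw [← MulSemiringAction.toRingHom_apply, map_natCast]
    rw [this]
    exact hp
  have hprime : ∀ g : G, (g • 𝔔).IsPrime := fun g => inferInstance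
  set pl : G → HeightOneSpectrum (𝓞 F') := fun g =>
    placeBelow F' (g • 𝔔) (hprime g) (ne_bot_of_mem (hpg g)) with hpl
  set T := s.image pl with hT
  have hTcard : T.card = 2 ^ n := by
    rw [hT, Finset.card_image_of_injOn, hs]
    intro g hg h hh hgh
    exact hinj g hg h hh (congrArg HeightOneSpectrum.asIdeal hgh)
  have hzero : ∀ w ∈ T, val (nrm w) (P w) ((m : ℝ) + 1) = 0 := by
    intro w hw
    obtain ⟨g, hg, rfl⟩ := Finset.mem_image.mp hw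
    obtain ⟨σ', hσ'⟩ := exists_isFrob F' (hprime g) (ne_bot_of_mem (hpg g))
    obtain ⟨v, hv, hv0, hv1⟩ := hY
    obtain ⟨h1, f, hf, h2⟩ := transfer (C.H (c p) Y (2 * m)) hFF' h𝔔 hne hσ hv hv1
      (hfix g hg) hσ'
    refine val_edge_eq_zero (hP _) (hprime g) (hpg g) rfl hσ' ⟨_, h1, ?_, ?_⟩
    · intro h0
      apply hv0
      have h3 := congrArg (C.H (c p) Y (2 * m) g⁻¹) h0
      rw [← rho_mul_apply, inv_mul_cancel, map_one, map_zero] at h3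
      exact h3
    · rw [h2, hf]
      congr 1
      push_cast
      rw [← pow_mul, ← pow_mul, mul_comm]
  have hbad := hC.good Y (2 * m) F'
  set S := hbad.toFinset ∪ T with hS
  have hgood : ∀ w, w ∉ S → PurePoly (C.b Y (2 * m)) (2 * m) w (P w) := by
    intro w hw
    refine purePoly_of_isGood hc ?_ (hP w)
    by_contra hcon
    apply hw
    rw [hS, Finset.mem_union]
    left
    rw [Set.Finite.mem_toFinset]
    exact hcon
  have h1 := card_zero_le S (C.b Y (2 * m)) m P hgood (fun w _ => isFactor_ne_zero (hP w)) T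
    Finset.subset_union_right hzero _ hK
  rw [hTcard] at h1
  push_cast at h1
  have h2 : (Module.finrank ℚ F' : ℝ) ≤ 2 ^ n * Module.finrank ℚ F := by exact_mod_cast hrk
  have h3 : 1 / (2 * (Module.finrank ℚ F : ℝ)) * Module.finrank ℚ F' ≤ 2 ^ n / 2 := by
    calc 1 / (2 * (Module.finrank ℚ F : ℝ)) * Module.finrank ℚ F' ≤
          1 / (2 * (Module.finrank ℚ F : ℝ)) * (2 ^ n * Module.finrank ℚ F) :=
          mul_le_mul_of_nonneg_left h2 (by positivity)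
      _ = 2 ^ n / 2 := by field_simp
  linarith

/-- rationality and sublinear poles give the weight-monodromy conjecture -/
lemma wm_of_sublinear (hC : C.Known) (hc : ∀ p, c p ≠ p) (hrat : C.Rational c)
    (hbd : C.PolesSublinear c) : C.WeightMonodromy c := by
  intro X i p 𝔔 h𝔔 hp F _ N hN σ hσ j
  have hne := ne_bot_of_mem hp
  have hℓ := isPrimeTo_of h𝔔 (hc p) hp
  have hq := one_lt_resCard F h𝔔 hne
  obtain ⟨B, ⟨hB1, hB2, hnd⟩, hB⟩ := hC.selfDual (c p) X i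
  have hrel : Rel N (C.H (c p) X i σ⁻¹) (resCard F 𝔔) := hN.2.2 σ hσ
  set B' : Vec (c p) (C.b X i) →ₗ[Ql (c p)] Vec (c p) (C.b X i) →ₗ[Ql (c p)] Ql (c p) :=
    LinearMap.mk₂ (Ql (c p)) B (fun x x' y => (hB1 y).map_add x x')
      (fun a x y => (hB1 y).map_smul a x) (fun x y y' => (hB2 x).map_add y y')
      (fun a x y => (hB2 x).map_smul a y) with hB'
  refine bijOn_of_injective hq hrel i B' hnd (hB 𝔔 hℓ F σ hσ)
    (hC.weights (c p) X i 𝔔 hℓ F σ hσ) j ?_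
  intro x₀ hx₀ hNx₀
  by_contra hx0
  obtain ⟨α, x, hα, hx, hx1, hx2⟩ := exists_bad_eigenvector (by omega) hrel j _ hx₀ hx0 hNx₀
  obtain ⟨e, β, he, hβ, hZ⟩ := exists_square_vec hC h𝔔 hne hN hσ hα hx hx1 hx2
  obtain ⟨Y, m, hY⟩ := exists_pole_vec hC c hrat (hc p) h𝔔 hp hσ he hβ hZ
  exact no_pole_vec hC hc hrat hbd h𝔔 hp hσ Y m hY

/-- the weight-monodromy conjecture excludes the poles of the local factors at the edge -/
lemma val_ne_zero_of_wm (hC : C.Known) (hc : ∀ p, c p ≠ p) (hwm : C.WeightMonodromy c)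
    {F : IntermediateField ℚ Qb} [NumberField F] {X : C.Var} {m : ℕ}
    {w : HeightOneSpectrum (𝓞 F)} {P : ℚ[X]} (hP : C.IsFactor c X (2 * m) F w P) :
    val (nrm w) P ((m : ℝ) + 1) ≠ 0 := by
  intro h0
  obtain ⟨p, 𝔔, h𝔔, hp, hw⟩ := exists_above w
  have hne := ne_bot_of_mem hp
  have hℓ := isPrimeTo_of h𝔔 (hc p) hp
  obtain ⟨σ, hσ⟩ := exists_isFrob F h𝔔 hne
  obtain ⟨v, hv, hv0, hv1⟩ := hasVec_of_val_edge hP h𝔔 hp hw hσ h0
  obtain ⟨F₀, N, hF₀, hmono⟩ := hC.monodromy (c p) X (2 * m) 𝔔 hℓ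
  haveI : FiniteDimensional ℚ F := NumberField.to_finiteDimensional
  haveI : FiniteDimensional ℚ F₀ := NumberField.to_finiteDimensional
  haveI hfd : FiniteDimensional ℚ (F ⊔ F₀ : IntermediateField ℚ Qb) :=
    IntermediateField.finiteDimensional_sup _ _
  haveI hnf : NumberField (F ⊔ F₀ : IntermediateField ℚ Qb) :=
    { to_charZero := inferInstance, to_finiteDimensional := hfd }
  have hN := hmono (F ⊔ F₀) le_sup_right
  obtain ⟨σ', hσ'⟩ := exists_isFrob (F ⊔ F₀) h𝔔 hne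
  have hσ'1 : IsFrob (F ⊔ F₀) ((1 : G) • 𝔔) σ' := by rw [one_smul]; exact hσ'
  obtain ⟨h1, f, hf, h2⟩ := transfer (C.H (c p) X (2 * m)) (F' := F ⊔ F₀) le_sup_left h𝔔 hne hσ
    hv hv1 (g := 1) (fun x _ => rfl) hσ'1
  rw [one_smul] at h1 hf
  rw [map_one] at h1 h2
  change v ∈ _ at h1
  change C.H (c p) X (2 * m) σ'⁻¹ v = _ • v at h2
  -- `v` is in the kernel of `N`
  obtain ⟨hnil, ⟨t, ⟨g, hg, htg⟩, ht⟩, hrel⟩ := hN
  have hNv : N v = 0 := by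
    refine ker_of_exp_apply hnil htg ?_
    rw [← ht g hg]
    exact h1 g hg
  -- `v` has weight `2 m + 2`
  have hq' : resCard ↥(F ⊔ F₀) 𝔔 ≠ 0 := resCard_ne_zero _ h𝔔 hne
  have h3 : IsWeil (resCard ↥(F ⊔ F₀) 𝔔) ((2 * m : ℕ) + (2 : ℕ))
      (((resCard F 𝔔 : Ql (c p)) ^ (m + 1)) ^ f) := by
    have h4 := (isWeil_q (Ω := Ql (c p)) (q := resCard ↥(F ⊔ F₀) 𝔔)).pow hq' (m + 1)
    have e1 : ((resCard F 𝔔 : Ql (c p)) ^ (m + 1)) ^ f =
        (resCard ↥(F ⊔ F₀) 𝔔 : Ql (c p)) ^ (m + 1) := by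
      rw [hf]; push_cast; rw [← pow_mul, ← pow_mul, mul_comm]
    rw [e1]
    convert h4 using 1
    push_cast
    ring
  have h5 := eigen_mem_weight (C.H (c p) X (2 * m) σ'⁻¹) (resCard ↥(F ⊔ F₀) 𝔔)
    ((2 * m : ℕ) + (2 : ℕ)) h2 h3
  have h6 := hwm X (2 * m) p 𝔔 h𝔔 hp (F ⊔ F₀) N ⟨hnil, ⟨t, ⟨g, hg, htg⟩, ht⟩, hrel⟩ σ' hσ' 2
  have h7 : (N ^ 2) v = (N ^ 2) 0 := by
    rw [map_zero, pow_two, Module.End.mul_apply, hNv, map_zero]
  exact hv0 (h6.injOn h5 (Submodule.zero_mem _) h7)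

/-- the bad set -/
lemma exists_badset (hC : C.Known) (X : C.Var) (i : ℕ) (F : IntermediateField ℚ Qb)
    [NumberField F] : ∃ S : Finset (HeightOneSpectrum (𝓞 F)), ∀ w, w ∉ S → C.IsGood X i F w := by
  refine ⟨(hC.good X i F).toFinset, fun w hw => ?_⟩
  by_contra hcon
  exact hw (by rw [Set.Finite.mem_toFinset]; exact hcon)

theorem betti_of_wm (hC : C.Known) (hc : ∀ p, c p ≠ p) (hwm : C.WeightMonodromy c) :
    C.PolesLeBetti c := by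
  intro X m F _ P hP
  obtain ⟨S, hS⟩ := exists_badset hC X (2 * m) F
  exact bounded_of_good S (C.b X (2 * m)) m P (fun w hw => purePoly_of_isGood hc (hS w hw) (hP w))
    (fun w _ => val_ne_zero_of_wm hC hc hwm (hP w))

theorem sublinear_of_betti (h : C.PolesLeBetti c) : C.PolesSublinear c := by
  intro X m δ hδ
  refine ⟨C.b X (2 * m), fun F _ P hP => ?_⟩
  refine (h X m F P hP).mono ?_
  have : 0 ≤ δ * (Module.finrank ℚ F : ℝ) := by positivity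
  linarith

theorem main₂ (hC : C.Known) (hc : ∀ p, c p ≠ p) (hrat : C.Rational c) :
    List.TFAE [C.WeightMonodromy c, C.PolesLeBetti c, C.PolesSublinear c] := by
  tfae_have 1 → 2 := betti_of_wm hC hc
  tfae_have 2 → 3 := sublinear_of_betti
  tfae_have 3 → 1 := wm_of_sublinear hC hc hrat
  tfae_finish

theorem main₁ (hC : C.Known) (hc : ∀ p, c p ≠ p) :
    C.Tate c ↔ C.TateGood c ∧ C.Rational c ∧ C.WeightMonodromy c := by
  constructor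
  · intro h
    have hrat : C.Rational c := by
      intro X m F _ w
      obtain ⟨P, hP, _⟩ := h X m F
      exact ⟨P w, hP w⟩
    have hbd : C.PolesLeBetti c := by
      intro X m F _ P hP
      obtain ⟨P', hP', hord⟩ := h X m F
      have e : P = P' := funext fun w => isFactor_unique (hP w) (hP' w)
      rw [e]
      exact bounded_of_order (by exact_mod_cast hC.rank_le X m F) hord
    have hwm := wm_of_sublinear hC hc hrat (sublinear_of_betti hbd)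
    refine ⟨?_, hrat, hwm⟩
    intro X m F _ S P hS
    obtain ⟨P', hP', hord⟩ := h X m F
    have hgood : ∀ w, w ∉ S → PurePoly (C.b X (2 * m)) (2 * m) w (P' w) :=
      fun w hw => purePoly_of_isGood hc (hS w hw).1 (hP' w)
    have h1 := (hasOrder_iff S (C.b X (2 * m)) m P' hgood
      (fun w _ => val_ne_zero_of_wm hC hc hwm (hP' w)) _).mp hord
    have h2 : LFunAway S P = LFunAway S P' := by
      funext s
      unfold LFunAway
      refine tprod_congr fun w => ?_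
      rw [isFactor_unique (hS w.1 w.2).2 (hP' w.1)]
    rw [h2]
    exact h1
  · rintro ⟨hgood, hrat, hwm⟩ X m F _
    choose P hP using fun w => hrat X m F w
    obtain ⟨S, hS⟩ := exists_badset hC X (2 * m) F
    refine ⟨P, hP, ?_⟩
    have h1 := hgood X m F S P fun w hw => ⟨hS w hw, hP w⟩
    exact (hasOrder_iff S (C.b X (2 * m)) m P
      (fun w hw => purePoly_of_isGood hc (hS w hw) (hP w))
      (fun w _ => val_ne_zero_of_wm hC hc hwm (hP w)) _).mpr h1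

end Main

end Pool.Agent.H6.TW
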