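import Pool.Agent.H6.TW.Defs

set_option autoImplicit false

open Polynomial

namespace Pool.Agent.H6.TW

variable {Ω : Type} [Field Ω] [CharZero Ω]

/-- the algebraic numbers in `Ω` -/
noncomputable abbrev KK (Ω : Type) [Field Ω] [CharZero Ω] : IntermediateField ℚ Ω :=
  algebraicClosure ℚ Ω

instance : Algebra.IsAlgebraic ℚ (KK Ω) := algebraicClosure.isAlgebraic ℚ Ω

lemma minpoly_KK (x : KK Ω) : minpoly ℚ (x : Ω) = minpoly ℚ x :=
  (IntermediateField.minpoly_eq x).symm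

lemma exists_emb (x : KK Ω) (z : ℂ) (hz : aeval z (minpoly ℚ (x : Ω)) = 0) :
    ∃ τ : KK Ω →ₐ[ℚ] ℂ, τ x = z := by
  have h := Algebra.IsAlgebraic.range_eval_eq_rootSet_minpoly (F := ℚ) (K := KK Ω) ℂ x
  have h2 : z ∈ (minpoly ℚ x).rootSet ℂ := by
    rw [mem_rootSet]
    refine ⟨minpoly.ne_zero (Algebra.IsIntegral.isIntegral x), ?_⟩
    rw [← minpoly_KK]
    exact hz
  rw [← h] at h2
  exact h2

lemma emb_root (x : KK Ω) (τ : KK Ω →ₐ[ℚ] ℂ) : aeval (τ x) (minpoly ℚ (x : Ω)) = 0 := by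
  rw [minpoly_KK, aeval_algHom_apply, minpoly.aeval, map_zero]

lemma mem_KK {α : Ω} (h : IsIntegral ℚ α) : α ∈ KK Ω := by
  rw [mem_algebraicClosure_iff']
  exact h

lemma isWeil_iff {q : ℕ} {w : ℤ} (x : KK Ω) :
    IsWeil q w (x : Ω) ↔ ∀ τ : KK Ω →ₐ[ℚ] ℂ, ‖τ x‖ ^ 2 = (q : ℝ) ^ w := by
  constructor
  · intro h τ
    exact h.2 _ (emb_root x τ)
  · intro h
    refine ⟨?_, fun z hz => ?_⟩
    · have : IsIntegral ℚ x := Algebra.IsIntegral.isIntegral x
      exact this.map (KK Ω).val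
    · obtain ⟨τ, rfl⟩ := exists_emb x z hz
      exact h τ

/-- lift a Weil number -/
lemma IsWeil.lift {q : ℕ} {w : ℤ} {α : Ω} (h : IsWeil q w α) : ∃ x : KK Ω, (x : Ω) = α :=
  ⟨⟨α, mem_KK h.1⟩, rfl⟩

lemma emb_nonempty (Ω : Type) [Field Ω] [CharZero Ω] : Nonempty (KK Ω →ₐ[ℚ] ℂ) :=
  ⟨IsAlgClosed.lift⟩

lemma IsWeil.mul {q : ℕ} (hq : q ≠ 0) {w w' : ℤ} {α β : Ω} (h : IsWeil q w α)
    (h' : IsWeil q w' β) : IsWeil q (w + w') (α * β) := by
  obtain ⟨x, rfl⟩ := h.lift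
  obtain ⟨y, rfl⟩ := h'.lift
  rw [isWeil_iff] at h h'
  have : ((x * y : KK Ω) : Ω) = (x : Ω) * (y : Ω) := rfl
  rw [← this, isWeil_iff]
  intro τ
  rw [map_mul, norm_mul, mul_pow, h τ, h' τ, zpow_add₀ (by exact_mod_cast hq)]

lemma isWeil_q {q : ℕ} : IsWeil q 2 ((q : Ω)) := by
  have : (((q : KK Ω)) : Ω) = (q : Ω) := by norm_cast
  rw [← this, isWeil_iff]
  intro τ
  rw [map_natCast]
  simp only [Complex.norm_natCast]
  norm_cast

lemma IsWeil.inv {q : ℕ} {w : ℤ} {α : Ω} (h : IsWeil q w α) :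
    IsWeil q (-w) α⁻¹ := by
  obtain ⟨x, rfl⟩ := h.lift
  rw [isWeil_iff] at h
  have : ((x⁻¹ : KK Ω) : Ω) = (x : Ω)⁻¹ := rfl
  rw [← this, isWeil_iff]
  intro τ
  rw [map_inv₀, norm_inv, inv_pow, h τ, zpow_neg]

lemma isWeil_one {q : ℕ} : IsWeil q 0 (1 : Ω) := by
  have : (((1 : KK Ω)) : Ω) = (1 : Ω) := rfl
  rw [← this, isWeil_iff]
  intro τ
  simp

lemma IsWeil.pow {q : ℕ} (hq : q ≠ 0) {w : ℤ} {α : Ω} (h : IsWeil q w α) (k : ℕ) :
    IsWeil q (k * w) (α ^ k) := by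
  induction k with
  | zero => simpa using isWeil_one
  | succ k ih =>
    rw [pow_succ]
    have := ih.mul hq h
    convert this using 1
    push_cast
    ring

lemma IsWeil.ne_zero {q : ℕ} (hq : q ≠ 0) {w : ℤ} {α : Ω} (h : IsWeil q w α) : α ≠ 0 := by
  obtain ⟨x, rfl⟩ := h.lift
  rw [isWeil_iff] at h
  intro h0
  have hx : x = 0 := by exact_mod_cast h0
  obtain ⟨τ⟩ := emb_nonempty Ω
  have := h τ
  rw [hx, map_zero, norm_zero] at this
  have h2 : (q : ℝ) ^ w ≠ 0 := zpow_ne_zero _ (by exact_mod_cast hq)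
  apply h2
  rw [← this]
  norm_num

lemma IsWeil.unique {q : ℕ} (hq : 1 < q) {w w' : ℤ} {α : Ω} (h : IsWeil q w α)
    (h' : IsWeil q w' α) : w = w' := by
  obtain ⟨x, rfl⟩ := h.lift
  rw [isWeil_iff] at h h'
  obtain ⟨τ⟩ := emb_nonempty Ω
  have := (h τ).symm.trans (h' τ)
  have hq' : (1 : ℝ) < q := by exact_mod_cast hq
  exact zpow_right_injective₀ (by linarith) (by linarith) this

/-- a rational polynomial which vanishes at a Weil number vanishes at its complex conjugate -/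
lemma IsWeil.conj_root {q : ℕ} (hq : q ≠ 0) {w : ℤ} {α : Ω} (h : IsWeil q w α) (P : ℚ[X])
    (hP : aeval α P = 0) : aeval ((q : Ω) ^ w / α) P = 0 := by
  obtain ⟨x, rfl⟩ := h.lift
  rw [isWeil_iff] at h
  obtain ⟨τ⟩ := emb_nonempty Ω
  have hx : aeval x P = 0 := by
    have : (KK Ω).val (aeval x P) = 0 := by
      rw [← aeval_algHom_apply]
      exact hP
    exact (map_eq_zero _).mp this
  have h1 : τ ((q : KK Ω) ^ w / x) = (starRingEnd ℂ) (τ x) := by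
    have h2 := h τ
    have h3 : τ x * (starRingEnd ℂ) (τ x) = (q : ℂ) ^ w := by
      rw [Complex.mul_conj, Complex.normSq_eq_norm_sq, h2]
      push_cast
      rfl
    have h4 : τ x ≠ 0 := by
      intro h0
      rw [h0, zero_mul] at h3
      exact zpow_ne_zero w (by exact_mod_cast hq : (q : ℂ) ≠ 0) h3.symm
    rw [map_div₀, map_zpow₀, map_natCast, ← h3]
    field_simp
  have h5 : aeval ((starRingEnd ℂ) (τ x)) P = 0 := by
    have h6 : aeval (τ x) P = 0 := by rw [aeval_algHom_apply, hx, map_zero]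
    have h7 : (starRingEnd ℂ) (aeval (τ x) P) = aeval ((starRingEnd ℂ) (τ x)) P := by
      rw [aeval_def, hom_eval₂, aeval_def]
      congr 1
      ext
      simp
    rw [← h7, h6, map_zero]
  rw [← h1, aeval_algHom_apply] at h5
  have h8 : aeval ((q : KK Ω) ^ w / x) P = 0 := (map_eq_zero _).mp h5
  have h9 : (KK Ω).val ((q : KK Ω) ^ w / x) = (q : Ω) ^ w / (x : Ω) := by
    rw [map_div₀, map_zpow₀, map_natCast]
    rfl
  rw [← h9, aeval_algHom_apply, h8, map_zero]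

end Pool.Agent.H6.TW
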